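import Pool.Agent.W_MP_a3c811_h79.Q.LinTr

/-! Traces on the spans of rational families of vectors with an anisotropic form. -/

noncomputable section

namespace Pool.Agent.H79Q

open Module

universe uI v w

theorem Cls_comb {I : Type uI} {K : I → Type v} [∀ l, Field (K l)]
    {E : I → Type w} [∀ l, AddCommGroup (E l)] [∀ l, Module (K l) (E l)]
    (Fam : Set (∀ l, E l)) (h0 : (fun _ => 0) ∈ Fam)
    (hadd : ∀ x ∈ Fam, ∀ y ∈ Fam, (fun l => x l + y l) ∈ Fam)
    (hsmul : ∀ (q : ℚ), ∀ x ∈ Fam, (fun l => (q : K l) • x l) ∈ Fam)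
    {ι : Type w} (s : Finset ι) (x : ι → ∀ l, E l) (hx : ∀ i, x i ∈ Fam) (a : ι → ℚ) :
    (fun l => ∑ i ∈ s, (a i : K l) • x i l) ∈ Fam := by
  classical
  induction s using Finset.induction_on with
  | empty => simpa using h0
  | insert i s hi ih =>
    have h := hadd _ (hsmul (a i) (x i) (hx i)) _ ih
    have e : (fun l => ∑ j ∈ insert i s, (a j : K l) • x j l) =
        (fun l => (a i : K l) • x i l + ∑ j ∈ s, (a j : K l) • x j l) := by
      funext l
      rw [Finset.sum_insert hi]
    rw [e]
    exact h

theorem Cls_pair {k : Type v} [Field k] {V : Type w} [AddCommGroup V] [Module k V]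
    (T : V →ₗ[k] V →ₗ[k] k) {ι : Type w} (s : Finset ι) (c : ι → k) (x : ι → V) (y : V) :
    T (∑ i ∈ s, c i • x i) y = ∑ i ∈ s, c i * T (x i) y := by
  rw [map_sum, LinearMap.sum_apply]
  refine Finset.sum_congr rfl fun i _ => ?_
  rw [map_smul, LinearMap.smul_apply, smul_eq_mul]

/-- Let `E l` be finite-dimensional spaces over the fields `K l` of characteristic zero with bilinear
forms `T l`, and let `Fam` be a set of families `x = (x l)` of vectors, closed under sums and rational
multiples, such that `T l (x l) (y l)` is a rational number not depending on `l` and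
`T l (x l) (x l) = 0` only if `x l = 0`, for `x` and `y` in `Fam`.  Let `g l` be endomorphisms with
`(g l (x l)) ∈ Fam` for `x ∈ Fam`.  Then the trace of `g l` on the span of the `x l`, `x ∈ Fam`, is a
rational number which does not depend on `l`.

Proof. If `I` is empty there is nothing to do.  Let `A l` be the span of the `x l`.  Write `b(x, y)`
for the rational number.  For `x, y ∈ Fam`: if `x l = 0` for one `l` then `b(x, y) = 0` for all
`y ∈ Fam`, in particular `b(x, x) = 0`, so `x l' = 0` for all `l'`.
(1) Let `x_1, ..., x_r ∈ Fam` be such that the `x_i l0` are linearly independent for one `l0`.  The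
Gram matrix `G = (b(x_i, x_j))` is invertible over `ℚ`: if `a ∈ ℚ^r` and `∑_i a_i b(x_i, x_j) = 0`
for all `j`, then `y = ∑ a_i x_i ∈ Fam` has `b(y, y) = 0`, so `y l0 = 0` and `a = 0` (linear
independence over `K l0`).  So for every `l` the `x_i l` are linearly independent: if
`∑ c_i x_i l = 0`, `c_i ∈ K l`, then pairing with `x_j l` gives `∑ c_i b(x_i, x_j) = 0`, and `G`
(mapped to `K l`) is invertible, so `c = 0`.
(2) Take the `x_i` such that the `x_i l0` form a basis of `A l0` (a spanning set contains a basis).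
By (1) `finrank (A l0) ≤ finrank (A l)` for all `l`, and by symmetry equality holds, so the `x_i l`
form a basis of `A l` for every `l`.
(3) Let `M` be the rational matrix with `b(g x_i, x_k) = ∑_j M i j b(x_j, x_k)` for all `k`
(`G` is invertible), where `g x = (g l (x l))`.  Then `y = g x_i - ∑_j M i j x_j ∈ Fam` is orthogonal
to all `x_k`; for every `l` we have `y l = ∑ c_j x_j l` by (2), and `∑ c_j b(x_j, x_k) = 0` for all
`k`, so `c = 0` and `y l = 0`.  So `g l (x_i l) = ∑_j M i j x_j l` for all `l`, and the trace of `g l`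
on `A l` is `∑ M i i`. -/
theorem clsTrace {I : Type uI} {K : I → Type v} [∀ l, Field (K l)] [∀ l, CharZero (K l)]
    {E : I → Type w} [∀ l, AddCommGroup (E l)] [∀ l, Module (K l) (E l)]
    [∀ l, FiniteDimensional (K l) (E l)] (Fam : Set (∀ l, E l)) (h0 : (fun _ => 0) ∈ Fam)
    (hadd : ∀ x ∈ Fam, ∀ y ∈ Fam, (fun l => x l + y l) ∈ Fam)
    (hsmul : ∀ (q : ℚ), ∀ x ∈ Fam, (fun l => (q : K l) • x l) ∈ Fam)
    (T : ∀ l, E l →ₗ[K l] E l →ₗ[K l] K l)
    (hb : ∀ x ∈ Fam, ∀ y ∈ Fam, ∃ q : ℚ, ∀ l, T l (x l) (y l) = ((q : ℚ) : K l))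
    (han : ∀ x ∈ Fam, ∀ l, T l (x l) (x l) = 0 → x l = 0) (g : ∀ l, Module.End (K l) (E l))
    (hg : ∀ x ∈ Fam, (fun l => g l (x l)) ∈ Fam) :
    ∃ τ : ℚ, ∀ l, trOn (g l) (Submodule.span (K l) {y | ∃ x ∈ Fam, x l = y}) = ((τ : ℚ) : K l) := by
  classical
  rcases isEmpty_or_nonempty I with hI | ⟨⟨l0⟩⟩
  · exact ⟨0, fun l => (hI.false l).elim⟩
  obtain ⟨B, hBs, hspan, hli⟩ :=
    exists_linearIndependent (K l0) {y : E l0 | ∃ x ∈ Fam, x l0 = y}
  have hfin : Finite B := hli.finite
  have : Fintype B := Fintype.ofFinite B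
  choose x hxF hxB using fun i : B => hBs i.2
  choose q hq using fun i j : B => hb (x i) (hxF i) (x j) (hxF j)
  have hcomb : ∀ a : B → ℚ, (fun l => ∑ i, (a i : K l) • x i l) ∈ Fam := fun a =>
    Cls_comb Fam h0 hadd hsmul Finset.univ x hxF a
  have hli0 : LinearIndependent (K l0) (fun i => x i l0) := by
    have e : (fun i => x i l0) = ((↑) : B → E l0) := funext fun i => hxB i
    rw [e]
    exact hli
  set G : Matrix B B ℚ := Matrix.of q with hG
  -- the Gram matrix is invertible
  have hdet : G.det ≠ 0 := by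
    intro hd
    obtain ⟨a, ha0, ha⟩ := Matrix.exists_vecMul_eq_zero_iff.mpr hd
    apply ha0
    have haj : ∀ j, ∑ i, a i * q i j = 0 := fun j => by
      have := congrFun ha j
      simpa [Matrix.vecMul, dotProduct, hG] using this
    have h1 : ∀ j, T l0 (∑ i, (a i : K l0) • x i l0) (x j l0) = 0 := by
      intro j
      rw [Cls_pair]
      simp_rw [hq]
      have := congrArg (fun t : ℚ => (t : K l0)) (haj j)
      push_cast at this
      exact this
    have h2 : T l0 (∑ i, (a i : K l0) • x i l0) (∑ i, (a i : K l0) • x i l0) = 0 := by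
      rw [map_sum]
      refine Finset.sum_eq_zero fun j _ => ?_
      rw [map_smul, h1, smul_zero]
    have h3 : ∑ i, (a i : K l0) • x i l0 = 0 := han _ (hcomb a) l0 h2
    have h4 := Fintype.linearIndependent_iff.mp hli0 (fun i => (a i : K l0)) h3
    funext i
    exact_mod_cast h4 i
  have hker : ∀ l (c : B → K l), (∀ j, ∑ i, c i * (q i j : K l) = 0) → c = 0 := by
    intro l c hc
    have hd : (G.map (Rat.castHom (K l))).det ≠ 0 := by
      have e : (G.map (Rat.castHom (K l))).det = Rat.castHom (K l) G.det :=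
        ((Rat.castHom (K l)).map_det G).symm
      rw [e]
      simpa using hdet
    refine Matrix.eq_zero_of_vecMul_eq_zero hd ?_
    funext j
    simpa [Matrix.vecMul, dotProduct, hG] using hc j
  have hliA : ∀ l, LinearIndependent (K l) (fun i => x i l) := by
    intro l
    rw [Fintype.linearIndependent_iff]
    intro c hc i
    have h1 := hker l c fun j => by
      have h2 : T l (∑ i, c i • x i l) (x j l) = 0 := by
        rw [hc, map_zero, LinearMap.zero_apply]
      rw [Cls_pair] at h2
      simpa only [hq] using h2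
    exact congrFun h1 i
  -- expansion with rational coefficients
  have hexp : ∀ z ∈ Fam, ∃ a : B → ℚ, ∀ l, z l = ∑ j, (a j : K l) • x j l := by
    intro z hz
    choose t ht using fun j : B => hb z hz (x j) (hxF j)
    have hunit : IsUnit G.det := isUnit_iff_ne_zero.mpr hdet
    set a : B → ℚ := Matrix.vecMul t G⁻¹ with ha
    have haG : ∀ j, ∑ i, a i * q i j = t j := by
      intro j
      have h1 : Matrix.vecMul a G = t := by
        rw [ha, Matrix.vecMul_vecMul, Matrix.nonsing_inv_mul G hunit, Matrix.vecMul_one]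
      have := congrFun h1 j
      simpa [Matrix.vecMul, dotProduct, hG] using this
    have hy : (fun l => z l + (((-1 : ℚ) : ℚ) : K l) • ∑ j, (a j : K l) • x j l) ∈ Fam :=
      hadd z hz _ (hsmul (-1) _ (hcomb a))
    have hy' : ∀ l, z l + (((-1 : ℚ) : ℚ) : K l) • ∑ j, (a j : K l) • x j l =
        z l - ∑ j, (a j : K l) • x j l := by
      intro l
      push_cast
      rw [neg_one_smul, sub_eq_add_neg]
    simp_rw [hy'] at hy
    have horth : ∀ l j, T l (z l - ∑ j, (a j : K l) • x j l) (x j l) = 0 := by
      intro l j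
      rw [map_sub, LinearMap.sub_apply, Cls_pair, ht j l, ← haG j]
      simp_rw [hq]
      push_cast
      rw [sub_self]
    have hmem : z l0 - ∑ j, (a j : K l0) • x j l0 ∈
        Submodule.span (K l0) (Set.range fun i => x i l0) := by
      have e : Set.range (fun i => x i l0) = B := by
        have e1 : (fun i => x i l0) = ((↑) : B → E l0) := funext fun i => hxB i
        rw [e1, Subtype.range_coe]
      rw [e, hspan]
      exact Submodule.subset_span ⟨_, hy, rfl⟩
    obtain ⟨c, hc⟩ := (Submodule.mem_span_range_iff_exists_fun (K l0)).mp hmem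
    have hc0 : c = 0 := hker l0 c fun j => by
      have h2 := horth l0 j
      rw [← hc, Cls_pair] at h2
      simpa only [hq] using h2
    have hz0 : z l0 - ∑ j, (a j : K l0) • x j l0 = 0 := by
      rw [← hc, hc0]
      simp
    obtain ⟨r, hr⟩ := hb _ hy _ hy
    have hr0 : r = 0 := by
      have h1 := hr l0
      simp only [hz0, map_zero] at h1
      exact_mod_cast h1.symm
    refine ⟨a, fun l => ?_⟩
    have h1 := hr l
    rw [hr0, Rat.cast_zero] at h1
    exact sub_eq_zero.mp (han _ hy l h1)
  choose M hM using fun i : B => hexp _ (hg (x i) (hxF i))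
  refine ⟨∑ i, M i i, fun l => ?_⟩
  have hA : Submodule.span (K l) {y | ∃ x ∈ Fam, x l = y} =
      Submodule.span (K l) (Set.range fun i => x i l) := by
    apply le_antisymm
    · rw [Submodule.span_le]
      rintro _ ⟨z, hz, rfl⟩
      obtain ⟨a, ha⟩ := hexp z hz
      rw [SetLike.mem_coe, ha l]
      exact Submodule.sum_mem _ fun j _ => Submodule.smul_mem _ _ (Submodule.subset_span ⟨j, rfl⟩)
    · rw [Submodule.span_le]
      rintro _ ⟨i, rfl⟩
      exact Submodule.subset_span ⟨x i, hxF i, rfl⟩
  rw [hA]
  have hst : ∀ y ∈ Submodule.span (K l) (Set.range fun i => x i l),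
      g l y ∈ Submodule.span (K l) (Set.range fun i => x i l) := by
    intro y hy
    have h1 : Submodule.span (K l) (Set.range fun i => x i l) ≤
        (Submodule.span (K l) (Set.range fun i => x i l)).comap (g l) := by
      rw [Submodule.span_le]
      rintro _ ⟨i, rfl⟩
      rw [SetLike.mem_coe, Submodule.mem_comap]
      have h2 : g l (x i l) = ∑ j, (M i j : K l) • x j l := hM i l
      simp only [h2]
      exact Submodule.sum_mem _ fun j _ => Submodule.smul_mem _ _ (Submodule.subset_span ⟨j, rfl⟩)
    exact h1 hy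
  rw [trOn_def hst]
  set b := Basis.span (hliA l) with hbdef
  have hbi : ∀ i, ((b i : Submodule.span (K l) (Set.range fun i => x i l)) : E l) = x i l :=
    fun i => congrArg Subtype.val (Basis.span_apply (hliA l) i)
  rw [LinearMap.trace_eq_matrix_trace (K l) b]
  rw [Matrix.trace]
  push_cast
  refine Finset.sum_congr rfl fun i _ => ?_
  rw [Matrix.diag_apply, LinearMap.toMatrix_apply]
  have h3 : (g l).restrict hst (b i) = ∑ j, (M i j : K l) • b j := by
    apply Subtype.ext
    rw [LinearMap.coe_restrict_apply, hbi]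
    push_cast
    simp_rw [hbi]
    exact hM i l
  rw [h3, map_sum]
  simp [Finsupp.single_apply]

end Pool.Agent.H79Q
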