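import Pool.Agent.W_MP_a3c811_h79.Q.RealC

/-! The traces of Frobenius on the realisations in all theories. -/

noncomputable section

set_option linter.unusedSectionVars false

namespace Pool.Agent.H79Q

open Module Polynomial Pool.Agent.WeilH_h6 Pool.Agent.WeilH_h6.VarClass Pool.Agent.H62D
  Pool.Agent.H62A Pool.Agent.H79L Pool.Agent.H62X Pool.Agent.H79E Pool.Agent.H62S
  Pool.Agent.H62S.Strata

universe u v w

variable {k : Type u} [Field k] {𝒱 : VarClass k} {I : Type} {K : I → Type v} [∀ l, Field (K l)]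
  [∀ l, CharZero (K l)] {W : ∀ l, Weil.{u, v, w} 𝒱 (K l)} {X : Strata W}

/-- the fixed vectors of `e` at a position -/
abbrev XEe (X : Strata W) (l : I) (e : Module.End (K l) (Tot (W l) X.EY)) (p w : ℤ) :
    Submodule (K l) (Tot (W l) X.EY) := Ee X.n (sP X l) (tP X l) e p w

/-- the coboundaries at a position -/
abbrev XBb (X : Strata W) (l : I) (e : Module.End (K l) (Tot (W l) X.EY)) (p w : ℤ) :
    Submodule (K l) (Tot (W l) X.EY) :=
  Bb (K := K l) (E := Tot (W l) X.EY) (X.ed l) X.n (sP X l) (tP X l) e p w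

/-- the graded parts -/
abbrev XGr (M : X.Motive) (l : I) (e : Module.End (K l) (Tot (W l) X.EY)) (p w : ℤ) :
    Submodule (K l) (M.V l) :=
  Gr (K := K l) (E := Tot (W l) X.EY) (V := M.V l) (X.ed l) X.n (sP X l) (tP X l) e (M.u l) p w

section fam

variable [DecidableEq X.J] (hW : Compatible W) (hK : ∀ c n, KunnethMotivic W (X.EY c) n)
  {ε ψ : ∀ l, TEnd (W l) X.Y} (hε : X.MotCompat ε) (hψ : X.MotCompat ψ)
  (hεi : ∀ l x, X.lift l 0 (ε l) (X.lift l 0 (ε l) x) = X.lift l 0 (ε l) x)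
  (hεψ : ∀ l x, X.lift l 0 (ε l) (X.lift l 0 (ψ l) x) = X.lift l 0 (ψ l) (X.lift l 0 (ε l) x))

/-- the lift of a motivic endomorphism of the strata -/
def liftA (hW : Compatible W) {φ : ∀ l, TEnd (W l) X.Y} (hφ : X.MotCompat φ) : MA hW X.EY :=
  ⟨fun l => X.lift l 0 (φ l), X.motivic_lift 0 hφ.1⟩

/-- the position projectors -/
def sA (X : Strata W) (hW : Compatible W) (p : ℤ) : MA hW X.EY :=
  ⟨fun l => posProj (W l) X.EY X.epos p, motivic_posProj hW p⟩

/-- the degree projectors -/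
def tA (X : Strata W) (hW : Compatible W) (hK : ∀ c n, KunnethMotivic W (X.EY c) n) (w : ℤ) :
    MA hW X.EY :=
  ⟨fun l => degProj (W l) X.EY X.epos X.etw w, motivic_degProj hK w⟩

/-- the operator `d [f, [g, d]] G` -/
def dgA (X : Strata W) (hW : Compatible W) (Q : ℚ[X]) : MA hW X.EY :=
  X.complex.dA hW * ((X.toLefschetz hW).d3A hW * aeval ((X.toLefschetz hW).lapA hW) Q)

include hW hK hε hψ hεi hεψ in
/-- the traces on the fixed vectors of `ε` -/
theorem ratFam_ee (p w : ℤ) (m : ℕ) :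
    RatFam fun l => trOn (X.lift l 0 (ψ l) ^ m) (XEe X l (X.lift l 0 (ε l)) p w) := by
  set Q : MA hW X.EY := liftA hW hε * (tA X hW hK (w + X.n) * sA X hW p) with hQd
  have happ : ∀ l x, MA.val Q l x = X.lift l 0 (ε l) (tP X l (w + X.n) (sP X l p x)) :=
    fun l x => rfl
  have hmem : ∀ l x, MA.val Q l x ∈ XEe X l (X.lift l 0 (ε l)) p w := by
    intro l x
    obtain ⟨D, hD⟩ := (X.toLefschetz hW).bi l
    rw [happ]
    exact ⟨(ec_lift hW (motCompat_com hε l)).aat (at_comp hD p w x), hεi l _⟩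
  have hid : ∀ l x, x ∈ XEe X l (X.lift l 0 (ε l)) p w → MA.val Q l x = x := by
    rintro l x ⟨⟨h1, h2⟩, h3⟩
    rw [happ, h1, h2, h3]
  have hr : ∀ l, XEe X l (X.lift l 0 (ε l)) p w = LinearMap.range (MA.val Q l) := by
    intro l
    ext x
    exact ⟨fun hx => ⟨x, hid l x hx⟩, by rintro ⟨y, rfl⟩; exact hmem l y⟩
  have h1 := ratFam_range hW hK (liftA hW hψ) Q
    (fun l => LinearMap.ext fun x => hid l _ (hmem l x)) (fun l x hx => by
      rw [← hr] at hx ⊢
      obtain ⟨h1, h2⟩ := hx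
      refine ⟨(ec_lift hW (motCompat_com hψ l)).aat h1, ?_⟩
      change X.lift l 0 (ε l) (X.lift l 0 (ψ l) x) = X.lift l 0 (ψ l) x
      rw [hεψ, h2]) m
  refine h1.of_eq fun l => ?_
  rw [hr]
  rfl

end fam

section real

variable [DecidableEq X.J] (hW : Compatible W) (hK : ∀ c n, KunnethMotivic W (X.EY c) n)
  {M : X.Motive} {ε ψ : ∀ l, TEnd (W l) X.Y}
  {c : ℤ → ℚ} (hM : M.Via ε ψ c) {P Q : ℚ[X]} (F : FitX X hW P Q)
  {BY : ∀ l, Subring (Module.End (K l) (Tot (W l) X.Y))} (hY : ∀ l, X.YRing l (BY l))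
  (hc : ∀ l, ∃ Z', XCore X l (BY l) (hY l) (ZE X hW P l) Z') (hL : ∀ l, X.HardLefschetz l)

include hW hK hM F hY hc hL

/-- the traces on the coboundaries -/
theorem ratFam_bb (p w : ℤ) (m : ℕ) : ∃ r : ∀ l, K l, RatFam r ∧ ∀ l,
    trOn (X.lift l 0 (ψ l) ^ m) (XBb X l (X.lift l 0 (ε l)) p w) = r l +
      if (p = 0 ∧ w = 1) ∨ (p = 1 ∧ w = 0) then trOn (X.lift l 0 (ψ l) ^ m)
        ((XAm X l (ZE X hW P l) (X.lift l 0 (ε l))).map (xuop X l)) else 0 := by
  set Q2 : MA hW X.EY := liftA hW hM.compat.1 * (sA X hW p * (tA X hW hK (w + X.n) *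
    dgA X hW Q)) with hQ2
  have hval : ∀ l, MA.val Q2 l = P2 (K := K l) (E := Tot (W l) X.EY) (X.eNd l) (X.eLam l)
      (X.ed l) X.n (sP X l) (tP X l) (X.lift l 0 (ε l))
      (MA.val (aeval ((X.toLefschetz hW).lapA hW) Q) l) p w := fun l => rfl
  have hbk : ∀ l, Bb (K := K l) (E := Tot (W l) X.EY) (X.ed l) X.n (sP X l) (tP X l)
      (X.lift l 0 (ε l)) p w ⊓ LinearMap.ker (ZE X hW P l) = LinearMap.range (MA.val Q2 l) ∧
      MA.val Q2 l * MA.val Q2 l = MA.val Q2 l := by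
    intro l
    rw [hval]
    obtain ⟨D, hP⟩ := (hY l).pol hW
    refine (rl_of hW hM l).bb_ker hP (har_strata (hY l) hW F) (F.map (ev (C := X.complex) hW X.EY l))
      (lift_Z hW (motCompat_com hM.compat.1 l) F) ?_ p w
    exact (congrArg (fun x => MA.val x l)
      (commute_aeval ((X.toLefschetz hW).lap_comm_d hW) Q)).symm
  refine ⟨fun l => trOn (X.lift l 0 (ψ l) ^ m) (LinearMap.range (MA.val Q2 l)), ?_, fun l => ?_⟩
  · refine (ratFam_range hW hK (liftA hW hM.compat.2) Q2 (fun l => (hbk l).2)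
      (fun l x hx => ?_) m).of_eq fun l => rfl
    rw [← (hbk l).1] at hx ⊢
    obtain ⟨D, hP⟩ := (hY l).pol hW
    refine ⟨(rl_of hW hM l).bb_stab hP.bi x hx.1, ?_⟩
    have h2 : ZE X hW P l x = 0 := hx.2
    change ZE X hW P l (X.lift l 0 (ψ l) x) = 0
    rw [← lift_Z hW (motCompat_com hM.compat.2 l) F, h2, map_zero]
  · obtain ⟨D, hP⟩ := (hY l).pol hW
    obtain ⟨Z', hcl⟩ := hc l
    have hZ := har_strata (hY l) hW F
    have R := rl_of hW hM l
    have h1 := trOn_map (ZE X hW P l) (U := XBb X l (X.lift l 0 (ε l)) p w)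
      (T := X.lift l 0 (ψ l) ^ m) (T' := X.lift l 0 (ψ l) ^ m)
      (pow_mem_of (R.bb_stab hP.bi) m) (fun x _ => by
        refine pow_comm_app (LinearMap.ext fun x => ?_) m x
        exact lift_Z hW (motCompat_com hM.compat.2 l) F x)
    rw [h1]
    congr 1
    · rw [(hbk l).1]
    · exact R.tr_bz hP hZ hcl (fun p m => ei_lef (hL l p m))
        (lift_Z hW (motCompat_com hM.compat.1 l) F) (lift_Z hW (motCompat_com hM.compat.2 l) F)
        p w m

end real

end Pool.Agent.H79Q
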