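import Pool.Agent.W_MP_a3c811_h79.Q.Puni
import Pool.Agent.W_MP_a3c811_h79.Q.RealD

/-! Joint classes of cycles on the `E_1`-term; the projector onto the primitive part `(1, 0)` of the
kernel part of the Laplacian. -/

noncomputable section

set_option linter.unusedSectionVars false

namespace Pool.Agent.H79Q

open Module Polynomial Pool.Agent.WeilH_h6 Pool.Agent.WeilH_h6.VarClass Pool.Agent.H62D
  Pool.Agent.H62A Pool.Agent.H79L Pool.Agent.H62X Pool.Agent.H79E Pool.Agent.H62S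
  Pool.Agent.H62S.Strata

universe u v w

variable {k : Type u} [Field k] {𝒱 : VarClass k} {I : Type} {K : I → Type v} [∀ l, Field (K l)]
  [∀ l, CharZero (K l)] {W : ∀ l, Weil.{u, v, w} 𝒱 (K l)} {X : Strata W}

variable (X) in
/-- the joint classes of cycles on the `E_1`-term -/
def JEC : Set (∀ l, Tot (W l) X.EY) :=
  {x | ∃ z : ∀ c : X.Idx, TCyc (X.EY c), ∀ l c, x l c = clT (W l) (z c)}

lemma jec_zero : (fun _ => 0) ∈ JEC X := by
  refine ⟨0, fun l c => ?_⟩
  have h1 := clT_smul (W l) (0 : ℚ) (0 : TCyc (X.EY c))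
  rw [zero_smul, Rat.cast_zero, zero_smul] at h1
  exact h1.symm

lemma jec_add {x y : ∀ l, Tot (W l) X.EY} (hx : x ∈ JEC X) (hy : y ∈ JEC X) :
    (fun l => x l + y l) ∈ JEC X := by
  obtain ⟨z, hz⟩ := hx
  obtain ⟨z', hz'⟩ := hy
  refine ⟨fun c => z c + z' c, fun l c => ?_⟩
  change x l c + y l c = _
  rw [hz, hz', clT_add]

lemma jec_smul (q : ℚ) {x : ∀ l, Tot (W l) X.EY} (hx : x ∈ JEC X) :
    (fun l => (q : K l) • x l) ∈ JEC X := by
  obtain ⟨z, hz⟩ := hx
  refine ⟨fun c => q • z c, fun l c => ?_⟩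
  change (q : K l) • x l c = _
  rw [hz, clT_smul]

lemma jec_MA (hW : Compatible W) (T : MA hW X.EY) {x : ∀ l, Tot (W l) X.EY} (hx : x ∈ JEC X) :
    (fun l => MA.val T l (x l)) ∈ JEC X := by
  classical
  obtain ⟨z, hz⟩ := hx
  have hx' : ∀ l, x l = fun c => clT (W l) (z c) := fun l => funext (hz l)
  have hU : Motivic W X.EY (fun l => MA.val T l) := T.2
  rw [motivic_iff] at hU
  have key : ∀ b, (fun l => ∑ a, blk (W l) (MA.val T l) a b (clT (W l) (z a))) ∈
      JC W (X.EY b) := by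
    intro b
    have h1 : (fun l => ∑ a, blk (W l) (MA.val T l) a b (clT (W l) (z a))) =
        ∑ a, fun l => blk (W l) (MA.val T l) a b (clT (W l) (z a)) := by
      funext l
      rw [Finset.sum_apply]
    rw [h1]
    exact AddSubgroup.sum_mem _ fun a _ => JHom_JC hW (hU a b) (clT_mem_JC W (z a))
  choose t ht using key
  refine ⟨t, fun l b => ?_⟩
  change MA.val T l (x l) b = _
  rw [← ht b l, hx' l, blk_apply]

lemma jec_pair (hW : Compatible W) {x y : ∀ l, Tot (W l) X.EY} (hx : x ∈ JEC X)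
    (hy : y ∈ JEC X) : RatFam fun l => X.eS l (x l) (y l) := by
  obtain ⟨z, hz⟩ := hx
  obtain ⟨z', hz'⟩ := hy
  have key : ∀ c : X.Idx, ∃ q : ℚ, ∀ l,
      (W l).deg ((clT (W l) (z c) : (W l).H (X.Y c.1)) *
        (clT (W l) (z' (X.dcopy c)) : (W l).H (X.Y c.1))) = q := fun c =>
    JC_tr W (JC_mul hW (clT_mem_JC W (X := X.Y c.1) (z c))
      (clT_mem_JC W (X := X.Y c.1) (z' (X.dcopy c))))
  choose q hq using key
  refine ⟨∑ c, q c, fun l => ?_⟩
  change X.eform l (x l) (y l) = _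
  rw [eform_sig, tform_apply]
  push_cast
  refine Finset.sum_congr rfl fun c _ => ?_
  rw [hz l c, sig_apply, hz' l (X.dcopy c)]
  exact hq c l

lemma mem_eclasses_iff {l : I} {x : Tot (W l) X.EY} :
    x ∈ X.eclasses l ↔ ∃ y ∈ JEC X, y l = x := by
  constructor
  · intro hx
    choose z hz using hx
    refine ⟨fun l c => clT (W l) (z c.2 c.1), ⟨fun c => z c.2 c.1, fun l c => rfl⟩, ?_⟩
    funext c
    obtain ⟨a, i, hi⟩ := c
    have h1 := hz i a
    rw [slice_of_le X l _ (Nat.le_of_lt_succ hi)] at h1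
    exact h1.symm
  · rintro ⟨y, ⟨z, hz⟩, rfl⟩
    intro c
    have h0 := jec_zero (X := X)
    obtain ⟨z0, hz0⟩ := h0
    refine ⟨fun a => if hc : c ≤ X.lev a then z ⟨a, ⟨c, Nat.lt_succ_of_le hc⟩⟩ else
      z0 ⟨a, ⟨0, Nat.succ_pos _⟩⟩, fun a => ?_⟩
    dsimp only
    by_cases hc : c ≤ X.lev a
    · rw [slice_of_le X l _ hc, dif_pos hc]
      exact hz l _
    · rw [slice_of_lt X l _ (by omega), dif_neg hc]
      exact hz0 l ⟨a, ⟨0, Nat.succ_pos _⟩⟩

section proj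

variable (hW : Compatible W) (hK : ∀ c n, KunnethMotivic W (X.EY c) n)

/-- polynomials in the Laplacian -/
def lapP (X : Strata W) (hW : Compatible W) (P : ℚ[X]) : MA hW X.EY :=
  aeval ((X.toLefschetz hW).lapA hW) P

/-- a polynomial in `N f` -/
def nfP (X : Strata W) (hW : Compatible W) : MA hW X.EY :=
  aeval ((X.toLefschetz hW).nA hW * (X.toLefschetz hW).fA hW) (puni 1 X.n)

/-- a polynomial in `L g` -/
def lgP (X : Strata W) (hW : Compatible W) : MA hW X.EY :=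
  aeval ((X.toLefschetz hW).lA hW * (X.toLefschetz hW).gA hW) (puni 0 X.n)

/-- the projector onto the primitive part `(1, 0)` -/
def qA (X : Strata W) (hW : Compatible W) (hK : ∀ c n, KunnethMotivic W (X.EY c) n) :
    MA hW X.EY :=
  nfP X hW * sA X hW (-((1 : ℕ) : ℤ)) * (lgP X hW * tA X hW hK (X.n - ((0 : ℕ) : ℤ)))

theorem val_qA (l : I) : MA.val (qA X hW hK) l =
    qpr (K := K l) (E := Tot (W l) X.EY) (X.eN l) (X.eNd l) (X.eL l) (X.eLam l) X.n (sP X l)
      (tP X l) 1 0 X.n := by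
  have h1 := aeval_val hW ((X.toLefschetz hW).nA hW * (X.toLefschetz hW).fA hW) (puni 1 X.n) l
  have h2 := aeval_val hW ((X.toLefschetz hW).lA hW * (X.toLefschetz hW).gA hW) (puni 0 X.n) l
  have h3 : MA.val (nfP X hW) l = _ := h1
  have h4 : MA.val (lgP X hW) l = _ := h2
  unfold qA
  rw [val_mul, val_mul, val_mul, h3, h4]
  rfl

lemma pos_low {l : I} {p : ℤ} (hp : p < -(X.n : ℤ)) {x : Tot (W l) X.EY}
    (hx : sP X l p x = x) : x = 0 := by
  rw [← hx]
  funext c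
  rw [Proj_posProj_apply, if_neg]
  · rfl
  · have h1 : X.epos c = 2 * (c.2 : ℤ) - X.lev c.1 := rfl
    have h2 := X.lev_le c.1
    omega

lemma deg_low {l : I} {w : ℤ} (hw : w < 0) {x : Tot (W l) X.EY}
    (hx : tP X l w x = x) : x = 0 := by
  have h1 : x ∈ degPart (W l) X.EY X.epos X.etw w := by
    rw [← hx]
    exact H62A.degProj_mem _ _ _ _ _ _
  funext c
  have h2 := h1 c (Set.mem_univ c)
  have h3 : w - X.epos c - 2 * X.etw c < 0 := by
    have h4 : X.epos c = 2 * (c.2 : ℤ) - X.lev c.1 := rfl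
    have h5 : X.etw c = X.lev c.1 - (c.2 : ℤ) := rfl
    have h6 : (c.2 : ℕ) ≤ X.lev c.1 := Nat.le_of_lt_succ c.2.2
    omega
  have h4 : gradZ (W l) (X.EY c) (w - X.epos c - 2 * X.etw c) = ⊥ := if_neg (not_le.2 h3)
  have h5 : x c ∈ gradZ (W l) (X.EY c) (w - X.epos c - 2 * X.etw c) := h2
  rw [h4] at h5
  exact (Submodule.mem_bot _).1 h5

theorem qA_spec (l : I) : (∀ x, MA.val (qA X hW hK) l x ∈ X.eprim l 1 0) ∧
    ∀ x ∈ X.eprim l 1 0, MA.val (qA X hW hK) l x = x := by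
  obtain ⟨D, hD⟩ := (X.toLefschetz hW).bi l
  rw [val_qA]
  refine qpr_spec hD 1 0 X.n (fun x hx => ?_) fun x hx => ?_
  · refine pos_low (l := l) ?_ (f_pow_at hD hx (X.n + 1))
    push_cast
    omega
  · refine deg_low (l := l) ?_ (g_pow_at hD hx (X.n + 1))
    have h1 : (X.toLefschetz hW).n = X.n := rfl
    push_cast
    omega

variable [DecidableEq X.J] {ε : ∀ l, TEnd (W l) X.Y} (hε : X.MotCompat ε)

/-- the projector onto `XAm` -/
def pA (hW : Compatible W) (hK : ∀ c n, KunnethMotivic W (X.EY c) n)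
    {ε : ∀ l, TEnd (W l) X.Y} (hε : X.MotCompat ε) (P : ℚ[X]) : MA hW X.EY :=
  lapP X hW P * (liftA hW hε * qA X hW hK)

variable (hεi : ∀ l x, X.lift l 0 (ε l) (X.lift l 0 (ε l) x) = X.lift l 0 (ε l) x)
  {P Q : ℚ[X]} (F : FitX X hW P Q)

omit [DecidableEq X.J] in
/-- the ring of all motivic endomorphisms -/
lemma com_empty {l : I} : ∀ φ ∈ (∅ : Set (Module.End (K l) (Tot (W l) X.Y))), Com X l φ :=
  fun _ h => h.elim

include hW hK hε hεi F in
theorem pA_spec (l : I) :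
    (∀ x, MA.val (pA hW hK hε P) l x ∈ XAm X l (ZE X hW P l) (X.lift l 0 (ε l))) ∧
      ∀ x ∈ XAm X l (ZE X hW P l) (X.lift l 0 (ε l)), MA.val (pA hW hK hε P) l x = x := by
  have hY := yring_sring (l := l) hW (com_empty (X := X))
  obtain ⟨D, hP⟩ := hY.pol hW
  have hZ := har_strata hY hW F
  have hE := ec_lift hW (motCompat_com hε l)
  obtain ⟨h1, h2⟩ := qA_spec hW hK l
  have hap : ∀ x, MA.val (pA hW hK hε P) l x =
      ZE X hW P l (X.lift l 0 (ε l) (MA.val (qA X hW hK) l x)) := fun x => rfl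
  refine ⟨fun x => ?_, fun x hx => ?_⟩
  · rw [hap]
    refine ⟨hZ.prim hP (hE.prim hP.bi (h1 x)), ?_, ?_⟩
    · exact LinearMap.congr_fun hZ.idem _
    · rw [lift_Z hW (motCompat_com hε l) F, hεi]
  · obtain ⟨k1, k2, k3⟩ := hx
    rw [hap, h2 x k1, k3, k2]

/-- the rings contain the lifts of motivic endomorphisms -/
lemma lift_mem {φ : ∀ l, TEnd (W l) X.Y} (hφ : Motivic W X.Y φ) (l : I)
    (hY : X.YRing l (X.sring l hW ∅)) :
    (X.lift l 0 (φ l) : Module.End (K l) (Tot (W l) X.EY)) ∈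
      X.bring l (X.sring l hW ∅) hY.pos := by
  refine X.lift_mem_bring l _ hY.pos ?_
  obtain ⟨φ', hφ', h1, h2⟩ := motivic_adj hW hφ
  exact (mem_sring hW).2 ⟨⟨φ, hφ, rfl⟩, fun _ h => h.elim, φ' l, ⟨h1 l, h2 l⟩,
    fun _ h => h.elim⟩

end proj

end Pool.Agent.H79Q
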