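import Pool.Agent.W_MP_a3c811_h79.Q.NumDef

/-! Traces on the kernel of a nilpotent endomorphism (one space). -/

noncomputable section

namespace Pool.Agent.H79Q

open Module Polynomial

universe v w

section NumA_aux

variable {K : Type v} [Field K]

theorem NumA_aeval {U V : Type*} [AddCommGroup U] [Module K U] [AddCommGroup V] [Module K V]
    (j : U →ₗ[K] V) (B : Module.End K U) (A : Module.End K V) (h : ∀ x, j (B x) = A (j x))
    (p : K[X]) (x : U) : j (aeval B p x) = aeval A p (j x) := by
  have hpow : ∀ (n : ℕ) (x : U), j ((B ^ n) x) = (A ^ n) (j x) := by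
    intro n
    induction n with
    | zero => intro x; rfl
    | succ n ih =>
      intro x
      rw [pow_succ, pow_succ, Module.End.mul_apply, Module.End.mul_apply, ih, h]
  induction p using Polynomial.induction_on' with
  | add p q hp hq =>
    rw [map_add, map_add, LinearMap.add_apply, LinearMap.add_apply, map_add, hp, hq]
  | monomial n a =>
    rw [aeval_monomial, aeval_monomial, Module.End.mul_apply, Module.End.mul_apply,
      Module.algebraMap_end_apply, Module.algebraMap_end_apply, map_smul, hpow]

theorem NumA_charpoly_mul [Infinite K] {V : Type*} [AddCommGroup V] [Module K V]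
    [FiniteDimensional K V] (W : Submodule K V) (A : Module.End K V)
    (he : ∀ x ∈ W, A x ∈ W) :
    A.charpoly = (A.restrict he).charpoly * LinearMap.charpoly (W.mapQ W A he) := by
  apply Polynomial.funext
  intro t
  rw [eval_mul, LinearMap.eval_charpoly, LinearMap.eval_charpoly, LinearMap.eval_charpoly]
  have h1 : W ≤ W.comap (algebraMap K (Module.End K V) t - A) := by
    intro x hx
    exact W.sub_mem (W.smul_mem t hx) (he x hx)
  rw [LinearMap.det_eq_det_mul_det W _ h1]
  congr 2
  apply LinearMap.ext
  intro x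
  obtain ⟨x, rfl⟩ := W.mkQ_surjective x
  rfl

theorem NumA_inj [Infinite K] {U V : Type*} [AddCommGroup U] [Module K U] [AddCommGroup V]
    [Module K V] [FiniteDimensional K V] [FiniteDimensional K U]
    (j : U →ₗ[K] V) (hj : Function.Injective j) (B : Module.End K U) (A : Module.End K V)
    (h : ∀ x, j (B x) = A (j x)) (he : ∀ x ∈ LinearMap.range j, A x ∈ LinearMap.range j) :
    A.charpoly = B.charpoly * LinearMap.charpoly
      ((LinearMap.range j).mapQ (LinearMap.range j) A he) := by
  rw [NumA_charpoly_mul (LinearMap.range j) A he]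
  congr 1
  rw [← LinearEquiv.charpoly_conj (LinearEquiv.ofInjective j hj) B]
  congr 1
  apply LinearMap.ext
  rintro ⟨_, x, rfl⟩
  apply Subtype.ext
  rw [LinearEquiv.conj_apply_apply]
  have h1 : (LinearEquiv.ofInjective j hj).symm ⟨j x, x, rfl⟩ = x := by
    rw [LinearEquiv.symm_apply_eq]
    rfl
  rw [h1, LinearEquiv.ofInjective_apply, h]
  rfl

theorem NumA_surj [Infinite K] {U V : Type*} [AddCommGroup U] [Module K U] [AddCommGroup V]
    [Module K V] [FiniteDimensional K V] [FiniteDimensional K U]
    (T : V →ₗ[K] U) (hT : Function.Surjective T) (A : Module.End K V) (A' : Module.End K U)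
    (h : ∀ x, T (A x) = A' (T x)) (W : Submodule K V) (hW : W = LinearMap.ker T)
    (he : ∀ x ∈ W, A x ∈ W) :
    A.charpoly = (A.restrict he).charpoly * A'.charpoly := by
  subst hW
  rw [NumA_charpoly_mul (LinearMap.ker T) A he]
  congr 1
  rw [← LinearEquiv.charpoly_conj (T.quotKerEquivOfSurjective hT)]
  congr 1
  apply LinearMap.ext
  intro y
  obtain ⟨x, rfl⟩ := hT y
  rw [LinearEquiv.conj_apply_apply]
  have h1 : (T.quotKerEquivOfSurjective hT).symm (T x) = (LinearMap.ker T).mkQ x := by
    rw [LinearEquiv.symm_apply_eq]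
    rfl
  rw [h1, ← h]
  rfl

theorem NumA_quot {V : Type*} [AddCommGroup V] [Module K V]
    [FiniteDimensional K V] (W : Submodule K V) (A : Module.End K V)
    (he : ∀ x ∈ W, A x ∈ W) (x : V) :
    aeval A (LinearMap.charpoly (W.mapQ W A he)) x ∈ W := by
  rw [← Submodule.Quotient.mk_eq_zero]
  have h1 := NumA_aeval W.mkQ A (W.mapQ W A he) (fun x => rfl)
    (LinearMap.charpoly (W.mapQ W A he)) x
  rw [LinearMap.aeval_self_charpoly, LinearMap.zero_apply] at h1
  exact h1

theorem NumA_add {V : Type*} [AddCommGroup V] [Module K V] {T T' : Module.End K V}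
    {U : Submodule K V} (h : ∀ x ∈ U, T x ∈ U) (h' : ∀ x ∈ U, T' x ∈ U) :
    trOn (T + T') U = trOn T U + trOn T' U := by
  have h1 : ∀ x ∈ U, (T + T') x ∈ U := fun x hx => U.add_mem (h x hx) (h' x hx)
  rw [trOn_def h, trOn_def h', trOn_def h1, ← map_add]
  rfl

theorem NumA_zero {V : Type*} [AddCommGroup V] [Module K V] (U : Submodule K V) :
    trOn (0 : Module.End K V) U = 0 := by
  have h1 : ∀ x ∈ U, (0 : Module.End K V) x ∈ U := fun x _ => U.zero_mem
  rw [trOn_def h1]
  have h2 : (0 : Module.End K V).restrict h1 = 0 := LinearMap.ext fun x => rfl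
  rw [h2, map_zero]

/-- The statement of `numA`. -/
def NumA_P {V : Type w} [AddCommGroup V] [Module K V] [FiniteDimensional K V]
    (φ u : Module.End K V) (h : φ * u = u * φ) : Prop :=
  ∃ D : K[X], derivative φ.charpoly * kerCP φ u h = φ.charpoly * D ∧
      (∀ q : K[X], Irreducible q → q ∣ kerCP φ u h →
        ∃ t : ℕ, 0 < t ∧ q ∣ D - (t : K[X]) * derivative (kerCP φ u h)) ∧
      ∀ g : Module.End K V, g * u = u * g → g * φ = φ * g → ∀ s p : K[X],
        kerCP φ u h ∣ p * derivative (kerCP φ u h) - s * D →
          LinearMap.trace K V (g * aeval φ s) = trOn (g * aeval φ p) (LinearMap.ker u)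

theorem NumA_one {V : Type*} [AddCommGroup V] [Module K V] [FiniteDimensional K V]
    [Subsingleton V] (A : Module.End K V) : A.charpoly = 1 := by
  refine (LinearMap.charpoly_monic A).natDegree_eq_zero.mp ?_
  rw [LinearMap.charpoly_natDegree]
  exact Module.finrank_zero_of_subsingleton

theorem NumA_base {V : Type w} [AddCommGroup V] [Module K V] [FiniteDimensional K V]
    [Subsingleton V] (φ u : Module.End K V) (h : φ * u = u * φ) : NumA_P φ u h := by
  have h1 : φ.charpoly = 1 := NumA_one φ
  have h2 : kerCP φ u h = 1 := NumA_one _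
  refine ⟨0, ?_, ?_, ?_⟩
  · rw [h1, h2]
    simp
  · intro q hq hd
    rw [h2] at hd
    exact absurd (isUnit_of_dvd_one hd) hq.not_isUnit
  · intro g _ _ s p _
    have h3 : LinearMap.ker u = ⊥ := Subsingleton.elim _ _
    have h4 : g * aeval φ s = 0 := LinearMap.ext fun x => Subsingleton.elim _ _
    rw [h3, trOn_bot, h4, map_zero]

theorem NumA_step [Infinite K] {V : Type w} [AddCommGroup V] [Module K V]
    [FiniteDimensional K V]
    (φ u : Module.End K V) (h : φ * u = u * φ) (hs : (kerCP φ u h).Separable)
    (hφr : ∀ x ∈ LinearMap.range u, φ x ∈ LinearMap.range u)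
    (hur : ∀ x ∈ LinearMap.range u, u x ∈ LinearMap.range u)
    (h1 : φ.restrict hφr * u.restrict hur = u.restrict hur * φ.restrict hφr)
    (ih : (kerCP (φ.restrict hφr) (u.restrict hur) h1).Separable →
      NumA_P (φ.restrict hφr) (u.restrict hur) h1) : NumA_P φ u h := by
  set φ1 := φ.restrict hφr with hφ1
  set u1 := u.restrict hur with hu1
  set R := kerCP φ u h with hR
  set R1 := kerCP φ1 u1 h1 with hR1
  -- the inclusion of the kernels
  have hjm : ∀ x : LinearMap.ker u1, ((LinearMap.range u).subtype ∘ₗ
      (LinearMap.ker u1).subtype) x ∈ LinearMap.ker u := by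
    intro x
    have h2 : u1 x.1 = 0 := x.2
    exact congrArg Subtype.val h2
  set j : LinearMap.ker u1 →ₗ[K] LinearMap.ker u := ((LinearMap.range u).subtype ∘ₗ
      (LinearMap.ker u1).subtype).codRestrict (LinearMap.ker u) hjm with hj
  have hjv : ∀ x : LinearMap.ker u1, ((j x : LinearMap.ker u) : V) = x.1.1 := fun x => rfl
  have hji : Function.Injective j := by
    intro x y hxy
    refine Subtype.ext (Subtype.ext ?_)
    rw [← hjv, ← hjv, hxy]
  have hjc : ∀ x, j (φ1.restrict (ker_stab h1) x) = φ.restrict (ker_stab h) (j x) :=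
    fun x => Subtype.ext rfl
  have hje : ∀ x ∈ LinearMap.range j, φ.restrict (ker_stab h) x ∈ LinearMap.range j := by
    rintro _ ⟨x, rfl⟩
    exact ⟨_, hjc x⟩
  have hjr : ∀ x : LinearMap.ker u, x ∈ LinearMap.range j →
      (x : V) ∈ LinearMap.ker u ⊓ LinearMap.range u := by
    rintro _ ⟨x, rfl⟩
    exact ⟨(j x).2, x.1.2⟩
  set C : K[X] := LinearMap.charpoly
    ((LinearMap.range j).mapQ (LinearMap.range j) (φ.restrict (ker_stab h)) hje) with hC
  have F4 : R = R1 * C := NumA_inj j hji _ _ hjc hje
  have hsub : ∀ (p : K[X]) (x : LinearMap.ker u),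
      ((aeval (φ.restrict (ker_stab h)) p x : LinearMap.ker u) : V) = aeval φ p (x : V) :=
    fun p x => NumA_aeval (LinearMap.ker u).subtype _ φ (fun _ => rfl) p x
  have hsubr : ∀ (p : K[X]) (x : LinearMap.range u),
      ((aeval φ1 p x : LinearMap.range u) : V) = aeval φ p (x : V) :=
    fun p x => NumA_aeval (LinearMap.range u).subtype _ φ (fun _ => rfl) p x
  have F1 : ∀ x ∈ LinearMap.ker u, aeval φ R x = 0 := by
    intro x hx
    rw [← hsub R ⟨x, hx⟩, hR, kerCP, LinearMap.aeval_self_charpoly]
    rfl
  have F3 : ∀ x ∈ LinearMap.ker u, aeval φ C x ∈ LinearMap.ker u ⊓ LinearMap.range u := by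
    intro x hx
    rw [← hsub C ⟨x, hx⟩]
    exact hjr _ (NumA_quot (LinearMap.range j) _ hje ⟨x, hx⟩)
  have F2 : ∀ x ∈ LinearMap.ker u ⊓ LinearMap.range u, aeval φ R1 x = 0 := by
    rintro x ⟨hx, hx'⟩
    have hk : (⟨x, hx'⟩ : LinearMap.range u) ∈ LinearMap.ker u1 := by
      rw [LinearMap.mem_ker]
      exact Subtype.ext hx
    have h2 := NumA_aeval ((LinearMap.range u).subtype ∘ₗ (LinearMap.ker u1).subtype)
      (φ1.restrict (ker_stab h1)) φ (fun _ => rfl) R1 ⟨⟨x, hx'⟩, hk⟩
    rw [hR1, kerCP, LinearMap.aeval_self_charpoly, LinearMap.zero_apply, map_zero] at h2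
    exact h2.symm
  have F5 : φ.charpoly = R * φ1.charpoly :=
    NumA_surj u.rangeRestrict u.surjective_rangeRestrict φ φ1
      (fun x => Subtype.ext (LinearMap.congr_fun h x).symm) (LinearMap.ker u)
      u.ker_rangeRestrict.symm (ker_stab h)
  have hsep : (R1 * C).Separable := F4 ▸ hs
  have hs1 : R1.Separable := hsep.of_mul_left
  have hRC : IsCoprime R1 C := hsep.isCoprime
  obtain ⟨D1, hD1, hq1, htr1⟩ := ih hs1
  have hdR : derivative R = derivative R1 * C + R1 * derivative C := by
    rw [F4, derivative_mul]
  have haev : ∀ (U : Submodule K V), (∀ x ∈ U, φ x ∈ U) → ∀ (p : K[X]), ∀ x ∈ U,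
      aeval φ p x ∈ U := by
    intro U hU p x hx
    have h2 := NumA_aeval U.subtype (φ.restrict hU) φ (fun _ => rfl) p ⟨x, hx⟩
    have h3 : aeval φ p x = ((aeval (φ.restrict hU) p ⟨x, hx⟩ : U) : V) := h2.symm
    rw [h3]
    exact Subtype.mem _
  refine ⟨derivative R + C * D1, ?_, ?_, ?_⟩
  · rw [F5, derivative_mul]
    have h2 : R = R1 * C := F4
    linear_combination (R * C) * hD1 + (R * derivative φ1.charpoly) * h2
  · intro q hq hd
    have hd' : q ∣ R1 * C := F4 ▸ (show q ∣ R from hd)
    rcases hq.prime.dvd_or_dvd hd' with h2 | h2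
    · obtain ⟨t, ht, ht'⟩ := hq1 q hq h2
      refine ⟨1 + t, by omega, ?_⟩
      have h3 : derivative R + C * D1 - ((1 + t : ℕ) : K[X]) * derivative R =
          C * (D1 - (t : K[X]) * derivative R1) - (t : K[X]) * derivative C * R1 := by
        rw [hdR]
        push_cast
        ring
      rw [h3]
      exact dvd_sub (ht'.mul_left _) (h2.mul_left _)
    · refine ⟨1, one_pos, ?_⟩
      have h3 : derivative R + C * D1 - ((1 : ℕ) : K[X]) * derivative R = C * D1 := by
        push_cast
        ring
      rw [h3]
      exact h2.mul_right _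
  · intro g hgu hgφ s p hp
    replace hp : R ∣ p * derivative R - s * (derivative R + C * D1) := hp
    obtain ⟨a, b, hab⟩ := hs1
    obtain ⟨a', b', hab'⟩ := hRC
    -- the polynomials
    obtain ⟨p1, hp1⟩ : ∃ p1 : K[X], R1 ∣ p1 * derivative R1 - s * D1 :=
      ⟨b * (s * D1), -(a * (s * D1)), by linear_combination (s * D1) * hab⟩
    obtain ⟨p', c, hp', hc⟩ : ∃ p' c : K[X], p' = C * c ∧ p' = p1 + (-(a' * p1)) * R1 :=
      ⟨C * (b' * p1), b' * p1, rfl, by linear_combination p1 * hab'⟩
    -- `g` preserves the kernel and the range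
    have hgk : ∀ x ∈ LinearMap.ker u, g x ∈ LinearMap.ker u := ker_stab hgu
    have hgr : ∀ x ∈ LinearMap.range u, g x ∈ LinearMap.range u := by
      rintro _ ⟨x, rfl⟩
      exact ⟨g x, (LinearMap.congr_fun hgu x).symm⟩
    have hgkr : ∀ x ∈ LinearMap.ker u ⊓ LinearMap.range u,
        g x ∈ LinearMap.ker u ⊓ LinearMap.range u := fun x hx => ⟨hgk x hx.1, hgr x hx.2⟩
    have hTk : ∀ r : K[X], ∀ x ∈ LinearMap.ker u, (g * aeval φ r) x ∈ LinearMap.ker u :=
      fun r x hx => hgk _ (haev _ (ker_stab h) r x hx)
    have hTr : ∀ r : K[X], ∀ x ∈ LinearMap.range u, (g * aeval φ r) x ∈ LinearMap.range u :=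
      fun r x hx => hgr _ (haev _ hφr r x hx)
    -- the restriction of `g`
    have hg1u : g.restrict hgr * u1 = u1 * g.restrict hgr :=
      LinearMap.ext fun x => Subtype.ext (LinearMap.congr_fun hgu x.1)
    have hg1φ : g.restrict hgr * φ1 = φ1 * g.restrict hgr :=
      LinearMap.ext fun x => Subtype.ext (LinearMap.congr_fun hgφ x.1)
    have key1 := htr1 (g.restrict hgr) hg1u hg1φ s p1 hp1
    have key2 : trOn (g * aeval φ s) (LinearMap.range u) =
        LinearMap.trace K (LinearMap.range u) (g.restrict hgr * aeval φ1 s) := by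
      rw [trOn_def (hTr s)]
      congr 1
      refine LinearMap.ext fun x => Subtype.ext ?_
      change g (aeval φ s x.1) = g ((aeval φ1 s x : LinearMap.range u) : V)
      rw [hsubr]
    have key3 : trOn (g.restrict hgr * aeval φ1 p1) (LinearMap.ker u1) =
        trOn (g * aeval φ p1) (LinearMap.ker u ⊓ LinearMap.range u) := by
      have hst : ∀ x ∈ LinearMap.ker u1, (g.restrict hgr * aeval φ1 p1) x ∈
          LinearMap.ker u1 := by
        intro x hx
        have h3 : aeval φ1 p1 x ∈ LinearMap.ker u1 := by
          have h4 := NumA_aeval (LinearMap.ker u1).subtype (φ1.restrict (ker_stab h1)) φ1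
            (fun _ => rfl) p1 ⟨x, hx⟩
          have h5 : aeval φ1 p1 x =
            ((aeval (φ1.restrict (ker_stab h1)) p1 ⟨x, hx⟩ : LinearMap.ker u1) :
              LinearMap.range u) := h4.symm
          rw [h5]
          exact Subtype.mem _
        exact ker_stab hg1u _ h3
      symm
      refine trOn_eq_of_iso (LinearMap.range u).subtype hst ?_ ?_ ?_ ?_
      · intro x _
        change g ((aeval φ1 p1 x : LinearMap.range u) : V) = g (aeval φ p1 x.1)
        rw [hsubr]
      · intro x _ hx
        exact Subtype.ext hx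
      · intro x hx
        exact ⟨congrArg Subtype.val hx, x.2⟩
      · rintro y ⟨hy, hy'⟩
        exact ⟨⟨y, hy'⟩, Subtype.ext hy, rfl⟩
    have key4 : trOn (g * aeval φ p') (LinearMap.ker u) =
        trOn (g * aeval φ p1) (LinearMap.ker u ⊓ LinearMap.range u) := by
      have h3 := trOn_map ((LinearMap.ker u ⊓ LinearMap.range u).mkQ)
        (U := LinearMap.ker u) (T := g * aeval φ p') (T' := 0) (hTk p') (by
          intro x hx
          rw [LinearMap.zero_apply, Submodule.mkQ_apply, Submodule.Quotient.mk_eq_zero]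
          refine hgkr _ ?_
          rw [hp', map_mul, Module.End.mul_apply]
          exact F3 _ (haev _ (ker_stab h) _ x hx))
      rw [h3, NumA_zero, add_zero, Submodule.ker_mkQ, ← inf_assoc, inf_idem]
      refine trOn_congr fun x hx => ?_
      change g (aeval φ p' x) = g (aeval φ p1 x)
      rw [hc, map_add, map_mul, LinearMap.add_apply, Module.End.mul_apply, F2 x hx, map_zero,
        add_zero]
    have key5 := trace_ker_range u (T := g * aeval φ s) (T' := g * aeval φ s) (by
      intro x
      change u (g (aeval φ s x)) = g (aeval φ s (u x))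
      have h3 : u (g (aeval φ s x)) = g (u (aeval φ s x)) := (LinearMap.congr_fun hgu _).symm
      rw [h3]
      congr 1
      exact NumA_aeval u φ φ (fun x => (LinearMap.congr_fun h x).symm) s x)
    have hdvd : R ∣ p - s - p' := by
      refine IsCoprime.dvd_of_dvd_mul_right (show IsCoprime R (derivative R) from hs) ?_
      obtain ⟨e1, he1⟩ := hp
      obtain ⟨e2, he2⟩ := hp1
      have h3 : (p - s - p') * derivative R = R * (e1 - c * derivative C - e2 +
          a' * p1 * derivative R1) := by
        have h4 : (p - s - p') * derivative R =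
            (p * derivative R - s * (derivative R + C * D1)) +
            (s * (C * D1) - p' * derivative R) := by ring
        rw [h4, he1, hdR, F4]
        have h6 : p' * (derivative R1 * C + R1 * derivative C) =
            (p1 + (-(a' * p1)) * R1) * (derivative R1 * C) +
            (C * c) * (R1 * derivative C) := by
          rw [← hc, ← hp']
          ring
        rw [h6]
        linear_combination (-C) * he2
      rw [h3]
      exact dvd_mul_right _ _
    rw [key5, key2, key1, key3, ← key4, ← NumA_add (hTk s) (hTk p')]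
    refine trOn_congr fun x hx => ?_
    obtain ⟨e3, he3⟩ := hdvd
    have h3 : p = (s + p') + e3 * R := by linear_combination he3
    change g (aeval φ s x) + g (aeval φ p' x) = g (aeval φ p x)
    rw [h3, map_add, map_mul, LinearMap.add_apply, Module.End.mul_apply, F1 x hx, map_zero,
      add_zero, map_add, LinearMap.add_apply, map_add]

theorem NumA_main [CharZero K] (n : ℕ) : ∀ {V : Type w} [AddCommGroup V] [Module K V]
    [FiniteDimensional K V] (φ u : Module.End K V) (h : φ * u = u * φ), IsNilpotent u →
    (kerCP φ u h).Separable → finrank K V = n → NumA_P φ u h := by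
  induction n using Nat.strong_induction_on with
  | _ n ih =>
    intro V _ _ _ φ u h hu hs hn
    rcases subsingleton_or_nontrivial V with hV | hV
    · exact NumA_base φ u h
    · have hφr : ∀ x ∈ LinearMap.range u, φ x ∈ LinearMap.range u := by
        rintro _ ⟨x, rfl⟩
        exact ⟨φ x, (LinearMap.congr_fun h x).symm⟩
      have hur : ∀ x ∈ LinearMap.range u, u x ∈ LinearMap.range u := fun x _ => ⟨x, rfl⟩
      have h1 : φ.restrict hφr * u.restrict hur = u.restrict hur * φ.restrict hφr :=
        LinearMap.ext fun x => Subtype.ext (LinearMap.congr_fun h x.1)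
      have hun : IsNilpotent (u.restrict hur) := by
        obtain ⟨k, hk⟩ := hu
        refine ⟨k, LinearMap.ext fun x => Subtype.ext ?_⟩
        have h2 := NumA_aeval (LinearMap.range u).subtype (u.restrict hur) u (fun _ => rfl)
          (X ^ k) x
        rw [map_pow, map_pow, aeval_X, aeval_X, hk, LinearMap.zero_apply] at h2
        exact h2
      have hlt : finrank K (LinearMap.range u) < n := by
        rw [← hn, ← LinearMap.finrank_range_add_finrank_ker u]
        have hk : LinearMap.ker u ≠ ⊥ := by
          intro hk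
          obtain ⟨k, hk'⟩ := hu
          have hinj : Function.Injective u := LinearMap.ker_eq_bot.mp hk
          have h2 : Function.Injective (u ^ k) := by
            rw [Module.End.coe_pow]
            exact hinj.iterate k
          obtain ⟨x, hx⟩ := exists_ne (0 : V)
          apply hx
          apply h2
          rw [hk', LinearMap.zero_apply, LinearMap.zero_apply]
        have h3 : 0 < finrank K (LinearMap.ker u) := by
          rw [Module.finrank_pos_iff]
          exact (Submodule.nontrivial_iff_ne_bot).mpr hk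
        omega
      exact NumA_step φ u h hs hφr hur h1 fun hs1 => ih _ hlt _ _ h1 hun hs1 rfl

end NumA_aux

/-- Let `u` be nilpotent, commuting with `φ`, let `T` be the characteristic polynomial of `φ` and
`R = kerCP φ u h` its characteristic polynomial on `ker u`, and suppose that `R` is separable.  Then
there is `D` with `T' R = T D`, for every irreducible `q` dividing `R` there is `t > 0` with
`D = t R'` modulo `q`, and for every `g` commuting with `φ` and `u` and all polynomials `s`, `p` with
`p R' = s D` modulo `R` the trace of `g s(φ)` is the trace of `g p(φ)` on `ker u`.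

Proof. Induction on `finrank V` (state it for all `V : Type w`, all `φ`, `u`).  If `V = 0` then
`T = R = 1`, `D = 0` works.  Otherwise `u` is not injective (nilpotent), so `V1 = range u` has
smaller dimension; `φ`, `u`, `g` restrict to `V1` (as a type); let `T1`, `R1`, `D1` be the
polynomials for `V1`.  `ker (u | V1)` is isomorphic to `ker u ⊓ range u`, a `φ`-stable subspace of
`ker u`, so `R = R1 C` (`charpoly_mul`-type statement: the characteristic polynomial is the product
of the ones on a stable subspace and on the quotient; see `Pool.Agent.B4801b` `charpoly_mul`, in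
`Pool/Agent/W_MP_b4801b_h67`, used in `W_MP_a3c811_h79/MF/SimE.lean`), in particular `R1` is
separable and coprime to `C`.  And `T = R T1`, since `V / ker u` is isomorphic to `range u` by `u`.
Put `D = R' + C D1`.  Then
`T' R = (R' T1 + R T1') R = T R' + R C (T1' R1) = T R' + R C T1 D1 = T (R' + C D1)`.
Let `q` be irreducible, `q ∣ R = R1 C`.  If `q ∣ C`: `D - R' = C D1` is divisible by `q`, `t = 1`.
If `q ∣ R1`: take `t1` for `q` by induction; `D - (1 + t1) R' = C D1 - t1 R' =
C (D1 - t1 R1') - t1 C' R1` (as `R' = C' R1 + C R1'`) is divisible by `q`.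
Traces: let `R ∣ p R' - s D`.  As `R1` and `R1'` are coprime there is `p1` with
`R1 ∣ p1 R1' - s D1`; by induction `trace (g s(φ) | V1) = trOn (g p1(φ)) (ker u ⊓ range u)` (transport
along `V1 → V`, `trOn_map_inj`).  As `C` and `R1` are coprime there is `c` with `R1 ∣ C c - p1`; put
`p' = C c`.  Then `trOn (g p'(φ)) (ker u) = trOn (g p1(φ)) (ker u ⊓ range u)`: on the quotient
`ker u / (ker u ⊓ range u)` the characteristic polynomial of `φ` is `C`, so `p'(φ) = 0` there
(Cayley-Hamilton) (use `trOn_map` with `mkQ`), and on `ker u ⊓ range u` we have `R1(φ) = 0` and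
`p' = p1` modulo `R1`.  By `trace_ker_range` (with `a = u`, `T = T' = g s(φ)`):
`trace (g s(φ)) = trOn (g s(φ)) (ker u) + trOn (g s(φ)) (range u) = trOn (g (s + p')(φ)) (ker u)`.
Finally `R ∣ p - s - p'`, because `R` and `R'` are coprime and modulo `R = C R1`:
`(p - s - p') R' = s D - s R' - p' R' = s C D1 - C c (C' R1 + C R1') = s C D1 - C (C c) R1' =
s C D1 - C p1 R1' = 0`; so `(p - s - p')(φ) = 0` on `ker u` by Cayley-Hamilton. -/
theorem numA {K : Type v} [Field K] [CharZero K] {V : Type w} [AddCommGroup V] [Module K V]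
    [FiniteDimensional K V] (φ u : Module.End K V) (h : φ * u = u * φ) (hu : IsNilpotent u)
    (hs : (kerCP φ u h).Separable) :
    ∃ D : K[X], derivative φ.charpoly * kerCP φ u h = φ.charpoly * D ∧
      (∀ q : K[X], Irreducible q → q ∣ kerCP φ u h →
        ∃ t : ℕ, 0 < t ∧ q ∣ D - (t : K[X]) * derivative (kerCP φ u h)) ∧
      ∀ g : Module.End K V, g * u = u * g → g * φ = φ * g → ∀ s p : K[X],
        kerCP φ u h ∣ p * derivative (kerCP φ u h) - s * D →
          LinearMap.trace K V (g * aeval φ s) = trOn (g * aeval φ p) (LinearMap.ker u) := by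
  exact NumA_main _ φ u h hu hs rfl

end Pool.Agent.H79Q
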