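import Pool.Agent.W_MP_a3c811_h79.Q.CoreA

/-! Consequences of the hard Lefschetz theorem for the core: the differential is described by the
nilpotent operator `f d g d` on the primitive part `(1, 0)`. -/

noncomputable section

set_option linter.unusedSectionVars false

namespace Pool.Agent.H79Q

open Module Polynomial Pool.Agent.H79L Pool.Agent.H62X

universe v w

variable {K : Type v} [Field K] [CharZero K] {E : Type w} [AddCommGroup E] [Module K E]
  [FiniteDimensional K E]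
  {N f L g d : Module.End K E} {n : ℤ} {s t : ℤ → Module.End K E}
  {P D : Finset ℤ} {S : E →ₗ[K] E →ₗ[K] K} {B : Subring (Module.End K E)}
  {Z Z' e : Module.End K E}

/-- the operator `f d g d` -/
def uop (f g d : Module.End K E) : Module.End K E := f * (d * (g * d))

lemma uop_apply (x : E) : uop f g d x = f (d (g (d x))) := rfl

/-- the vectors of the primitive part `(1, 0)` fixed by `Z` and by `e` -/
def Am (f g : Module.End K E) (n : ℤ) (s t : ℤ → Module.End K E) (Z e : Module.End K E) :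
    Submodule K E where
  carrier := {x | x ∈ prim f g n s t 1 0 ∧ Z x = x ∧ e x = x}
  zero_mem' := ⟨Submodule.zero_mem _, map_zero _, map_zero _⟩
  add_mem' := by
    rintro x y ⟨h1, h2, h3⟩ ⟨h4, h5, h6⟩
    exact ⟨Submodule.add_mem _ h1 h4, by rw [map_add, h2, h5], by rw [map_add, h3, h6]⟩
  smul_mem' := by
    rintro c x ⟨h1, h2, h3⟩
    exact ⟨Submodule.smul_mem _ _ h1, by rw [map_smul, h2], by rw [map_smul, h3]⟩

lemma mem_Am {x : E} : x ∈ Am f g n s t Z e ↔ x ∈ prim f g n s t 1 0 ∧ Z x = x ∧ e x = x :=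
  Iff.rfl

/-- `e` commutes with all operators. -/
structure EC (N f L g d : Module.End K E) (s t : ℤ → Module.End K E) (e : Module.End K E) :
    Prop where
  N : e * N = N * e
  f : e * f = f * e
  L : e * L = L * e
  g : e * g = g * e
  d : e * d = d * e
  s : ∀ p, e * s p = s p * e
  t : ∀ w, e * t w = t w * e

section ec

variable (he : EC N f L g d s t e)
include he

lemma EC.aN (x : E) : e (N x) = N (e x) := LinearMap.congr_fun he.N x
lemma EC.af (x : E) : e (f x) = f (e x) := LinearMap.congr_fun he.f x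
lemma EC.aL (x : E) : e (L x) = L (e x) := LinearMap.congr_fun he.L x
lemma EC.ag (x : E) : e (g x) = g (e x) := LinearMap.congr_fun he.g x
lemma EC.ad (x : E) : e (d x) = d (e x) := LinearMap.congr_fun he.d x
lemma EC.as (p : ℤ) (x : E) : e (s p x) = s p (e x) := LinearMap.congr_fun (he.s p) x
lemma EC.at' (w : ℤ) (x : E) : e (t w x) = t w (e x) := LinearMap.congr_fun (he.t w) x

lemma EC.uop (x : E) : e (H79Q.uop f g d x) = H79Q.uop f g d (e x) := by
  rw [uop_apply, uop_apply, he.af, he.ad, he.ag, he.ad]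

lemma EC.prim (hb : Bi N f L g d n s t P D) {i j : ℕ} {x : E} (hx : x ∈ prim f g n s t i j) :
    e x ∈ H79L.prim f g n s t i j := prim_comm hb he.f he.g he.s he.t hx

lemma EC.aat {p w : ℤ} {x : E} (hx : At s t n p w x) : At s t n p w (e x) :=
  hx.of_comm0 he.s he.t

end ec

section core

variable (h : Pol N f L g d n s t P D S B) (hZ : Har N f L g d s t S B Z)
  (hc : CoreP N f L g d n s t S B Z Z')
include h hZ hc

omit hZ in
lemma CoreP.at' {p w : ℤ} {x : E} (hx : x ∈ Hs s t n Z p w) : Z' x ∈ Hs s t n Z' p w :=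
  Hs.z_at h hc.har hx.1

omit h hZ in
lemma CoreP.hs_le {p w : ℤ} {x : E} (hx : x ∈ Hs s t n Z' p w) : x ∈ Hs s t n Z p w := by
  refine ⟨hx.1, ?_⟩
  have h1 := hc.le x
  rwa [hx.2] at h1

omit h hZ in
lemma CoreP.zero {p w : ℤ} {x : E} (hx : x ∈ Hs s t n Z' p w)
    (hn : ¬((w = 0 ∧ (p = 1 ∨ p = -1)) ∨ (p = 0 ∧ (w = 1 ∨ w = -1)))) : x = 0 := by
  by_contra hx0
  exact hn (hc.supp p w x hx hx0)

omit h hZ in
lemma CoreP.dd {x : E} (hx : Z x = x) : d x = d (Z' x) := by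
  have := hc.dz x
  rwa [hx] at this

/-- the differential vanishes outside of the two positions -/
theorem CoreP.d_zero {p w : ℤ} {x : E} (hx : x ∈ Hs s t n Z p w) (h1 : ¬(p = -1 ∧ w = 0))
    (h2 : ¬(p = 0 ∧ w = -1)) : d x = 0 := by
  rw [hc.dd hx.2]
  have hx' := hc.at' h hx
  by_cases h0 : (w = 0 ∧ (p = 1 ∨ p = -1)) ∨ (p = 0 ∧ (w = 1 ∨ w = -1))
  · have h3 : (p = 1 ∧ w = 0) ∨ (p = 0 ∧ w = 1) := by omega
    refine hc.zero (Hs.hd h hc.har hx') ?_
    omega
  · rw [hc.zero hx' h0, map_zero]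

omit hZ in
/-- the core in position `-1` -/
lemma CoreP.prim1 {x : E} (hx : x ∈ Hs s t n Z' (-1) 0) : x ∈ prim f g n s t 1 0 := by
  have h1 : x ∈ Hs s t n Z' (-((1 : ℕ) : ℤ)) (-((0 : ℕ) : ℤ)) := by simpa using hx
  refine prim_of h.bi h1.1 (hc.zero (Hs.hf h hc.har hx) (by omega))
    (hc.zero (Hs.hg h hc.har hx) (by omega))

omit hZ in
/-- the core in position `-1` is the part `(1, 0)` of the image of `Z` -/
lemma CoreP.am1 {x : E} (hx : x ∈ Hs s t n Z (-1) 0) : Z' x ∈ Am f g n s t Z 1 ∧ d x = d (Z' x) :=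
  ⟨⟨hc.prim1 h (hc.at' h hx), hc.le x, rfl⟩, hc.dd hx.2⟩

omit hZ in
lemma CoreP.am_at {a : E} (ha : a ∈ Am f g n s t Z e) : a ∈ Hs s t n Z' (-1) 0 ∧
    a ∈ Hs s t n Z (-1) 0 := by
  obtain ⟨h1, h2, -⟩ := ha
  have h3 := prim_at h.bi h1
  have h4 : At s t n (-1) 0 a := by simpa using h3
  exact ⟨⟨h4, hc.fix a h1 h2⟩, h4, h2⟩

omit hZ in
/-- `N f d = d` and `L g d = d` on the core -/
lemma CoreP.lgd {a : E} (ha : a ∈ Hs s t n Z' (-1) 0) : L (g (d a)) = d a := by
  have hd : d a ∈ Hs s t n Z' 0 1 := by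
    have := Hs.hd h hc.har ha
    rwa [show (-1 : ℤ) + 1 = 0 by norm_num, show (0 : ℤ) + 1 = 1 by norm_num] at this
  have h1 := hd.1.brL h.bi
  have h2 : L (d a) = 0 := hc.zero (Hs.hL h hc.har hd) (by omega)
  rw [h2, map_zero, zero_add, Int.cast_one, one_smul] at h1
  exact h1

omit hZ in
lemma CoreP.nfd {b : E} (hb : b ∈ Hs s t n Z' 0 (-1)) : N (f (d b)) = d b := by
  have hd : d b ∈ Hs s t n Z' 1 0 := by
    have := Hs.hd h hc.har hb
    rwa [show (0 : ℤ) + 1 = 1 by norm_num, show (-1 : ℤ) + 1 = 0 by norm_num] at this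
  have h1 := hd.1.brN h.bi
  have h2 : N (d b) = 0 := hc.zero (Hs.hN h hc.har hd) (by omega)
  rw [h2, map_zero, zero_add, Int.cast_one, one_smul] at h1
  exact h1

omit hZ in
lemma CoreP.gd_at {a : E} (ha : a ∈ Hs s t n Z' (-1) 0) : g (d a) ∈ Hs s t n Z' 0 (-1) := by
  have := Hs.hg h hc.har (Hs.hd h hc.har ha)
  rwa [show (-1 : ℤ) + 1 = 0 by norm_num, show (0 : ℤ) + 1 - 2 = -1 by norm_num] at this

omit hZ in
lemma CoreP.fd_at {b : E} (hb : b ∈ Hs s t n Z' 0 (-1)) : f (d b) ∈ Hs s t n Z' (-1) 0 := by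
  have := Hs.hf h hc.har (Hs.hd h hc.har hb)
  rwa [show (0 : ℤ) + 1 - 2 = -1 by norm_num, show (-1 : ℤ) + 1 = 0 by norm_num] at this

omit hZ in
/-- `u` maps `A` to itself -/
lemma CoreP.uop_mem (he : EC N f L g d s t e) {a : E} (ha : a ∈ Am f g n s t Z e) :
    uop f g d a ∈ Am f g n s t Z e := by
  have h1 := hc.fd_at h (hc.gd_at h (hc.am_at h ha).1)
  refine ⟨hc.prim1 h h1, (hc.hs_le h1).2, ?_⟩
  rw [he.uop, ha.2.2]

omit hZ in
lemma CoreP.nu {a : E} (ha : a ∈ Am f g n s t Z e) : N (uop f g d a) = d (g (d a)) :=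
  hc.nfd h (hc.gd_at h (hc.am_at h ha).1)

omit hZ in
/-- the kernel of `u` on `A` is the kernel of `d` -/
theorem CoreP.ker_u (hL : ∀ (p : ℤ) (m : ℕ), EI (L ^ m) d s t n p (-(m : ℤ)) p m) {a : E}
    (ha : a ∈ Am f g n s t Z e) (hu : uop f g d a = 0) : d a = 0 := by
  refine (lcL h hc.har hL).h1 (q := -1) (fun w x hx => hc.zero hx (by omega)) 0 a
    (hc.am_at h ha).1 ?_
  rw [← hc.nu h ha, hu, map_zero]

omit hZ in
/-- `u` is nilpotent on `A` -/
theorem CoreP.nil : ∃ k : ℕ, ∀ a ∈ Am f g n s t Z e, ((uop f g d) ^ k) a = 0 := by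
  obtain ⟨M, hM⟩ := hc.har.nil
  refine ⟨M + 1, fun a ha => ?_⟩
  have hb := h.bi
  have e0 : uop f g d = f * (d * g * d) := by unfold uop; rw [mul_assoc d g d]
  have c2 : lap f g d * (f * (d * g * d)) = f * (d * g * d) * lap f g d := by
    have k1 : lap f g d * f = f * lap f g d := hb.lap_f
    have k2 : lap f g d * d = d * lap f g d := hb.lap_d
    have k3 : lap f g d * g = g * lap f g d := hb.lap_g
    calc lap f g d * (f * (d * g * d)) = (lap f g d * f) * (d * g * d) := by noncomm_ring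
      _ = f * (lap f g d * d) * (g * d) := by rw [k1]; noncomm_ring
      _ = f * d * (lap f g d * g) * d := by rw [k2]; noncomm_ring
      _ = f * d * g * (lap f g d * d) := by rw [k3]; noncomm_ring
      _ = f * (d * g * d) * lap f g d := by rw [k2]; noncomm_ring
  have hpow : ∀ k : ℕ, ∃ c : ℤ, (f * (d * g * d)) ^ (k + 1) =
      (c : Module.End K E) * (f * (d * g * d) * lap f g d ^ k) := by
    intro k
    induction k with
    | zero => exact ⟨1, by simp⟩
    | succ k ih =>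
      obtain ⟨c, hcc⟩ := ih
      refine ⟨-c, ?_⟩
      rw [pow_succ', hcc]
      calc f * (d * g * d) * ((c : Module.End K E) * (f * (d * g * d) * lap f g d ^ k)) =
          (c : Module.End K E) * ((f * (d * g * d) * (f * (d * g * d))) * lap f g d ^ k) := by
            rw [← mul_assoc, ← (Int.cast_commute c (f * (d * g * d))).eq]
            noncomm_ring
        _ = (c : Module.End K E) * (-(f * (d * g * d) * lap f g d) * lap f g d ^ k) := by
            rw [fP_sq hb, c2]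
        _ = _ := by
            rw [pow_succ']
            push_cast
            noncomm_ring
  obtain ⟨c, hcc⟩ := hpow M
  have h3 : (lap f g d ^ M) a = 0 := by
    have := LinearMap.congr_fun hM a
    rw [Module.End.mul_apply, (hc.am_at h ha).1.2] at this
    exact this
  rw [e0, hcc, Module.End.mul_apply, Module.End.mul_apply, h3, map_zero, map_zero]

/-- the image of the differential on position `0` and weight `-1` -/
theorem CoreP.im2 (hL : ∀ (p : ℤ) (m : ℕ), EI (L ^ m) d s t n p (-(m : ℤ)) p m) {y : E}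
    (hy : y ∈ Hs s t n Z 0 (-1)) : ∃ a ∈ Am f g n s t Z 1, d y = N (uop f g d a) := by
  have lc := lcL h hc.har hL
  have hy' := hc.at' h hy
  rw [hc.dd hy.2]
  set b := Z' y with hb
  have hLb : L b ∈ Hs s t n Z' 0 1 := by
    have := Hs.hL h hc.har hy'
    rwa [show (-1 : ℤ) + 2 = 1 by norm_num] at this
  have hcoc : d (L b) = 0 := hc.zero (Hs.hd h hc.har hLb) (by omega)
  obtain ⟨x, hx, a, ha, hdx, hxa⟩ := lc.hsur 0 1 _ (by simpa using hLb) hcoc
  have ha0 : a ∈ Hs s t n Z' (-1) 0 := by simpa using ha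
  have hx0 : x ∈ Hs s t n Z' 0 (-1) := by simpa using hx
  rw [pow_one] at hxa
  have haA : a ∈ Am f g n s t Z 1 := ⟨hc.prim1 h ha0, (hc.hs_le ha0).2, rfl⟩
  refine ⟨a, haA, ?_⟩
  have h1 : b - x = g (d a) := by
    have h2 : L (b - x - g (d a)) = 0 := by
      rw [map_sub, map_sub, hc.lgd h ha0, hxa]
      abel
    have h3 : b - x - g (d a) ∈ Hs s t n Z' 0 (-((1 : ℕ) : ℤ)) := by
      have := Submodule.sub_mem _ (Submodule.sub_mem _ hy' hx0) (hc.gd_at h ha0)
      simpa using this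
    exact sub_eq_zero.1 (lc.inj 0 1 1 le_rfl _ h3 (by rw [pow_one]; exact h2))
  have h4 : d b = d (g (d a)) := by
    rw [← h1, map_sub, hdx, sub_zero]
  rw [h4, hc.nu h haA]

/-- `N` is injective on the cohomology of negative position outside of `(-1, 0)` -/
theorem CoreP.inj {p w : ℤ} {x : E} (hx : x ∈ Hs s t n Z p w) (hp : p < 0)
    (h1 : ¬(p = -1 ∧ w = 0)) (hN : ∃ y, N x = d y) : x = 0 := by
  obtain ⟨y0, hy0⟩ := hN
  have hNx := Hs.hN h hZ hx
  obtain ⟨y1, hy1, h2⟩ := at_hom h.bi hNx.1 hy0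
  have hy : Z y1 ∈ Hs s t n Z (p + 2 - 1) (w - 1) := Hs.z_at h hZ hy1
  have h3 : N x = d (Z y1) := by rw [← hZ.zd, ← h2, hNx.2]
  have ln := lbN h hZ
  have inj : ∀ x ∈ Hs s t n Z p w, N x = 0 → x = 0 := by
    intro x hx h0
    obtain ⟨m, hm⟩ := Int.eq_ofNat_of_zero_le (show 0 ≤ -p by omega)
    obtain rfl : p = -(m : ℤ) := by omega
    exact ln.inj w m 1 (by omega) x hx (by rw [pow_one]; exact h0)
  by_cases h4 : p + 2 - 1 = -1 ∧ w - 1 = 0
  · -- position `-2` and weight `1`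
    obtain ⟨h5, h6⟩ := h4
    have hp2 : p = -2 := by omega
    have hw : w = 1 := by omega
    subst hp2 hw
    have hy' := hc.at' h hy
    have h7 : Z' (N x) = N x := by
      have e1 : Z' (d (Z' (Z y1))) = d (Z' (Z y1)) := by
        rw [hc.har.zd, hc.har.zz]
      rw [h3, hc.dd (hZ.zz y1), e1]
    have h8 : Z' x = x := by
      have h9 : N (Z' x - x) = 0 := by rw [map_sub, ← hc.har.zN, h7, sub_self]
      have h10 : Z' x - x ∈ Hs s t n Z (-2) 1 :=
        Submodule.sub_mem _ (hc.hs_le (hc.at' h hx)) hx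
      exact sub_eq_zero.1 (inj _ h10 h9)
    have h11 : x ∈ Hs s t n Z' (-2) 1 := ⟨hx.1, h8⟩
    exact hc.zero h11 (by omega)
  · refine inj x hx ?_
    rw [h3]
    exact hc.d_zero h hZ hy h4 (by omega)

/-- `N` is surjective on the cocycles of nonnegative position -/
theorem CoreP.sur {p w : ℤ} {z : E} (hz : z ∈ Hs s t n Z (p + 2) w) (hp : 0 ≤ p) :
    ∃ y ∈ Hs s t n Z p w, d y = 0 ∧ N y = z := by
  have ln := lbN h hZ
  -- surjectivity of `N`
  have sur : ∃ y ∈ Hs s t n Z p w, N y = z := by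
    obtain ⟨m, rfl⟩ := Int.eq_ofNat_of_zero_le hp
    obtain ⟨x, hx, rfl⟩ := ln.sur w (m + 2) z (by
      have h1 : (m : ℤ) + 2 = ((m + 2 : ℕ) : ℤ) := by push_cast; ring
      rw [h1] at hz
      exact hz)
    have hx' : x ∈ Hs s t n Z (-((m + 2 : ℕ) : ℤ)) w := hx
    refine ⟨(N ^ (m + 1)) x, ?_, ?_⟩
    · have := Hs.hNp h hZ hx' (m + 1)
      rwa [show -((m + 2 : ℕ) : ℤ) + 2 * ((m + 1 : ℕ) : ℤ) = (m : ℤ) by push_cast; ring] at this
    · rw [← Module.End.mul_apply, ← pow_succ']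
  obtain ⟨y, hy, hyz⟩ := sur
  by_cases h1 : p = 0 ∧ w = -1
  · obtain ⟨rfl, rfl⟩ := h1
    refine ⟨y - Z' y, Submodule.sub_mem _ hy (hc.hs_le (hc.at' h hy)), ?_, ?_⟩
    · rw [map_sub, ← hc.dd hy.2, sub_self]
    · have h2 : N (Z' y) = 0 := hc.zero (Hs.hN h hc.har (hc.at' h hy)) (by omega)
      rw [map_sub, h2, sub_zero, hyz]
  · exact ⟨y, hy, hc.d_zero h hZ hy (by omega) h1, hyz⟩

/-- the kernel of `N` on the cohomology of position `-1` and weight `0` -/
theorem CoreP.ker1 (hL : ∀ (p : ℤ) (m : ℕ), EI (L ^ m) d s t n p (-(m : ℤ)) p m) {x : E}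
    (hx : x ∈ Hs s t n Z (-1) 0) (hdx : d x = 0) (hN : ∃ y, N x = d y) :
    ∃ a ∈ Am f g n s t Z 1, x = uop f g d a ∧ uop f g d (uop f g d a) = 0 := by
  obtain ⟨y0, hy0⟩ := hN
  have hNx := Hs.hN h hZ hx
  obtain ⟨y1, hy1, h2⟩ := at_hom h.bi hNx.1 hy0
  have hy : Z y1 ∈ Hs s t n Z 0 (-1) := by
    have := Hs.z_at h hZ hy1
    rwa [show (-1 : ℤ) + 2 - 1 = 0 by norm_num, show (0 : ℤ) - 1 = -1 by norm_num] at this
  have h3 : N x = d (Z y1) := by rw [← hZ.zd, ← h2, hNx.2]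
  obtain ⟨a, ha, h4⟩ := hc.im2 h hZ hL hy
  have hua := (hc.am_at h (hc.uop_mem h (e := 1)
    ⟨by simp, by simp, by simp, by simp, by simp, by simp, by simp⟩ ha)).2
  have h5 : x = uop f g d a := by
    have h6 : N (x - uop f g d a) = 0 := by rw [map_sub, h3, h4, sub_self]
    have h7 : x - uop f g d a ∈ Hs s t n Z (-((1 : ℕ) : ℤ)) 0 := by
      have := Submodule.sub_mem _ hx hua
      simpa using this
    exact sub_eq_zero.1 ((lbN h hZ).inj 0 1 1 le_rfl _ h7 (by rw [pow_one]; exact h6))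
  refine ⟨a, ha, h5, ?_⟩
  rw [← h5, uop_apply, hdx, map_zero, map_zero, map_zero]

omit hZ in
/-- `u` is self-adjoint for the form `S (x, N y)` -/
theorem CoreP.self {a b : E} (ha : a ∈ Am f g n s t Z e) (hb : b ∈ Am f g n s t Z e) :
    S (uop f g d a) (N b) = S a (N (uop f g d b)) := by
  have hb1 := (hc.am_at h hb).1
  have h1 := hb1.1.brN h.bi
  have h2 : f b = 0 := ((mem_prim_iff h.bi).1 hb.1).2.2.1
  have h3 : f (N b) = b := by
    rw [h2, map_zero] at h1
    rw [eq_neg_of_add_eq_zero_left h1.symm, ← neg_smul]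
    simp
  rw [hc.nu h hb, uop_apply, h.af, h3, h.ad, h.ag, h.ad]

end core

end Pool.Agent.H79Q
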