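import Mathlib

/-! Traces on stable subspaces. -/

noncomputable section

namespace Pool.Agent.H79Q

open Module

universe v w w'

variable {K : Type v} [Field K] {E : Type w} [AddCommGroup E] [Module K E]
  {E' : Type w'} [AddCommGroup E'] [Module K E']

open Classical in
/-- The trace of `T` on the subspace `U` (zero if `U` is not stable). -/
def trOn (T : Module.End K E) (U : Submodule K E) : K :=
  if h : ∀ x ∈ U, T x ∈ U then LinearMap.trace K U (T.restrict h) else 0

theorem trOn_def {T : Module.End K E} {U : Submodule K E} (h : ∀ x ∈ U, T x ∈ U) :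
    trOn T U = LinearMap.trace K U (T.restrict h) := dif_pos h

theorem trOn_congr {T T' : Module.End K E} {U : Submodule K E} (h : ∀ x ∈ U, T x = T' x) :
    trOn T U = trOn T' U := by
  by_cases h1 : ∀ x ∈ U, T x ∈ U
  · have h2 : ∀ x ∈ U, T' x ∈ U := fun x hx => by rw [← h x hx]; exact h1 x hx
    rw [trOn_def h1, trOn_def h2]
    congr 1
    exact LinearMap.ext fun x => Subtype.ext (h x x.2)
  · have h2 : ¬ ∀ x ∈ U, T' x ∈ U := fun h2 => h1 fun x hx => by rw [h x hx]; exact h2 x hx
    unfold trOn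
    rw [dif_neg h1, dif_neg h2]

theorem trOn_smul {T : Module.End K E} {U : Submodule K E} (h : ∀ x ∈ U, T x ∈ U) (c : K) :
    trOn (c • T) U = c * trOn T U := by
  have h1 : ∀ x ∈ U, (c • T) x ∈ U := fun x hx => U.smul_mem c (h x hx)
  rw [trOn_def h1, trOn_def h]
  have : (c • T).restrict h1 = c • (T.restrict h) := LinearMap.ext fun x => Subtype.ext rfl
  rw [this, map_smul, smul_eq_mul]

theorem trOn_bot (T : Module.End K E) : trOn T ⊥ = 0 := by
  have h : ∀ x ∈ (⊥ : Submodule K E), T x ∈ (⊥ : Submodule K E) := by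
    intro x hx
    rw [(Submodule.mem_bot K).1 hx, map_zero]
    exact Submodule.zero_mem _
  rw [trOn_def h]
  have : T.restrict h = 0 := LinearMap.ext fun x => Subsingleton.elim _ _
  rw [this, map_zero]

theorem trOn_top (T : Module.End K E) [FiniteDimensional K E] :
    trOn T ⊤ = LinearMap.trace K E T := by
  have h : ∀ x ∈ (⊤ : Submodule K E), T x ∈ (⊤ : Submodule K E) := fun _ _ => trivial
  rw [trOn_def h]
  exact LinearMap.trace_restrict_eq_of_forall_mem ⊤ T fun _ => Submodule.mem_top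

/-- the trace on the range of an idempotent -/
theorem trOn_range [FiniteDimensional K E] {T p : Module.End K E} (hp : p * p = p)
    (h : ∀ x ∈ LinearMap.range p, T x ∈ LinearMap.range p) :
    trOn T (LinearMap.range p) = LinearMap.trace K E (T * p) := by
  have hp2 : ∀ x, p (p x) = p x := fun x => LinearMap.congr_fun hp x
  have h1 : T.restrict h = p.rangeRestrict ∘ₗ (T ∘ₗ (LinearMap.range p).subtype) := by
    ext x
    obtain ⟨y, hy⟩ := h x.1 x.2
    have h2 : p (T x.1) = T x.1 := by rw [← hy, hp2]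
    exact h2.symm
  rw [trOn_def h, h1, LinearMap.trace_comp_comm']
  rfl

/-- the trace on the kernel and on the range of an equivariant map -/
theorem trace_ker_range [FiniteDimensional K E] (a : E →ₗ[K] E') {T : Module.End K E}
    {T' : Module.End K E'} (hc : ∀ x, a (T x) = T' (a x)) :
    LinearMap.trace K E T = trOn T (LinearMap.ker a) + trOn T' (LinearMap.range a) := by
  have hr : ∀ x ∈ LinearMap.range a, T' x ∈ LinearMap.range a := by
    rintro _ ⟨x, rfl⟩
    exact ⟨T x, hc x⟩
  obtain ⟨σ, hσ⟩ := a.rangeRestrict.exists_rightInverse_of_surjective a.range_rangeRestrict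
  have hσ' : ∀ y, a (σ y) = y := fun y => congrArg Subtype.val (LinearMap.congr_fun hσ y)
  set p : Module.End K E := 1 - σ ∘ₗ a.rangeRestrict with hp
  have hpx : ∀ x, p x = x - σ (a.rangeRestrict x) := fun x => rfl
  have hap : ∀ x, a (p x) = 0 := by
    intro x
    rw [hpx, map_sub, hσ', sub_eq_zero]
    rfl
  have hpk : ∀ x, a x = 0 → p x = x := by
    intro x hx
    have : a.rangeRestrict x = 0 := Subtype.ext hx
    rw [hpx, this, map_zero, sub_zero]
  have hk : LinearMap.ker a = LinearMap.range p := by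
    ext x
    rw [LinearMap.mem_ker]
    exact ⟨fun hx => ⟨x, hpk x hx⟩, by rintro ⟨y, rfl⟩; exact hap y⟩
  have hpp : p * p = p := LinearMap.ext fun x => hpk _ (hap x)
  have h1 : T = T * p + T ∘ₗ (σ ∘ₗ a.rangeRestrict) := by
    refine LinearMap.ext fun x => ?_
    change T x = T (p x) + T (σ (a.rangeRestrict x))
    rw [← map_add, hpx, sub_add_cancel]
  have h2 : LinearMap.trace K E (T ∘ₗ (σ ∘ₗ a.rangeRestrict)) = trOn T' (LinearMap.range a) := by
    rw [← LinearMap.comp_assoc, LinearMap.trace_comp_comm', trOn_def hr]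
    congr 1
    refine LinearMap.ext fun y => Subtype.ext ?_
    change a (T (σ y)) = T' y
    rw [hc, hσ']
  conv_lhs => rw [h1]
  rw [map_add, h2, hk, trOn_range hpp]
  rintro _ ⟨y, rfl⟩
  rw [← hk, LinearMap.mem_ker, hc, hap, map_zero]

/-- transport along an injective map -/
theorem trOn_map_inj [FiniteDimensional K E] (a : E →ₗ[K] E') {U : Submodule K E}
    {T : Module.End K E} {T' : Module.End K E'} (h : ∀ x ∈ U, T x ∈ U)
    (hc : ∀ x ∈ U, a (T x) = T' (a x)) (hi : ∀ x ∈ U, a x = 0 → x = 0) :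
    trOn T' (U.map a) = trOn T U := by
  have h' : ∀ y ∈ U.map a, T' y ∈ U.map a := by
    rintro _ ⟨x, hx, rfl⟩
    exact ⟨T x, h x hx, hc x hx⟩
  have hm : ∀ x : U, (a ∘ₗ U.subtype) x ∈ U.map a := fun x => ⟨x.1, x.2, rfl⟩
  let e : U ≃ₗ[K] U.map a := LinearEquiv.ofBijective
    ((a ∘ₗ U.subtype).codRestrict (U.map a) hm) ⟨by
      rw [← LinearMap.ker_eq_bot, LinearMap.ker_eq_bot']
      intro x hx
      exact Subtype.ext (hi x x.2 (congrArg Subtype.val hx)), by
      rintro ⟨_, x, hx, rfl⟩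
      exact ⟨⟨x, hx⟩, rfl⟩⟩
  rw [trOn_def h', trOn_def h, ← LinearMap.trace_conj' (T.restrict h) e]
  congr 1
  refine LinearMap.ext fun y => ?_
  obtain ⟨x, rfl⟩ := e.surjective y
  rw [LinearEquiv.conj_apply, LinearMap.comp_apply, LinearMap.comp_apply, LinearEquiv.coe_coe,
    LinearEquiv.coe_coe, LinearEquiv.symm_apply_apply]
  exact Subtype.ext (hc x x.2).symm

/-- The trace on `U` is the trace on the kernel plus the trace on the image of an equivariant
map. -/
theorem trOn_map [FiniteDimensional K E] (a : E →ₗ[K] E') {U : Submodule K E}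
    {T : Module.End K E} {T' : Module.End K E'} (h : ∀ x ∈ U, T x ∈ U)
    (hc : ∀ x ∈ U, a (T x) = T' (a x)) :
    trOn T U = trOn T (U ⊓ LinearMap.ker a) + trOn T' (U.map a) := by
  have h1 := trace_ker_range (a ∘ₗ U.subtype) (T := T.restrict h) (T' := T')
    (fun x => hc x x.2)
  rw [trOn_def h, h1]
  have e1 : LinearMap.range (a ∘ₗ U.subtype) = U.map a := by
    rw [LinearMap.range_comp, Submodule.range_subtype]
  have e2 : (LinearMap.ker (a ∘ₗ U.subtype)).map U.subtype = U ⊓ LinearMap.ker a := by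
    ext x
    constructor
    · rintro ⟨y, hy, rfl⟩
      exact ⟨y.2, hy⟩
    · rintro ⟨h1, h2⟩
      exact ⟨⟨x, h1⟩, h2, rfl⟩
  rw [e1, ← e2, trOn_map_inj U.subtype (T := T.restrict h) (T' := T)]
  · intro x hx
    change a (T x) = 0
    rw [hc x x.2, show a (x : E) = 0 from hx, map_zero]
  · intro x _
    rfl
  · intro x _ hx
    exact Subtype.ext hx

/-- an injective equivariant map between stable subspaces onto the second one -/
theorem trOn_eq_of_iso [FiniteDimensional K E] (a : E →ₗ[K] E') {U : Submodule K E}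
    {U' : Submodule K E'} {T : Module.End K E} {T' : Module.End K E'} (h : ∀ x ∈ U, T x ∈ U)
    (hc : ∀ x ∈ U, a (T x) = T' (a x)) (hi : ∀ x ∈ U, a x = 0 → x = 0)
    (hm : ∀ x ∈ U, a x ∈ U') (hs : ∀ y ∈ U', ∃ x ∈ U, a x = y) : trOn T' U' = trOn T U := by
  have : U' = U.map a := by
    ext y
    exact ⟨fun hy => hs y hy, by rintro ⟨x, hx, rfl⟩; exact hm x hx⟩
  rw [this, trOn_map_inj a h hc hi]

/-- the trace on a direct sum of two stable subspaces -/
theorem trOn_sup [FiniteDimensional K E] {T : Module.End K E} {U U' : Submodule K E}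
    (h : ∀ x ∈ U, T x ∈ U) (h' : ∀ x ∈ U', T x ∈ U') (hd : ∀ x ∈ U, x ∈ U' → x = 0) :
    trOn T (U ⊔ U') = trOn T U + trOn T U' := by
  have hs : ∀ x ∈ U ⊔ U', T x ∈ U ⊔ U' := by
    intro x hx
    obtain ⟨y, hy, z, hz, rfl⟩ := Submodule.mem_sup.1 hx
    rw [map_add]
    exact Submodule.add_mem_sup (h y hy) (h' z hz)
  -- the projection along `U`
  have h1 := trOn_map (U.mkQ) (U := U ⊔ U') (T := T) (T' := U.mapQ U T h) hs (fun x _ => rfl)
  have h2 := trOn_map (U.mkQ) (U := U') (T := T) (T' := U.mapQ U T h) h' (fun x _ => rfl)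
  have e1 : (U ⊔ U') ⊓ LinearMap.ker U.mkQ = U := by
    rw [Submodule.ker_mkQ]
    exact inf_eq_right.2 le_sup_left
  have e2 : U' ⊓ LinearMap.ker U.mkQ = ⊥ := by
    rw [Submodule.ker_mkQ, Submodule.eq_bot_iff]
    rintro x ⟨h3, h4⟩
    exact hd x h4 h3
  have e3 : (U ⊔ U').map U.mkQ = U'.map U.mkQ := by
    rw [Submodule.map_sup]
    have : U.map U.mkQ = ⊥ := by
      rw [Submodule.eq_bot_iff]
      rintro _ ⟨x, hx, rfl⟩
      exact (Submodule.Quotient.mk_eq_zero _).2 hx
    rw [this, bot_sup_eq]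
  rw [h1, e1, e3, h2, e2, trOn_bot, zero_add]

end Pool.Agent.H79Q
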