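import Pool.Agent.W_MP_a3c811_h79.MF.SimC
import Pool.Agent.W_MP_a3c811_h79.Q.CoreB
import Pool.Agent.W_MP_a3c811_h79.Q.LinTr

/-! Classes and transcendental vectors in the primitive part `(1, 0)`; one theory. -/

noncomputable section

set_option linter.unusedSectionVars false

namespace Pool.Agent.H79Q

open Module Polynomial Pool.Agent.H79L Pool.Agent.H62X Pool.Agent.H79E

universe v w

variable {K : Type v} [Field K] [CharZero K] {E : Type w} [AddCommGroup E] [Module K E]
  [FiniteDimensional K E]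
  {N f L g d : Module.End K E} {n : ℤ} {s t : ℤ → Module.End K E}
  {P D : Finset ℤ} {S : E →ₗ[K] E →ₗ[K] K} {B B0 : Subring (Module.End K E)}
  {Z Z' e φ ψ : Module.End K E} {Al : AddSubgroup E}

/-- the vectors of `Am` orthogonal to the classes -/
def Vt (f g : Module.End K E) (n : ℤ) (s t : ℤ → Module.End K E) (Z e : Module.End K E)
    (S : E →ₗ[K] E →ₗ[K] K) (Al : AddSubgroup E) : Submodule K E :=
  Am f g n s t Z e ⊓ ann S Al

/-- the span of the classes in `Am` -/
def Ca (f g : Module.End K E) (n : ℤ) (s t : ℤ → Module.End K E) (Z e : Module.End K E)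
    (Al : AddSubgroup E) : Submodule K E :=
  Submodule.span K ((Al : Set E) ∩ Am f g n s t Z e)

lemma mem_Vt {x : E} : x ∈ Vt f g n s t Z e S Al ↔
    x ∈ Am f g n s t Z e ∧ ∀ a ∈ Al, S x a = 0 := Iff.rfl

/-- endomorphisms which respect everything -/
structure Rs (N f L g d : Module.End K E) (s t : ℤ → Module.End K E)
    (B0 : Subring (Module.End K E)) (Z e φ : Module.End K E) : Prop where
  ec : EC N f L g d s t φ
  mem : φ ∈ B0
  z : ∀ x, φ (Z x) = Z (φ x)
  e : ∀ x, φ (e x) = e (φ x)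

/-- the context for the classes -/
structure Vc (N f L g d : Module.End K E) (n : ℤ) (s t : ℤ → Module.End K E) (P D : Finset ℤ)
    (S : E →ₗ[K] E →ₗ[K] K) (B0 : Subring (Module.End K E)) (Z e : Module.End K E)
    (Al : AddSubgroup E) : Prop where
  pol : Pol N f L g d n s t P D S B0
  rat : ∀ (r : ℚ), ∀ u ∈ B0, (r : K) • u ∈ B0
  har : Har N f L g d s t S B0 Z
  cls : RatAt N f L g n s t S B0 Al 1 0
  self : Rs N f L g d s t B0 Z e e
  ee : ∀ x, e (e x) = e x

section one

variable (C : Vc N f L g d n s t P D S B0 Z e Al)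
include C

lemma Vc.am_le {x : E} (hx : x ∈ Ca f g n s t Z e Al) : x ∈ Am f g n s t Z e :=
  Submodule.span_le.2 (fun _ h => h.2) hx

lemma Rs.am (hφ : Rs N f L g d s t B0 Z e φ) {x : E} (hx : x ∈ Am f g n s t Z e) :
    φ x ∈ Am f g n s t Z e := by
  obtain ⟨h1, h2, h3⟩ := hx
  exact ⟨hφ.ec.prim C.pol.bi h1, by rw [← hφ.z, h2], by rw [← hφ.e, h3]⟩

lemma Rs.ca (hφ : Rs N f L g d s t B0 Z e φ) {x : E} (hx : x ∈ Ca f g n s t Z e Al) :
    φ x ∈ Ca f g n s t Z e Al := by
  induction hx using Submodule.span_induction with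
  | mem a ha => exact Submodule.subset_span ⟨C.cls.stab φ hφ.mem a ha.1, hφ.am C ha.2⟩
  | zero => rw [map_zero]; exact Submodule.zero_mem _
  | add x y _ _ h1 h2 => rw [map_add]; exact Submodule.add_mem _ h1 h2
  | smul c x _ h1 => rw [map_smul]; exact Submodule.smul_mem _ _ h1

lemma Vc.ann_mem {u : Module.End K E} (hu : u ∈ B0) {x : E} (hx : ∀ a ∈ Al, S x a = 0) :
    ∀ a ∈ Al, S (u x) a = 0 := by
  intro a ha
  obtain ⟨u', hu', h1⟩ := C.pol.star u hu
  rw [h1.1]
  exact hx _ (C.cls.stab u' hu' a ha)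

lemma Rs.vt (hφ : Rs N f L g d s t B0 Z e φ) {x : E} (hx : x ∈ Vt f g n s t Z e S Al) :
    φ x ∈ Vt f g n s t Z e S Al :=
  ⟨hφ.am C hx.1, C.ann_mem hφ.mem hx.2⟩

lemma Vc.anis {a : E} (ha : a ∈ Al) (ha' : a ∈ Am f g n s t Z e) (h0 : S a (N a) = 0) :
    a = 0 := by
  refine C.cls.hodge a ha ha'.1 ?_
  rw [pow_one, pow_zero, Module.End.one_apply]
  exact h0

/-- the two parts meet trivially -/
lemma Vc.disj {x : E} (hx : x ∈ Ca f g n s t Z e Al) (hx' : x ∈ Vt f g n s t Z e S Al) :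
    x = 0 := by
  set Al' : AddSubgroup E := Al ⊓ (Am f g n s t Z e).toAddSubgroup with hAl'
  let T : E →ₗ[K] E →ₗ[K] K := (LinearMap.lcomp K K N) ∘ₗ S
  refine rat_nd (T := T) (Al := Al') ?_ ?_ ?_ hx ?_
  · intro q a ha
    exact ⟨C.cls.rat q a ha.1, Submodule.smul_mem _ _ ha.2⟩
  · intro a ha b hb
    exact C.cls.val a ha.1 _ (C.cls.stab N C.pol.mN b hb.1)
  · intro a ha h0
    exact C.anis ha.1 ha.2 h0
  · intro a ha
    exact hx'.2 _ (C.cls.stab N C.pol.mN a ha.1)

/-- the two parts span -/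
lemma Vc.sup : Ca f g n s t Z e Al ⊔ Vt f g n s t Z e S Al = Am f g n s t Z e := by
  have hZe : ∀ x ∈ prim f g n s t 1 0, Z (e x) ∈ Am f g n s t Z e := by
    intro x hx
    refine ⟨C.har.prim C.pol (C.self.ec.prim C.pol.bi hx), ?_, ?_⟩
    · exact LinearMap.congr_fun C.har.idem (e x)
    · rw [C.self.z, C.ee]
  refine le_antisymm (sup_le (fun x hx => C.am_le hx) inf_le_left) fun x hx => ?_
  obtain ⟨a, ha, b, hb, hab⟩ := (C.cls.clsAt C.pol C.rat).split x hx.1
  have h1 : Z (e x) = x := by rw [hx.2.2, hx.2.1]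
  rw [Submodule.mem_sup]
  refine ⟨Z (e a), ?_, Z (e b), ⟨hZe b hb.1, ?_⟩, by rw [← map_add, ← map_add, ← hab, h1]⟩
  · clear hab
    induction ha using Submodule.span_induction with
    | mem a ha =>
      exact Submodule.subset_span ⟨C.cls.stab Z C.har.mem _ (C.cls.stab e C.self.mem _ ha.1),
        hZe a ha.2⟩
    | zero => rw [map_zero, map_zero]; exact Submodule.zero_mem _
    | add x y _ _ h1 h2 => rw [map_add, map_add]; exact Submodule.add_mem _ h1 h2
    | smul c x _ h1 => rw [map_smul, map_smul]; exact Submodule.smul_mem _ _ h1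
  · exact C.ann_mem C.har.mem (C.ann_mem C.self.mem hb.2)

/-- the traces on the two parts -/
theorem Vc.tr (hφ : Rs N f L g d s t B0 Z e φ) : trOn φ (Vt f g n s t Z e S Al) =
    trOn φ (Am f g n s t Z e) - trOn φ (Ca f g n s t Z e Al) := by
  rw [← C.sup, trOn_sup (fun x hx => hφ.ca C hx) (fun x hx => hφ.vt C hx)
    (fun x hx hx' => C.disj hx hx'), add_sub_cancel_left]

lemma Vc.uop_mem : uop f g d ∈ B0 :=
  mul_mem C.pol.mf (mul_mem C.pol.md (mul_mem C.pol.mg C.pol.md))

end one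

section core

variable {D' : Finset ℤ} (C : Vc N f L g d n s t P D S B0 Z e Al)
  (h : Pol N f L g d n s t P D' S B)
  (hc : CoreP N f L g d n s t S B Z Z')
include C h hc

/-- `u` maps the transcendental part to itself -/
lemma Vc.vt_u {x : E} (hx : x ∈ Vt f g n s t Z e S Al) :
    uop f g d x ∈ Vt f g n s t Z e S Al :=
  ⟨hc.uop_mem h C.self.ec hx.1, C.ann_mem C.uop_mem hx.2⟩

/-- `u` kills the classes -/
lemma Vc.ca_u {x : E} (hx : x ∈ Ca f g n s t Z e Al) : uop f g d x = 0 := by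
  induction hx using Submodule.span_induction with
  | zero => rw [map_zero]
  | add x y _ _ h1 h2 => rw [map_add, h1, h2, add_zero]
  | smul c x _ h1 => rw [map_smul, h1, smul_zero]
  | mem a ha =>
    obtain ⟨M, hM⟩ := hc.nil h (e := e)
    have st : ∀ k, (uop f g d ^ k) a ∈ Al ∧ (uop f g d ^ k) a ∈ Am f g n s t Z e := by
      intro k
      induction k with
      | zero => exact ⟨ha.1, ha.2⟩
      | succ k ih =>
        rw [pow_succ', Module.End.mul_apply]
        exact ⟨C.cls.stab _ C.uop_mem _ ih.1, hc.uop_mem h C.self.ec ih.2⟩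
    have step : ∀ k, (uop f g d ^ (k + 2)) a = 0 → (uop f g d ^ (k + 1)) a = 0 := by
      intro k hk
      refine C.anis (st (k + 1)).1 (st (k + 1)).2 ?_
      have e1 : (uop f g d ^ (k + 1)) a = uop f g d ((uop f g d ^ k) a) := by
        rw [pow_succ', Module.End.mul_apply]
      have e2 : uop f g d ((uop f g d ^ (k + 1)) a) = 0 := by
        rw [← Module.End.mul_apply, ← pow_succ']
        exact hk
      rw [e1] at e2 ⊢
      rw [hc.self h (st k).2 (hc.uop_mem h C.self.ec (st k).2), e2, map_zero, map_zero]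
    have all : ∀ k, (uop f g d ^ (k + 1)) a = 0 → (uop f g d ^ 1) a = 0 := by
      intro k
      induction k with
      | zero => exact fun hk => hk
      | succ k ih => exact fun hk => ih (step k hk)
    have h0 : (uop f g d ^ (M + 1)) a = 0 := by
      have := hM a ha.2
      rw [pow_succ', Module.End.mul_apply, this, map_zero]
    have := all M h0
    rwa [pow_one] at this

/-- the image of `u` -/
lemma Vc.map_u : (Am f g n s t Z e).map (uop f g d) =
    (Vt f g n s t Z e S Al).map (uop f g d) := by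
  ext y
  constructor
  · rintro ⟨x, hx, rfl⟩
    rw [SetLike.mem_coe, ← C.sup, Submodule.mem_sup] at hx
    obtain ⟨a, ha, b, hb, rfl⟩ := hx
    exact ⟨b, hb, by rw [map_add, C.ca_u h hc ha, zero_add]⟩
  · rintro ⟨x, hx, rfl⟩
    exact ⟨x, hx.1, rfl⟩

/-- the kernel in the image of `u` -/
lemma Vc.ki_u : Am f g n s t Z e ⊓ (LinearMap.ker (uop f g d) ⊓
      (Am f g n s t Z e).map (uop f g d)) =
    Vt f g n s t Z e S Al ⊓ (LinearMap.ker (uop f g d) ⊓
      (Vt f g n s t Z e S Al).map (uop f g d)) := by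
  rw [C.map_u h hc]
  ext y
  constructor
  · rintro ⟨h1, h2, x, hx, rfl⟩
    exact ⟨C.vt_u h hc hx, h2, x, hx, rfl⟩
  · rintro ⟨h1, h2, h3⟩
    exact ⟨h1.1, h2, h3⟩

end core

end Pool.Agent.H79Q
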