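import Pool.Agent.W_MP_a3c811_h79.MF.SigY
import Pool.Agent.W_MP_a3c811_h79.Q.Cls
import Pool.Agent.W_MP_a3c811_h79.Q.Jnt
import Pool.Agent.W_MP_a3c811_h79.Q.NumA
import Pool.Agent.W_MP_a3c811_h79.Q.Vt

/-! Traces on the transcendental part of the primitive part `(1, 0)` in all theories. -/

noncomputable section

set_option linter.unusedSectionVars false

namespace Pool.Agent.H79Q

open Module Polynomial Pool.Agent.WeilH_h6 Pool.Agent.WeilH_h6.VarClass Pool.Agent.H62D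
  Pool.Agent.H62A Pool.Agent.H79L Pool.Agent.H62X Pool.Agent.H79E Pool.Agent.H62S
  Pool.Agent.H62S.Strata

universe u v w

section lin

variable {K : Type v} [Field K] [CharZero K] {E : Type w} [AddCommGroup E] [Module K E]
  [FiniteDimensional K E]

lemma poly_mem_of {T : Module.End K E} {U : Submodule K E} (h : ∀ x ∈ U, T x ∈ U) (p : K[X]) :
    ∀ x ∈ U, aeval T p x ∈ U := aeval_stab h p

lemma mulpoly_mem {T T' : Module.End K E} {U : Submodule K E} (h : ∀ x ∈ U, T x ∈ U)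
    (h' : ∀ x ∈ U, T' x ∈ U) (m : ℕ) (p : K[X]) :
    ∀ x ∈ U, (T ^ m * aeval T' p) x ∈ U := fun x hx =>
  pow_mem_of h m _ (poly_mem_of h' p x hx)

lemma restrict_mulpoly {T T' : Module.End K E} {U : Submodule K E}
    (h : ∀ x ∈ U, T x ∈ U) (h' : ∀ x ∈ U, T' x ∈ U) (m : ℕ) (p : K[X])
    (hh : ∀ x ∈ U, (T ^ m * aeval T' p) x ∈ U) (x : U) :
    (T.restrict h ^ m * aeval (T'.restrict h') p) x = (T ^ m * aeval T' p).restrict hh x := by
  have h1 : ∀ x : U, (((T.restrict h) ^ m) x : E) = (T ^ m) x := by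
    intro x
    rw [Module.End.pow_restrict m h (pow_mem_of h m)]
    rfl
  have h2 : ∀ x : U, ((aeval (T'.restrict h') p x : U) : E) = aeval T' p x := fun x =>
    NumA_aeval U.subtype (T'.restrict h') T' (fun _ => rfl) p x
  apply Subtype.ext
  rw [Module.End.mul_apply, h1, h2]
  rfl

lemma trace_restrict_mulpoly {T T' : Module.End K E} {U : Submodule K E}
    (h : ∀ x ∈ U, T x ∈ U) (h' : ∀ x ∈ U, T' x ∈ U) (m : ℕ) (p : K[X]) :
    LinearMap.trace K U (T.restrict h ^ m * aeval (T'.restrict h') p) =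
      trOn (T ^ m * aeval T' p) U := by
  have hh := mulpoly_mem h h' m p
  rw [trOn_def hh]
  have e : T.restrict h ^ m * aeval (T'.restrict h') p = (T ^ m * aeval T' p).restrict hh :=
    LinearMap.ext fun x => restrict_mulpoly h h' m p hh x
  rw [e]

end lin

variable {k : Type u} [Field k] {𝒱 : VarClass k} {I : Type} {K : I → Type v} [∀ l, Field (K l)]
  [∀ l, CharZero (K l)] {W : ∀ l, Weil.{u, v, w} 𝒱 (K l)} {X : Strata W}

lemma lift_comm {φ ε : ∀ l, TEnd (W l) X.Y} (hφ : X.MotCompat φ) (hε : X.MotCompat ε)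
    (hc : X.ComFam φ ε) (l : I) (x : Tot (W l) X.EY) :
    X.lift l 0 (φ l) (X.lift l 0 (ε l) x) = X.lift l 0 (ε l) (X.lift l 0 (φ l) x) := by
  have hsh : X.Shift l 0 (φ l) := shift_of X l (hφ.2 l).1
  have hsh' : X.Shift l 0 (ε l) := shift_of X l (hε.2 l).1
  have h1 := LinearMap.congr_fun (lift_lift X l hsh 0 0 (ε l) le_rfl) x
  have h2 := LinearMap.congr_fun (lift_lift X l hsh' 0 0 (φ l) le_rfl) x
  have h3 : φ l ∘ₗ ε l = ε l ∘ₗ φ l := LinearMap.ext fun x => hc l x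
  rw [h3] at h1
  exact h1.trans h2.symm

/-- the span of the classes -/
abbrev XCa (X : Strata W) (l : I) (Z e : Module.End (K l) (Tot (W l) X.EY)) :
    Submodule (K l) (Tot (W l) X.EY) :=
  Ca (K := K l) (E := Tot (W l) X.EY) (X.eNd l) (X.eLam l) X.n (sP X l) (tP X l) Z e
    (X.eclasses l)

/-- the transcendental vectors -/
abbrev XVt (X : Strata W) (l : I) (Z e : Module.End (K l) (Tot (W l) X.EY)) :
    Submodule (K l) (Tot (W l) X.EY) :=
  Vt (K := K l) (E := Tot (W l) X.EY) (X.eNd l) (X.eLam l) X.n (sP X l) (tP X l) Z e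
    (X.eS l) (X.eclasses l)

/-- the context for the classes on the `E_1`-term -/
abbrev XVc (X : Strata W) (hW : Compatible W) (l : I) (hY : X.YRing l (X.sring l hW ∅))
    (D : Finset ℤ) (Z e : Module.End (K l) (Tot (W l) X.EY)) : Prop :=
  Vc (K := K l) (E := Tot (W l) X.EY) (X.eN l) (X.eNd l) (X.eL l) (X.eLam l) (X.ed l) X.n
    (sP X l) (tP X l) (Finset.univ.image X.epos) D (X.eS l)
    (X.bring l (X.sring l hW ∅) hY.pos) Z e (X.eclasses l)

/-- endomorphisms which respect everything -/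
abbrev XRs (X : Strata W) (hW : Compatible W) (l : I) (hY : X.YRing l (X.sring l hW ∅))
    (Z e φ : Module.End (K l) (Tot (W l) X.EY)) : Prop :=
  Rs (K := K l) (E := Tot (W l) X.EY) (X.eN l) (X.eNd l) (X.eL l) (X.eLam l) (X.ed l)
    (sP X l) (tP X l) (X.bring l (X.sring l hW ∅) hY.pos) Z e φ

section ctx

variable [DecidableEq X.J] (hW : Compatible W) {P Q : ℚ[X]} (F : FitX X hW P Q)
  {ε φ ψ : ∀ l, TEnd (W l) X.Y} (hε : X.MotCompat ε) (hφ : X.MotCompat φ) (hψ : X.MotCompat ψ)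
  (hφε : X.ComFam φ ε) (hψε : X.ComFam ψ ε)
  (hεi : ∀ l x, X.lift l 0 (ε l) (X.lift l 0 (ε l) x) = X.lift l 0 (ε l) x)

include F hφ hε hφε in
theorem rs_of (l : I) (hY : X.YRing l (X.sring l hW ∅)) :
    XRs X hW l hY (ZE X hW P l) (X.lift l 0 (ε l)) (X.lift l 0 (φ l)) where
  ec := ec_lift hW (motCompat_com hφ l)
  mem := lift_mem hW hφ.1 l hY
  z := lift_Z hW (motCompat_com hφ l) F
  e := lift_comm hφ hε hφε l

include F hε hεi in
theorem vc_of (l : I) (hY : X.YRing l (X.sring l hW ∅)) (hI : X.IndexAt l) :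
    ∃ D, XVc X hW l hY D (ZE X hW P l) (X.lift l 0 (ε l)) := by
  obtain ⟨D, hP⟩ := hY.pol hW
  have hA : X.RSub l (X.sring l hW ∅) (X.classes l) :=
    { stab := by
        intro U hU x hx
        obtain ⟨⟨V, hV, rfl⟩, -⟩ := (mem_sring hW).1 hU
        exact isClass_map hW hV hx
      rat := fun q x hx => X.smul_classes q hx
      val := fun x hx y hy => X.tform_rat hW hx hy }
  have hC := ratAt' hY hA (i := 1) (j := 0) hW (fun x hx hxA h0 => hI x hx hxA h0)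
  exact ⟨D, hP, fun r u hu => hY.rat_mem r hu, har_strata hY hW F, hC,
    rs_of hW F hε hε (fun _ _ => rfl) l hY, hεi l⟩

variable (X) in
/-- the joint classes in `Am` -/
def AFam (hW : Compatible W) (P : ℚ[X]) (ε : ∀ l, TEnd (W l) X.Y) : Set (∀ l, Tot (W l) X.EY) :=
  {x | x ∈ JEC X ∧ ∀ l, x l ∈ XAm X l (ZE X hW P l) (X.lift l 0 (ε l))}

include F hε hεi in
lemma ca_eq (hK : ∀ c n, KunnethMotivic W (X.EY c) n) (l : I) :
    XCa X l (ZE X hW P l) (X.lift l 0 (ε l)) =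
      Submodule.span (K l) {y | ∃ x ∈ AFam X hW P ε, x l = y} := by
  unfold XCa Ca
  congr 1
  ext y
  constructor
  · rintro ⟨h1, h2⟩
    obtain ⟨x, hx, rfl⟩ := mem_eclasses_iff.1 h1
    have k1 := jec_MA hW (pA hW hK hε P) hx
    have k2 := fun l' => (pA_spec hW hK hε hεi F l').1 (x l')
    have k3 := (pA_spec hW hK hε hεi F l).2 _ h2
    exact ⟨fun l => MA.val (pA hW hK hε P) l (x l), ⟨k1, k2⟩, k3⟩
  · rintro ⟨x, ⟨h1, h2⟩, rfl⟩
    exact ⟨mem_eclasses_iff.2 ⟨x, h1, rfl⟩, h2 l⟩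

include F hε hεi in
/-- the traces on the spans of the classes -/
theorem ratFam_ca (hK : ∀ c n, KunnethMotivic W (X.EY c) n) (hI : ∀ l, X.IndexAt l)
    (T : MA hW X.EY) (hT : ∀ l, ∀ x ∈ XAm X l (ZE X hW P l) (X.lift l 0 (ε l)),
      MA.val T l x ∈ XAm X l (ZE X hW P l) (X.lift l 0 (ε l))) :
    RatFam fun l => trOn (MA.val T l) (XCa X l (ZE X hW P l) (X.lift l 0 (ε l))) := by
  obtain ⟨T0, hT0⟩ : ∃ T0 : ∀ l, Tot (W l) X.EY →ₗ[K l] Tot (W l) X.EY →ₗ[K l] K l,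
      ∀ l x y, T0 l x y = X.eS l x (X.eN l y) :=
    ⟨fun l => (LinearMap.lcomp (K l) (K l) (X.eN l)) ∘ₗ X.eS l, fun _ _ _ => rfl⟩
  have k0 : (fun l => (0 : Tot (W l) X.EY)) ∈ AFam X hW P ε :=
    ⟨jec_zero, fun l => Submodule.zero_mem _⟩
  have k1 : ∀ x ∈ AFam X hW P ε, ∀ y ∈ AFam X hW P ε, (fun l => x l + y l) ∈ AFam X hW P ε :=
    fun x hx y hy => ⟨jec_add hx.1 hy.1, fun l => Submodule.add_mem _ (hx.2 l) (hy.2 l)⟩
  have k2 : ∀ (q : ℚ), ∀ x ∈ AFam X hW P ε, (fun l => (q : K l) • x l) ∈ AFam X hW P ε :=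
    fun q x hx => ⟨jec_smul q hx.1, fun l => Submodule.smul_mem _ _ (hx.2 l)⟩
  have k3 : ∀ x ∈ AFam X hW P ε, ∀ y ∈ AFam X hW P ε, ∃ q : ℚ, ∀ l,
      T0 l (x l) (y l) = ((q : ℚ) : K l) := by
    intro x hx y hy
    have e1 : (fun l => X.eN l (y l)) ∈ JEC X :=
      jec_MA hW (⟨X.eN, X.motivic_eN hW⟩ : MA hW X.EY) hy.1
    obtain ⟨q, hq⟩ := jec_pair hW hx.1 e1
    exact ⟨q, fun l => (hT0 l _ _).trans (hq l)⟩
  have k4 : ∀ x ∈ AFam X hW P ε, ∀ l, T0 l (x l) (x l) = 0 → x l = 0 := by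
    intro x hx l h0
    rw [hT0] at h0
    have hY := yring_sring (l := l) hW (com_empty (X := X))
    obtain ⟨D, C⟩ := vc_of hW F hε hεi l hY (hI l)
    exact C.anis (mem_eclasses_iff.2 ⟨x, hx.1, rfl⟩) (hx.2 l) h0
  have k5 : ∀ x ∈ AFam X hW P ε, (fun l => MA.val T l (x l)) ∈ AFam X hW P ε :=
    fun x hx => ⟨jec_MA hW T hx.1, fun l => hT l _ (hx.2 l)⟩
  have h := clsTrace (K := K) (E := fun l => Tot (W l) X.EY) (AFam X hW P ε) k0 k1 k2 T0 k3 k4
    (fun l => MA.val T l) k5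
  obtain ⟨τ, hτ⟩ := h
  refine ⟨τ, fun l => ?_⟩
  rw [← hτ l, ← ca_eq hW F hε hεi hK l]

include F hε hεi in
/-- the traces on the primitive part -/
theorem ratFam_am (hK : ∀ c n, KunnethMotivic W (X.EY c) n)
    (T : MA hW X.EY) (hT : ∀ l, ∀ x ∈ XAm X l (ZE X hW P l) (X.lift l 0 (ε l)),
      MA.val T l x ∈ XAm X l (ZE X hW P l) (X.lift l 0 (ε l))) :
    RatFam fun l => trOn (MA.val T l) (XAm X l (ZE X hW P l) (X.lift l 0 (ε l))) := by
  have hr : ∀ l, XAm X l (ZE X hW P l) (X.lift l 0 (ε l)) =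
      LinearMap.range (MA.val (pA hW hK hε P) l) := by
    intro l
    obtain ⟨h1, h2⟩ := pA_spec hW hK hε hεi F l
    ext x
    exact ⟨fun hx => ⟨x, h2 x hx⟩, by rintro ⟨y, rfl⟩; exact h1 y⟩
  have h := ratFam_range hW hK T (pA hW hK hε P) (fun l => LinearMap.ext fun x =>
    (pA_spec hW hK hε hεi F l).2 _ ((pA_spec hW hK hε hεi F l).1 x)) (fun l x hx => by
      rw [← hr] at hx ⊢
      exact hT l x hx) 1
  refine h.of_eq fun l => ?_
  rw [hr, pow_one]

include F hε hφ hψ hφε hψε hεi in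
/-- the traces on the transcendental parts -/
theorem ratFam_vt (hK : ∀ c n, KunnethMotivic W (X.EY c) n) (hI : ∀ l, X.IndexAt l) (m : ℕ)
    (p : ℚ[X]) : RatFam fun l => trOn (X.lift l 0 (ψ l) ^ m *
      aeval (X.lift l 0 (φ l)) (p.map (algebraMap ℚ (K l))))
        (XVt X l (ZE X hW P l) (X.lift l 0 (ε l))) := by
  set T : MA hW X.EY := liftA hW hψ ^ m * aeval (liftA hW hφ : MA hW X.complex.Y) p with hT
  have hval : ∀ l, MA.val T l = X.lift l 0 (ψ l) ^ m *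
      aeval (X.lift l 0 (φ l)) (p.map (algebraMap ℚ (K l))) := by
    intro l
    have h1 := aeval_val (C := X.complex) hW (liftA hW hφ : MA hW X.complex.Y) p l
    have h2 : MA.val (liftA hW hψ ^ m) l = X.lift l 0 (ψ l) ^ m := val_pow hW _ m l
    rw [hT, val_mul, h2]
    congr 1
  have hYl := fun l => yring_sring (l := l) hW (com_empty (X := X))
  have hstA : ∀ l, ∀ x ∈ XAm X l (ZE X hW P l) (X.lift l 0 (ε l)),
      MA.val T l x ∈ XAm X l (ZE X hW P l) (X.lift l 0 (ε l)) := by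
    intro l x hx
    obtain ⟨D, C⟩ := vc_of hW F hε hεi l (hYl l) (hI l)
    rw [hval]
    exact mulpoly_mem (fun x hx => (rs_of hW F hε hψ hψε l (hYl l)).am C hx)
      (fun x hx => (rs_of hW F hε hφ hφε l (hYl l)).am C hx) m _ x hx
  refine ((ratFam_am hW F hε hεi hK T hstA).sub
    (ratFam_ca hW F hε hεi hK hI T hstA)).of_eq fun l => ?_
  obtain ⟨D, C⟩ := vc_of hW F hε hεi l (hYl l) (hI l)
  rw [← hval]
  have e1 : XAm X l (ZE X hW P l) (X.lift l 0 (ε l)) =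
      XCa X l (ZE X hW P l) (X.lift l 0 (ε l)) ⊔ XVt X l (ZE X hW P l) (X.lift l 0 (ε l)) :=
    C.sup.symm
  rw [e1, trOn_sup, add_sub_cancel_left]
  · rw [hval]
    exact mulpoly_mem (fun x hx => (rs_of hW F hε hψ hψε l (hYl l)).ca C hx)
      (fun x hx => (rs_of hW F hε hφ hφε l (hYl l)).ca C hx) m _
  · rw [hval]
    exact mulpoly_mem (fun x hx => (rs_of hW F hε hψ hψε l (hYl l)).vt C hx)
      (fun x hx => (rs_of hW F hε hφ hφε l (hYl l)).vt C hx) m _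
  · exact fun x hx hx' => C.disj hx hx'

end ctx

end Pool.Agent.H79Q
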