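import Pool.Agent.W_MP_a3c811_h79.Q.AsmA

/-! The kernel of the nilpotent operator on the transcendental vectors and the strata. -/

noncomputable section

set_option linter.unusedSectionVars false

namespace Pool.Agent.H79Q

open Module Polynomial Pool.Agent.WeilH_h6 Pool.Agent.WeilH_h6.VarClass Pool.Agent.H62D
  Pool.Agent.H62A Pool.Agent.H79L Pool.Agent.H62X Pool.Agent.H79E Pool.Agent.H62S
  Pool.Agent.H62S.Strata

universe u v w

lemma fit_fix {K : Type v} [Field K] {E : Type w} [AddCommGroup E] [Module K E]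
    {Δ π G : Module.End K E} (F : Fitting Δ π G) {x : E} (h : Δ x = 0) : π x = x := by
  have h5 := LinearMap.congr_fun F.inv' x
  rw [Module.End.mul_apply, h, map_zero, LinearMap.sub_apply, Module.End.one_apply] at h5
  exact (sub_eq_zero.1 h5.symm).symm

variable {k : Type u} [Field k] {𝒱 : VarClass k} {I : Type} {K : I → Type v} [∀ l, Field (K l)]
  [∀ l, CharZero (K l)] {W : ∀ l, Weil.{u, v, w} 𝒱 (K l)} {X : Strata W}

variable [DecidableEq X.J] (hW : Compatible W)

include hW in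
lemma slice_com {l : I} {φ : Module.End (K l) (Tot (W l) X.Y)} (h : Com X l φ) (i : ℕ)
    (x : Tot (W l) X.EY) : X.slice l i (X.lift l 0 φ x) = φ (X.slice l i x) := by
  have hG : ∀ φ' ∈ ({φ} : Set (Module.End (K l) (Tot (W l) X.Y))), Com X l φ' := by
    intro φ' hφ'
    rw [Set.mem_singleton_iff.1 hφ']
    exact h
  have hY := yring_sring hW hG
  exact com_slice hY (fun U hU => ((mem_sring hW).1 hU).2.1 φ rfl) i x

omit [DecidableEq X.J] in
/-- the kernel of the differential on the lowest copies -/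
lemma slice_ed_zero {l : I} {x : Tot (W l) X.EY} (hy : X.slice l 0 x ∈ X.prim l 1 0)
    (hs : ∀ c, 0 < c → X.slice l c x = 0) (hd : X.ed l x = 0) :
    X.res l (X.slice l 0 x) = 0 ∧ X.gys l (X.slice l 0 x) = 0 := by
  have e1 : X.ed l = X.lift l 1 (X.res l) + X.lift l 0 (X.gys l) := rfl
  have key : ∀ c a, c ≤ X.lev a → (if 1 ≤ c then X.res l (X.slice l (c - 1) x) a else 0) +
      X.gys l (X.slice l c x) a = 0 := by
    intro c a hc
    have h1 := congrFun (congrArg (X.slice l c) hd) a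
    rw [e1, LinearMap.add_apply, map_add, Pi.add_apply, slice_lift X l _ _ _ _ _ hc,
      slice_lift X l _ _ _ _ _ hc, map_zero, if_pos (Nat.zero_le _), Nat.sub_zero] at h1
    exact h1
  constructor
  · funext a
    by_cases ha : 1 ≤ X.lev a
    · have h1 := key 1 a ha
      rw [if_pos le_rfl, hs 1 Nat.one_pos, map_zero, Pi.zero_apply, add_zero] at h1
      exact h1
    · have h1 := (X.bidegree l).1.2 _ _ hy.1.2
      exact (mem_lpos l).1 h1 a (by push_cast; omega)
  · funext a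
    have h1 := key 0 a (Nat.zero_le _)
    rw [if_neg (by norm_num), zero_add] at h1
    exact h1

variable {P Q : ℚ[X]} (F : FitX X hW P Q) {ε φ : ∀ l, TEnd (W l) X.Y} (hε : X.MotCompat ε)

include hW F in
/-- cocycles of the primitive part `(1, 0)` are in the kernel part of the Laplacian -/
lemma Z_of_cocycle {l : I} {x : Tot (W l) X.EY} (hx : x ∈ X.eprim l 1 0) (hd : X.ed l x = 0) :
    ZE X hW P l x = x := by
  obtain ⟨h1, h2, h3, h4⟩ := (X.mem_eprim hW).1 hx
  have h0 := cmp_zero (K := K l) (E := Tot (W l) X.EY) (f := X.eNd l) (g := X.eLam l)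
    (d := X.ed l) hd h3 h4 3
  have hl : H79L.lap (K := K l) (E := Tot (W l) X.EY) (X.eNd l) (X.eLam l) (X.ed l) x = 0 := by
    have e1 : br (K := K l) (E := Tot (W l) X.EY) (X.eNd l) (br (X.eLam l) (X.ed l)) x = 0 := h0
    change X.ed l (br (K := K l) (E := Tot (W l) X.EY) (X.eNd l) (br (X.eLam l) (X.ed l)) x) +
      br (K := K l) (E := Tot (W l) X.EY) (X.eNd l) (br (X.eLam l) (X.ed l)) (X.ed l x) = 0
    rw [e1, hd, map_zero, map_zero, add_zero]
  exact fit_fix (F.map (ev (C := X.complex) hW X.EY l)) hl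

include hW in
/-- the lift of an endomorphism on the lowest copies -/
lemma lift_ins {l : I} {φ : Module.End (K l) (Tot (W l) X.Y)} (h : Com X l φ)
    {y : Tot (W l) X.Y} (hy : y ∈ X.prim l 1 0) (hφy : φ y = y) :
    X.lift l 0 φ (X.ins l 0 y) = X.ins l 0 y := by
  have hs := (ins_part (X := X) (i := 1) (w := (X.n : ℤ) - (0 : ℕ)) hy.1.1 hy.1.2).2
  refine X.ext_slice l fun c a hc => ?_
  rw [slice_com hW h, hs]
  split_ifs
  · rw [hφy]
  · rw [map_zero]

include hW F hε in
/-- the vectors of the kernel of `u` on the strata -/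
theorem trans_of {l : I} {x : Tot (W l) X.EY}
    (hx : x ∈ XVt X l (ZE X hW P l) (X.lift l 0 (ε l))) (hd : X.ed l x = 0) :
    X.TransKer l (ε l) (X.slice l 0 x) := by
  obtain ⟨⟨h1, h2, h3⟩, h4⟩ := hx
  obtain ⟨k1, k2⟩ := X.eprim_slice hW h1
  obtain ⟨r1, r2⟩ := slice_ed_zero k1 k2 hd
  have hY := yring_sring (l := l) hW (com_empty (X := X))
  have hcl : ∀ U ∈ X.sring l hW ∅, ∀ x, X.IsClass l x → X.IsClass l (U x) := by
    intro U hU x hx
    obtain ⟨⟨V, hV, rfl⟩, -⟩ := (mem_sring hW).1 hU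
    exact isClass_map hW hV hx
  refine ⟨k1, ?_, r1, r2, ?_⟩
  · have h5 := slice_com hW (motCompat_com hε l) 0 x
    rw [h3] at h5
    exact h5.symm
  · have h6 := (mem_Tp hW (fun p x => hcl _ (hY.pos p) x) (i := 1) (j := 0) (x := x)).1 ⟨h1, h4⟩
    exact h6.2.2

include hW F hε in
/-- and back -/
theorem of_trans {l : I} {y : Tot (W l) X.Y} (hy : X.TransKer l (ε l) y) :
    X.ins l 0 y ∈ XVt X l (ZE X hW P l) (X.lift l 0 (ε l)) ∧ X.ed l (X.ins l 0 y) = 0 ∧
      X.slice l 0 (X.ins l 0 y) = y := by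
  obtain ⟨h1, h2, h3, h4, h5⟩ := hy
  obtain ⟨k1, k2⟩ := X.ins_eprim hW h1
  have hY := yring_sring (l := l) hW (com_empty (X := X))
  have hcl : ∀ U ∈ X.sring l hW ∅, ∀ x, X.IsClass l x → X.IsClass l (U x) := by
    intro U hU x hx
    obtain ⟨⟨V, hV, rfl⟩, -⟩ := (mem_sring hW).1 hU
    exact isClass_map hW hV hx
  have hd := ed_ins hY hW h1 h3 h4
  refine ⟨⟨⟨k1, Z_of_cocycle hW F k1 hd, ?_⟩, ?_⟩, hd, k2⟩
  · exact lift_ins hW (motCompat_com hε l) h1 h2
  · have h6 := (mem_Tp hW (fun p x => hcl _ (hY.pos p) x) (i := 1) (j := 0)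
      (x := X.ins l 0 y)).2 ⟨k1, by rw [k2]; exact h1, by rw [k2]; exact h5⟩
    exact h6.2

end Pool.Agent.H79Q
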