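import Pool.Agent.W_MP_a3c811_h79.Q.NumDef

/-! Characteristic polynomials on the kernel of a nilpotent endomorphism: divisibilities. -/

noncomputable section

namespace Pool.Agent.H79Q

open Module Polynomial

universe v w

variable {K : Type v} [Field K] {V : Type w} [AddCommGroup V] [Module K V]
  [FiniteDimensional K V]

omit [FiniteDimensional K V] in
theorem NumB_aeval {U : Type*} [AddCommGroup U] [Module K U] (T : V →ₗ[K] U) {A : Module.End K V}
    {A' : Module.End K U} (h : ∀ x, T (A x) = A' (T x)) (p : K[X]) (x : V) :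
    T (aeval A p x) = aeval A' p (T x) := by
  induction p using Polynomial.induction_on' generalizing x with
  | add p q hp hq => rw [map_add, map_add, LinearMap.add_apply, LinearMap.add_apply, map_add, hp, hq]
  | monomial n a =>
    rw [aeval_monomial, aeval_monomial, Module.End.mul_apply, Module.End.mul_apply,
      Module.algebraMap_end_apply, Module.algebraMap_end_apply, map_smul]
    congr 1
    induction n generalizing x with
    | zero => rfl
    | succ n ih => rw [pow_succ, pow_succ, Module.End.mul_apply, Module.End.mul_apply, ih, h]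

theorem NumB_block {W C : Type*} [AddCommGroup W] [Module K W] [FiniteDimensional K W]
    [AddCommGroup C] [Module K C] [FiniteDimensional K C] (A : Module.End K (W × C))
    (a : Module.End K W) (d : Module.End K C) (h1 : ∀ w, A (w, 0) = (a w, 0))
    (h2 : ∀ x, (A x).2 = d x.2) : A.charpoly = a.charpoly * d.charpoly := by
  classical
  let bW := Module.finBasis K W
  let bC := Module.finBasis K C
  let b := bW.prod bC
  have hm : LinearMap.toMatrix b b A = Matrix.fromBlocks (LinearMap.toMatrix bW bW a)
      (Matrix.of fun i j => bW.repr (A (0, bC j)).1 i) 0 (LinearMap.toMatrix bC bC d) := by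
    ext i j
    rcases i with i | i <;> rcases j with j | j
    · rw [LinearMap.toMatrix_apply, Matrix.fromBlocks_apply₁₁, LinearMap.toMatrix_apply]
      simp [b, h1]
    · rw [LinearMap.toMatrix_apply, Matrix.fromBlocks_apply₁₂]
      simp [b]
    · rw [LinearMap.toMatrix_apply, Matrix.fromBlocks_apply₂₁]
      simp [b, h1]
    · rw [LinearMap.toMatrix_apply, Matrix.fromBlocks_apply₂₂, LinearMap.toMatrix_apply]
      simp [b, h2]
  rw [← LinearMap.charpoly_toMatrix A b, hm, Matrix.charpoly_fromBlocks_zero₂₁,
    LinearMap.charpoly_toMatrix, LinearMap.charpoly_toMatrix]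

theorem NumB_conj {U : Type*} [AddCommGroup U] [Module K U] [FiniteDimensional K U]
    (e : V ≃ₗ[K] U) (A : Module.End K V) (B : Module.End K U) (h : ∀ x, e (A x) = B (e x)) :
    A.charpoly = B.charpoly := by
  rw [← LinearEquiv.charpoly_conj e A]
  congr 1
  refine LinearMap.ext fun y => ?_
  obtain ⟨x, rfl⟩ := e.surjective y
  rw [LinearEquiv.conj_apply_apply, LinearEquiv.symm_apply_apply, h]

/-- multiplicativity -/
theorem NumB_surj {U : Type*} [AddCommGroup U] [Module K U] [FiniteDimensional K U]
    (T : V →ₗ[K] U) (hT : Function.Surjective T) (A : Module.End K V) (A' : Module.End K U)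
    (h : ∀ x, T (A x) = A' (T x)) (W : Submodule K V) (hW : ∀ x, x ∈ W ↔ T x = 0)
    (he : ∀ x ∈ W, A x ∈ W) : A.charpoly = (A.restrict he).charpoly * A'.charpoly := by
  obtain ⟨s, hs⟩ := T.exists_rightInverse_of_surjective (LinearMap.range_eq_top.2 hT)
  have hs' : ∀ y, T (s y) = y := fun y => LinearMap.congr_fun hs y
  let e : (W × U) ≃ₗ[K] V := LinearEquiv.ofBijective (LinearMap.coprod W.subtype s) (by
    constructor
    · rw [injective_iff_map_eq_zero]
      rintro ⟨w, y⟩ hx
      have hx' : (w : V) + s y = 0 := by simpa using hx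
      have h1 : T ((w : V) + s y) = y := by rw [map_add, (hW w).1 w.2, hs', zero_add]
      rw [hx', map_zero] at h1
      rw [← h1, map_zero, add_zero] at hx'
      exact Prod.ext (Subtype.ext hx') h1.symm
    · intro x
      refine ⟨(⟨x - s (T x), (hW _).2 (by rw [map_sub, hs', sub_self])⟩, T x), ?_⟩
      simp)
  have he1 : ∀ x, e x = (x.1 : V) + s x.2 := fun x => rfl
  have hTe : ∀ x, T (e x) = x.2 := fun x => by rw [he1, map_add, (hW x.1).1 x.1.2, hs', zero_add]
  let B : Module.End K (W × U) := e.symm.conj A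
  have hB : ∀ x, e (B x) = A (e x) := by
    intro x
    change e (e.symm (A (e.symm.symm x))) = A (e x)
    rw [LinearEquiv.apply_symm_apply]
    rfl
  have h0 : A.charpoly = B.charpoly := (LinearEquiv.charpoly_conj e.symm A).symm
  rw [h0]
  apply NumB_block
  · intro w
    apply e.injective
    rw [hB, he1, he1]
    simp
  · intro x
    rw [← hTe (B x), hB, h, hTe]

theorem NumB_sub (A : Module.End K V) (W : Submodule K V) (he : ∀ x ∈ W, A x ∈ W) :
    A.charpoly = (A.restrict he).charpoly * LinearMap.charpoly (W.mapQ W A he) :=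
  NumB_surj W.mkQ W.mkQ_surjective A _ (fun x => rfl) W (fun x => by simp) he

theorem NumB_inj {U : Type*} [AddCommGroup U] [Module K U] [FiniteDimensional K U]
    (j : U →ₗ[K] V) (hj : Function.Injective j) (A : Module.End K V) (B : Module.End K U)
    (h : ∀ x, j (B x) = A (j x)) : B.charpoly ∣ A.charpoly := by
  have he : ∀ x ∈ LinearMap.range j, A x ∈ LinearMap.range j := by
    rintro _ ⟨x, rfl⟩
    exact ⟨B x, h x⟩
  rw [NumB_sub A (LinearMap.range j) he, NumB_conj (LinearEquiv.ofInjective j hj) B
    (A.restrict he) (fun x => Subtype.ext (h x))]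
  exact dvd_mul_right _ _

/-- The characteristic polynomial on a stable subspace divides.  (See `charpoly_mul` in
`Pool/Agent/W_MP_b4801b_h67`, used in `W_MP_a3c811_h79/MF/SimE.lean`.) -/
theorem kerCP_dvd (φ u : Module.End K V) (h : φ * u = u * φ) : kerCP φ u h ∣ φ.charpoly :=
  NumB_inj (LinearMap.ker u).subtype (Submodule.injective_subtype _) φ _ (fun _ => rfl)

/-- The same. -/
theorem krCP_dvd_ker (φ u : Module.End K V) (h : φ * u = u * φ) :
    krCP φ u h ∣ kerCP φ u h :=
  NumB_inj (Submodule.inclusion inf_le_left) (Submodule.inclusion_injective _) _ _ (fun _ => rfl)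

omit [FiniteDimensional K V] in
theorem NumB_range_stab {φ u : Module.End K V} (h : φ * u = u * φ) :
    ∀ x ∈ LinearMap.range u, φ x ∈ LinearMap.range u := by
  rintro _ ⟨y, rfl⟩
  exact ⟨φ y, (LinearMap.congr_fun h y).symm⟩

omit [FiniteDimensional K V] in
theorem NumB_range_stab' (u : Module.End K V) :
    ∀ x ∈ LinearMap.range u, u x ∈ LinearMap.range u := by
  intro x _
  exact ⟨x, rfl⟩

omit [FiniteDimensional K V] in
theorem NumB_comm {φ u : Module.End K V} (h : φ * u = u * φ) :
    (φ.restrict (NumB_range_stab h)) * (u.restrict (NumB_range_stab' u)) =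
      (u.restrict (NumB_range_stab' u)) * (φ.restrict (NumB_range_stab h)) :=
  LinearMap.ext fun x => Subtype.ext (LinearMap.congr_fun h x.1)

omit [FiniteDimensional K V] in
theorem NumB_nil {u : Module.End K V} (hu : IsNilpotent u) :
    IsNilpotent (u.restrict (NumB_range_stab' u)) := by
  obtain ⟨n, hn⟩ := hu
  refine ⟨n, LinearMap.ext fun x => Subtype.ext ?_⟩
  rw [Module.End.pow_restrict]
  change (u ^ n) x.1 = 0
  rw [hn]
  rfl

theorem NumB_mul (φ u : Module.End K V) (h : φ * u = u * φ) :
    φ.charpoly = kerCP φ u h * (φ.restrict (NumB_range_stab h)).charpoly := by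
  refine NumB_surj u.rangeRestrict u.surjective_rangeRestrict φ _ (fun x => Subtype.ext ?_)
    (LinearMap.ker u) (fun x => ?_) (ker_stab h)
  · exact (LinearMap.congr_fun h x).symm
  · rw [LinearMap.mem_ker]
    exact ⟨fun hx => Subtype.ext hx, fun hx => congrArg Subtype.val hx⟩

/-- `kerCP` of the restriction to the range is `krCP` -/
theorem NumB_kerCP_range (φ u : Module.End K V) (h : φ * u = u * φ) :
    kerCP (φ.restrict (NumB_range_stab h)) (u.restrict (NumB_range_stab' u)) (NumB_comm h) =
      krCP φ u h := by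
  let j : LinearMap.ker (u.restrict (NumB_range_stab' u)) →ₗ[K]
      (LinearMap.ker u ⊓ LinearMap.range u : Submodule K V) :=
    { toFun := fun x => ⟨x.1.1, congrArg Subtype.val x.2, x.1.2⟩
      map_add' := fun _ _ => rfl
      map_smul' := fun _ _ => rfl }
  have hj : Function.Bijective j := by
    constructor
    · intro x y hxy
      have h1 : (j x).1 = (j y).1 := by rw [hxy]
      exact Subtype.ext (Subtype.ext h1)
    · rintro ⟨x, hx1, hx2⟩
      exact ⟨⟨⟨x, hx2⟩, Subtype.ext hx1⟩, rfl⟩
  exact NumB_conj (LinearEquiv.ofBijective j hj) _ _ (fun x => rfl)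

theorem NumB_pow (n : ℕ) : ∀ (V : Type w) [AddCommGroup V] [Module K V] [FiniteDimensional K V]
    (φ u : Module.End K V) (h : φ * u = u * φ), IsNilpotent u → finrank K V ≤ n →
    ∃ m : ℕ, φ.charpoly ∣ kerCP φ u h ^ m := by
  induction n with
  | zero =>
    intro V _ _ _ φ u h _ hV
    refine ⟨0, ?_⟩
    have hd : φ.charpoly.natDegree = 0 := by
      rw [LinearMap.charpoly_natDegree]
      omega
    have h1 : φ.charpoly = 1 := (LinearMap.charpoly_monic φ).natDegree_eq_zero.1 hd
    rw [h1, pow_zero]
  | succ n ih =>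
    intro V _ _ _ φ u h hu hV
    by_cases h0 : finrank K V = 0
    · refine ⟨0, ?_⟩
      have hd : φ.charpoly.natDegree = 0 := by
        rw [LinearMap.charpoly_natDegree]
        exact h0
      have h1 : φ.charpoly = 1 := (LinearMap.charpoly_monic φ).natDegree_eq_zero.1 hd
      rw [h1, pow_zero]
    · have hlt : finrank K (LinearMap.range u) ≤ n := by
        have h1 := LinearMap.finrank_range_add_finrank_ker u
        have h2 : finrank K (LinearMap.ker u) ≠ 0 := by
          intro h2
          have h3 : LinearMap.ker u = ⊥ := Submodule.finrank_eq_zero.1 h2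
          obtain ⟨k, hk⟩ := hu
          have h4 : Function.Injective (u ^ k) := by
            rw [Module.End.coe_pow]
            exact (LinearMap.ker_eq_bot.1 h3).iterate k
          have h5 : Subsingleton V := by
            refine ⟨fun x y => h4 ?_⟩
            rw [hk]
            rfl
          exact h0 (finrank_zero_of_subsingleton)
        omega
      obtain ⟨m, hm⟩ := ih (LinearMap.range u) _ _ (NumB_comm h) (NumB_nil hu) hlt
      refine ⟨m + 1, ?_⟩
      rw [NumB_mul φ u h, pow_succ']
      refine mul_dvd_mul_left _ (hm.trans (pow_dvd_pow_of_dvd ?_ m))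
      rw [NumB_kerCP_range]
      exact krCP_dvd_ker φ u h

/-- Every prime divisor of the characteristic polynomial `T` of `φ` divides the one on `ker u` if `u`
is nilpotent.

Proof. `V` has the filtration by the `ker (u ^ j)`, `j ≤ N` with `u ^ N = 0`; `ker (u ^ (j + 1)) /
ker (u ^ j)` embeds into `ker u` by `u ^ j`, equivariantly, so its characteristic polynomial divides
`kerCP`.  (Or: `R(φ) = 0` on `ker u` for `R = kerCP`, so `R(φ)` maps `ker (u ^ (j + 1))` into
`ker (u ^ j)`: if `u ^ (j + 1) x = 0` then `u ^ j R(φ) x = R(φ) (u ^ j x) = 0` as `u ^ j x ∈ ker u`;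
hence `R(φ) ^ N = 0`, so the minimal polynomial of `φ` divides `R ^ N` and the characteristic
polynomial divides a power of the minimal one: e.g. `T ∣ (minpoly) ^ (finrank)` or via irreducible
factors.) -/
theorem charpoly_dvd_pow (φ u : Module.End K V) (h : φ * u = u * φ) (hu : IsNilpotent u) :
    ∃ m : ℕ, φ.charpoly ∣ kerCP φ u h ^ m :=
  NumB_pow _ V φ u h hu le_rfl

/-- `T = kerCP T1` where `T1` is the characteristic polynomial on `range u`; `krCP` divides `T1`; and
if `kerCP` is separable then every common divisor of `kerCP` and `T1` divides `krCP`.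

Proof. `V / ker u` is isomorphic to `range u` equivariantly, this gives the first statement (define
`T1` as the characteristic polynomial of the restriction of `φ` to `range u`).  `ker u ⊓ range u` is
a stable subspace of `range u`, whence the second.  `ker u ⊓ range u` is the kernel of the nilpotent
restriction of `u` to `range u`, so `T1 ∣ krCP ^ m` for some `m` by `charpoly_dvd_pow` for `range u`;
a common divisor `G` of `kerCP` and `T1` is squarefree (it divides the separable `kerCP`) and divides
`krCP ^ m`, so it divides `krCP` (`Squarefree.dvd_of_dvd_pow` or similar). -/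
theorem exists_T1 (φ u : Module.End K V) (h : φ * u = u * φ) (hu : IsNilpotent u) :
    ∃ T1 : K[X], φ.charpoly = kerCP φ u h * T1 ∧ krCP φ u h ∣ T1 ∧
      ((kerCP φ u h).Separable → ∀ G : K[X], G ∣ kerCP φ u h → G ∣ T1 → G ∣ krCP φ u h) := by
  refine ⟨_, NumB_mul φ u h, ?_, fun hs G hG1 hG2 => ?_⟩
  · exact NumB_inj (Submodule.inclusion inf_le_right) (Submodule.inclusion_injective _) _ _
      (fun _ => rfl)
  · obtain ⟨m, hm⟩ := charpoly_dvd_pow _ _ (NumB_comm h) (NumB_nil hu)
    rw [NumB_kerCP_range φ u h] at hm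
    have hsq : Squarefree G := hs.squarefree.squarefree_of_dvd hG1
    have hG : G ∣ krCP φ u h ^ m := hG2.trans hm
    rcases Nat.eq_zero_or_pos m with rfl | hm0
    · rw [pow_zero] at hG
      exact hG.trans (one_dvd _)
    · exact (hsq.dvd_pow_iff_dvd hm0.ne').1 hG

/-- Let `C = kerCP / krCP` and let `π` be a polynomial with `C ∣ π` and `krCP ∣ π - 1`.  Then the
trace of `g` on `ker u ⊓ range u` is the trace of `g π(φ)` on `ker u`.

Proof. On `(ker u) / (ker u ⊓ range u)` the characteristic polynomial of `φ` is `C` (multiplicativity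
of characteristic polynomials, cancel `krCP ≠ 0`), so `π(φ) = 0` there by Cayley-Hamilton, and
`π(φ)` is the identity on `ker u ⊓ range u`.  Use `trOn_map` with the quotient map and
`trOn_congr`. -/
theorem trOn_kr (φ u : Module.End K V) (h : φ * u = u * φ) {g : Module.End K V}
    (hgu : g * u = u * g) (hgφ : g * φ = φ * g) {C π : K[X]} (hC : kerCP φ u h = krCP φ u h * C)
    (h1 : C ∣ π) (h2 : krCP φ u h ∣ π - 1) :
    trOn g (LinearMap.ker u ⊓ LinearMap.range u) = trOn (g * aeval φ π) (LinearMap.ker u) := by
  set U := LinearMap.ker u with hU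
  set W := LinearMap.ker u ⊓ LinearMap.range u with hWdef
  have hgU : ∀ x ∈ U, g x ∈ U := ker_stab hgu
  have hgW : ∀ x ∈ W, g x ∈ W := kr_stab hgu
  have hφU : ∀ x ∈ U, φ x ∈ U := ker_stab h
  have hφW : ∀ x ∈ W, φ x ∈ W := kr_stab h
  have haeU : ∀ (p : K[X]) (x : U), ((aeval (φ.restrict hφU) p x : U) : V) = aeval φ p x.1 :=
    fun p x => NumB_aeval U.subtype (fun _ => rfl) p x
  have haeW : ∀ (p : K[X]) (x : W), ((aeval (φ.restrict hφW) p x : W) : V) = aeval φ p x.1 :=
    fun p x => NumB_aeval W.subtype (fun _ => rfl) p x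
  -- `C(φ)` maps `U` into `W`
  have hCW : ∀ x ∈ U, aeval φ C x ∈ W := by
    intro x hx
    let W' : Submodule K U := W.comap U.subtype
    have hW' : ∀ x ∈ W', (φ.restrict hφU) x ∈ W' := fun y hy => hφW y.1 hy
    have e1 := NumB_sub (φ.restrict hφU) W' hW'
    let j0 : W' →ₗ[K] W :=
      { toFun := fun x => ⟨x.1.1, x.2⟩
        map_add' := fun _ _ => rfl
        map_smul' := fun _ _ => rfl }
    let j : W' ≃ₗ[K] W := LinearEquiv.ofBijective j0 (by
        constructor
        · intro x y hxy
          have h1 : (j0 x).1 = (j0 y).1 := by rw [hxy]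
          exact Subtype.ext (Subtype.ext h1)
        · rintro ⟨y, hy⟩
          exact ⟨⟨⟨y, hy.1⟩, hy⟩, rfl⟩)
    have e2 : ((φ.restrict hφU).restrict hW').charpoly = krCP φ u h :=
      NumB_conj j _ _ (fun x => rfl)
    rw [e2] at e1
    have e3 : kerCP φ u h = (φ.restrict hφU).charpoly := rfl
    rw [← e3, hC] at e1
    have hne : krCP φ u h ≠ 0 := (LinearMap.charpoly_monic _).ne_zero
    have e4 : C = LinearMap.charpoly (W'.mapQ W' (φ.restrict hφU) hW') :=
      mul_left_cancel₀ hne e1
    have e5 := NumB_aeval W'.mkQ (A := φ.restrict hφU)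
      (A' := W'.mapQ W' (φ.restrict hφU) hW') (fun _ => rfl) C ⟨x, hx⟩
    have e6 : aeval (W'.mapQ W' (φ.restrict hφU) hW') C = 0 := by
      rw [e4]
      exact LinearMap.aeval_self_charpoly _
    rw [e6, LinearMap.zero_apply] at e5
    have e7 : aeval (φ.restrict hφU) C ⟨x, hx⟩ ∈ W' := by
      rw [← Submodule.Quotient.mk_eq_zero]
      exact e5
    have e8 : ((aeval (φ.restrict hφU) C ⟨x, hx⟩ : U) : V) ∈ W := e7
    rw [haeU] at e8
    exact e8
  have hπW : ∀ x ∈ W, aeval φ π x = x := by
    intro x hx
    obtain ⟨q, hq⟩ := h2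
    have e1 : π = krCP φ u h * q + 1 := by rw [← hq]; ring
    have e2 : aeval (φ.restrict hφW) (krCP φ u h) = 0 := LinearMap.aeval_self_charpoly _
    have e3 : ((aeval (φ.restrict hφW) π ⟨x, hx⟩ : W) : V) = x := by
      rw [e1, map_add, map_mul, e2, zero_mul, zero_add, map_one]
      rfl
    rw [haeW] at e3
    exact e3
  have hTU : ∀ x ∈ U, (g * aeval φ π) x ∈ U := by
    intro x hx
    rw [Module.End.mul_apply]
    apply hgU
    have := (aeval (φ.restrict hφU) π ⟨x, hx⟩ : U).2
    rw [haeU] at this
    exact this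
  have hTUW : ∀ x ∈ U, (g * aeval φ π) x ∈ W := by
    intro x hx
    rw [Module.End.mul_apply]
    apply hgW
    obtain ⟨q, hq⟩ := h1
    rw [hq, map_mul, Module.End.mul_apply]
    apply hCW
    have := (aeval (φ.restrict hφU) q ⟨x, hx⟩ : U).2
    rw [haeU] at this
    exact this
  have key := trOn_map W.mkQ (U := U) (T := g * aeval φ π) (T' := 0) hTU (fun x hx => by
    rw [LinearMap.zero_apply]
    exact (Submodule.Quotient.mk_eq_zero W).2 (hTUW x hx))
  have hz : trOn (0 : Module.End K (V ⧸ W)) (U.map W.mkQ) = 0 := by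
    have hst : ∀ x ∈ U.map W.mkQ, (0 : Module.End K (V ⧸ W)) x ∈ U.map W.mkQ := by
      intro x _
      rw [LinearMap.zero_apply]
      exact Submodule.zero_mem _
    rw [trOn_def hst]
    have : (0 : Module.End K (V ⧸ W)).restrict hst = 0 := LinearMap.ext fun x => Subtype.ext rfl
    rw [this, map_zero]
  rw [key, hz, add_zero, Submodule.ker_mkQ]
  have hUW : U ⊓ W = W := inf_eq_right.2 inf_le_left
  rw [hUW]
  refine trOn_congr fun x hx => ?_
  rw [Module.End.mul_apply, hπW x hx]

end Pool.Agent.H79Q
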