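import Pool.Agent.W_MP_a3c811_h79.Q.NumA
import Pool.Agent.W_MP_a3c811_h79.Q.NumB
import Pool.Agent.W_a3c811_h62.LA.CP

/-! Traces on the kernel of a nilpotent endomorphism, for a family of spaces over various fields. -/

noncomputable section

namespace Pool.Agent.H79Q

open Module Polynomial

universe uI v w

/-- Every nonzero rational polynomial `T` has a separable monic divisor `R` such that `T` divides a
power of `R`.  (Take the product of the different monic irreducible factors, or `T / gcd (T, T')`, or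
`UniqueFactorizationMonoid.radical`.) -/
theorem exists_rad (T : ℚ[X]) (hT : T ≠ 0) :
    ∃ R : ℚ[X], R.Monic ∧ R.Separable ∧ R ∣ T ∧ ∃ m : ℕ, T ∣ R ^ m := by
  classical
  have h0 : UniqueFactorizationMonoid.radical T ≠ 0 := UniqueFactorizationMonoid.radical_ne_zero
  have h1 : Associated (normalize (UniqueFactorizationMonoid.radical T))
      (UniqueFactorizationMonoid.radical T) := normalize_associated _
  refine ⟨normalize (UniqueFactorizationMonoid.radical T), monic_normalize h0, ?_, ?_, ?_⟩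
  · rw [PerfectField.separable_iff_squarefree]
    exact UniqueFactorizationMonoid.squarefree_radical.squarefree_of_dvd h1.dvd
  · exact h1.dvd.trans UniqueFactorizationMonoid.radical_dvd_self
  · obtain ⟨m, hm⟩ := UniqueFactorizationMonoid.exists_dvd_radical_self_pow hT
    exact ⟨m, hm.trans (pow_dvd_pow_of_dvd h1.symm.dvd m)⟩

/-- One field: from `numA` and `numB`, with `T = R T1`. -/
theorem NumC_one {K : Type v} [Field K] [CharZero K] {V : Type w} [AddCommGroup V] [Module K V]
    [FiniteDimensional K V] (φ u : Module.End K V) (h : φ * u = u * φ) (hu : IsNilpotent u)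
    {T R T1 R1 : ℚ[X]} (hT : φ.charpoly = T.map (algebraMap ℚ K)) (hRs : R.Separable)
    (hRT : T = R * T1) (hR0 : R ≠ 0) (hρ : kerCP φ u h = R.map (algebraMap ℚ K))
    (hR1m : R1.Monic) (hR1R : R1 ∣ R) (hR1T : R1 ∣ T1) {a b : ℚ[X]} (hab : R1 = a * R + b * T1) :
    krCP φ u h = R1.map (algebraMap ℚ K) := by
  obtain ⟨T1', hT1', hd1, hd2⟩ := exists_T1 φ u h hu
  have hRK : R.map (algebraMap ℚ K) ≠ 0 := (Polynomial.map_ne_zero_iff
    (algebraMap ℚ K).injective).2 hR0
  have h1 : T1' = T1.map (algebraMap ℚ K) := by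
    rw [hT, hRT, Polynomial.map_mul, hρ] at hT1'
    exact (mul_left_cancel₀ hRK hT1').symm
  subst h1
  have hσm : (krCP φ u h).Monic := LinearMap.charpoly_monic _
  refine eq_of_monic_of_associated hσm (hR1m.map _) (associated_of_dvd_dvd ?_ ?_)
  · rw [hab, Polynomial.map_add, Polynomial.map_mul, Polynomial.map_mul]
    refine dvd_add ?_ (hd1.mul_left _)
    refine Dvd.dvd.mul_left ?_ _
    rw [← hρ]
    exact krCP_dvd_ker φ u h
  · refine hd2 ?_ _ ?_ ?_
    · rw [hρ]
      exact hRs.map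
    · rw [hρ]
      exact Polynomial.map_dvd _ hR1R
    · exact Polynomial.map_dvd _ hR1T

/-- For every `l` let `φ l`, `u l`, `ψ l` be commuting endomorphisms of the finite-dimensional space
`V l` over the field `K l` of characteristic zero, `u l` nilpotent, such that the traces of
`(ψ l) ^ m h(φ l)`, `h` a rational polynomial, are rational and do not depend on `l`, and the
dimension of `ker (u l)` does not depend on `l`.  Suppose that for ONE `l0` the characteristic
polynomial of `φ l0` on `ker (u l0)` is squarefree.  Then the traces of `(ψ l) ^ m` on `ker (u l)` and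
on `ker (u l) ⊓ range (u l)` are rational and do not depend on `l`.

Proof. Write `ρ l = kerCP (φ l) (u l)`, `σ l = krCP (φ l) (u l)`, and `P l` for the image of a rational
polynomial `P` in `(K l)[X]`.
(1) By `exists_charpoly` (in `W_a3c811_h62/LA/CP.lean`; take `m = 0`, `h = X ^ j` in the hypothesis)
there is a rational polynomial `T` with `(φ l).charpoly = T l` for all `l`; it is nonzero and monic.
Let `R` be as in `exists_rad`.
(2) `R l ∣ ρ l`: `R l` is separable, hence squarefree, and divides `T l`, which divides a power of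
`ρ l` (`charpoly_dvd_pow`).  For `l0` also `ρ l0 ∣ R l0`: `ρ l0` is squarefree and divides
`T l0 ∣ (R l0) ^ m`; both are monic, so `ρ l0 = R l0`, and
`finrank (ker (u l)) = natDegree (ρ l)` (`LinearMap.charpoly_natDegree`) is the degree of `R` for
`l = l0`, hence for all `l`; as `R l ∣ ρ l` and both are monic of the same degree, `ρ l = R l` for
all `l`.
(3) Let `T = R T1` in `ℚ[X]` and let `R1` be the monic gcd of `R` and `T1` (`EuclideanDomain.gcd`
times the inverse of its leading coefficient), `R = R1 C`.  By `exists_T1` (cancel `R l`) `σ l`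
divides `R l` and `T1 l`, and every common divisor of them divides `σ l`; by `Polynomial.gcd_map`
(or Bezout: `R1 = a R + b T1`, so `σ l ∣ R1 l`; and `R1 l` is a common divisor, so `R1 l ∣ σ l`)
`σ l = R1 l` for all `l` (both monic).
(4) `T ∣ T' R` in `ℚ[X]`, because this is true after base change to `K l0` by `numA`
(`Polynomial.map_dvd_map'`); write `T' R = T D`; then the `D` of `numA` for `l` is `D l` (cancel
`T l ≠ 0`).  `D` and `R` are coprime: it is enough that `D l0` and `R l0` are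
(`Polynomial.isCoprime_map`), and an irreducible common divisor `q` divides `t R'` for some
`t > 0` by `numA`, so it divides `R'` (`CharZero`), a contradiction to `R` being separable.  So for
every rational `p` there is a rational `s` with `R ∣ p R' - s D`.
(5) With `p = 1`: `numA` with `g = (ψ l) ^ m` gives
`trOn (ψ l ^ m) (ker (u l)) = trace (ψ l ^ m s(φ l))`, rational and independent of `l`.
(6) Let `π` be rational with `C ∣ π` and `R1 ∣ π - 1` (`R1` and `C` are coprime as `R` is separable)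
and `s2` with `R ∣ π R' - s2 D`.  By `trOn_kr` and `numA`
`trOn (ψ l ^ m) (ker (u l) ⊓ range (u l)) = trOn (ψ l ^ m π(φ l)) (ker (u l)) =
trace (ψ l ^ m s2(φ l))`. -/
theorem numC {I : Type uI} {K : I → Type v} [∀ l, Field (K l)] [∀ l, CharZero (K l)]
    {V : I → Type w} [∀ l, AddCommGroup (V l)] [∀ l, Module (K l) (V l)]
    [∀ l, FiniteDimensional (K l) (V l)] (φ u ψ : ∀ l, Module.End (K l) (V l))
    (h : ∀ l, φ l * u l = u l * φ l) (h1 : ∀ l, ψ l * u l = u l * ψ l)
    (h2 : ∀ l, ψ l * φ l = φ l * ψ l) (hu : ∀ l, IsNilpotent (u l)) (τ : ℕ → ℚ[X] → ℚ)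
    (hτ : ∀ l m (p : ℚ[X]), LinearMap.trace (K l) (V l)
      (ψ l ^ m * aeval (φ l) (p.map (algebraMap ℚ (K l)))) = ((τ m p : ℚ) : K l))
    (hd : ∀ l l', finrank (K l) (LinearMap.ker (u l)) = finrank (K l') (LinearMap.ker (u l')))
    (l0 : I) (hs : Squarefree (kerCP (φ l0) (u l0) (h l0))) (m : ℕ) :
    (∃ a : ℚ, ∀ l, trOn (ψ l ^ m) (LinearMap.ker (u l)) = ((a : ℚ) : K l)) ∧
      ∃ b : ℚ, ∀ l, trOn (ψ l ^ m) (LinearMap.ker (u l) ⊓ LinearMap.range (u l)) =
        ((b : ℚ) : K l) := by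
  classical
  -- (1)
  obtain ⟨T, hT⟩ := Pool.Agent.H62A.exists_charpoly φ (fun j => τ 0 (X ^ j)) (fun l j => by
    have h3 := hτ l 0 (X ^ j)
    rw [pow_zero, one_mul, Polynomial.map_pow, map_X, map_pow, aeval_X] at h3
    exact h3)
  have hTm : T.Monic := by
    have h3 : (T.map (algebraMap ℚ (K l0))).Monic := by
      rw [← hT l0]
      exact LinearMap.charpoly_monic _
    exact monic_of_injective (algebraMap ℚ (K l0)).injective h3
  have hT0 : T ≠ 0 := hTm.ne_zero
  obtain ⟨R, hRm, hRs, ⟨T1, hT1⟩, M, hTR⟩ := exists_rad T hT0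
  have hR0 : R ≠ 0 := hRm.ne_zero
  -- (2)
  have hρm : ∀ l, (kerCP (φ l) (u l) (h l)).Monic := fun l => LinearMap.charpoly_monic _
  have hRρ : ∀ l, R.map (algebraMap ℚ (K l)) ∣ kerCP (φ l) (u l) (h l) := by
    intro l
    obtain ⟨k, hk⟩ := charpoly_dvd_pow (φ l) (u l) (h l) (hu l)
    refine (Separable.squarefree hRs.map).isRadical k _ (Dvd.dvd.trans ?_ hk)
    rw [hT l]
    exact Polynomial.map_dvd _ ⟨T1, hT1⟩
  have hρ0 : kerCP (φ l0) (u l0) (h l0) = R.map (algebraMap ℚ (K l0)) := by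
    refine eq_of_monic_of_associated (hρm l0) (hRm.map _) (associated_of_dvd_dvd ?_ (hRρ l0))
    refine hs.isRadical M _ ((kerCP_dvd (φ l0) (u l0) (h l0)).trans ?_)
    rw [hT l0, ← Polynomial.map_pow]
    exact Polynomial.map_dvd _ hTR
  have hdeg : ∀ l, (kerCP (φ l) (u l) (h l)).natDegree = R.natDegree := by
    intro l
    have h3 : ∀ l, (kerCP (φ l) (u l) (h l)).natDegree = finrank (K l) (LinearMap.ker (u l)) :=
      fun l => LinearMap.charpoly_natDegree _
    rw [h3 l, hd l l0, ← h3 l0, hρ0, natDegree_map]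
  have hρ : ∀ l, kerCP (φ l) (u l) (h l) = R.map (algebraMap ℚ (K l)) := fun l =>
    eq_of_monic_of_dvd_of_natDegree_le (hRm.map _) (hρm l) (hRρ l)
      (by rw [hdeg l, natDegree_map])
  -- (3)
  obtain ⟨R1, hR1m, hR1R, hR1T, a, b, hab⟩ : ∃ R1 : ℚ[X], R1.Monic ∧ R1 ∣ R ∧ R1 ∣ T1 ∧
      ∃ a b : ℚ[X], R1 = a * R + b * T1 := by
    have hG0 : EuclideanDomain.gcd R T1 ≠ 0 := fun h3 =>
      hR0 (EuclideanDomain.gcd_eq_zero_iff.1 h3).1
    have hunit : IsUnit (C (EuclideanDomain.gcd R T1).leadingCoeff⁻¹ : ℚ[X]) :=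
      isUnit_C.2 (isUnit_iff_ne_zero.2 (inv_ne_zero (leadingCoeff_ne_zero.2 hG0)))
    refine ⟨EuclideanDomain.gcd R T1 * C (EuclideanDomain.gcd R T1).leadingCoeff⁻¹,
      monic_mul_leadingCoeff_inv hG0, hunit.mul_right_dvd.2 (EuclideanDomain.gcd_dvd_left _ _),
      hunit.mul_right_dvd.2 (EuclideanDomain.gcd_dvd_right _ _),
      EuclideanDomain.gcdA R T1 * C (EuclideanDomain.gcd R T1).leadingCoeff⁻¹,
      EuclideanDomain.gcdB R T1 * C (EuclideanDomain.gcd R T1).leadingCoeff⁻¹, ?_⟩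
    generalize C (EuclideanDomain.gcd R T1).leadingCoeff⁻¹ = c
    rw [EuclideanDomain.gcd_eq_gcd_ab]
    ring
  have hσ : ∀ l, krCP (φ l) (u l) (h l) = R1.map (algebraMap ℚ (K l)) := fun l =>
    NumC_one (φ l) (u l) (h l) (hu l) (hT l) hRs hT1 hR0 (hρ l) hR1m hR1R hR1T hab
  obtain ⟨Cq, hCq⟩ := hR1R
  -- (4)
  have hρs : ∀ l, (kerCP (φ l) (u l) (h l)).Separable := fun l => by
    rw [hρ l]
    exact hRs.map
  obtain ⟨D, hD⟩ : T ∣ derivative T * R := by
    rw [← map_dvd_map' (algebraMap ℚ (K l0)), Polynomial.map_mul, ← derivative_map, ← hT l0,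
      ← hρ l0]
    obtain ⟨D0, hD0, -⟩ := numA (φ l0) (u l0) (h l0) (hu l0) (hρs l0)
    exact ⟨D0, hD0⟩
  have hnum : ∀ l, (∀ q : (K l)[X], Irreducible q → q ∣ R.map (algebraMap ℚ (K l)) →
      ∃ t : ℕ, 0 < t ∧ q ∣ D.map (algebraMap ℚ (K l)) - (t : (K l)[X]) *
        derivative (R.map (algebraMap ℚ (K l)))) ∧
      ∀ g : Module.End (K l) (V l), g * u l = u l * g → g * φ l = φ l * g → ∀ s p : (K l)[X],
        R.map (algebraMap ℚ (K l)) ∣ p * derivative (R.map (algebraMap ℚ (K l))) -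
          s * D.map (algebraMap ℚ (K l)) →
          LinearMap.trace (K l) (V l) (g * aeval (φ l) s) =
            trOn (g * aeval (φ l) p) (LinearMap.ker (u l)) := by
    intro l
    obtain ⟨D0, hD0, h3, h4⟩ := numA (φ l) (u l) (h l) (hu l) (hρs l)
    have h5 : D0 = D.map (algebraMap ℚ (K l)) := by
      have h6 : T.map (algebraMap ℚ (K l)) ≠ 0 := (hTm.map _).ne_zero
      refine mul_left_cancel₀ h6 ?_
      rw [← Polynomial.map_mul, ← hD, Polynomial.map_mul, ← derivative_map, ← hT l, ← hρ l, hD0]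
    rw [h5, hρ l] at h3 h4
    exact ⟨h3, h4⟩
  have hcop : IsCoprime D R := by
    rw [← isCoprime_map (algebraMap ℚ (K l0))]
    have hRK : R.map (algebraMap ℚ (K l0)) ≠ 0 := (hRm.map _).ne_zero
    refine isCoprime_of_irreducible_dvd (fun h3 => hRK h3.2) fun q hq hq1 hq2 => ?_
    obtain ⟨t, ht, ht'⟩ := (hnum l0).1 q hq hq2
    have h3 : q ∣ (t : (K l0)[X]) * derivative (R.map (algebraMap ℚ (K l0))) := by
      have h4 := dvd_sub hq1 ht'
      rwa [sub_sub_cancel] at h4
    have h5 : IsUnit (t : (K l0)[X]) := by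
      rw [← C_eq_natCast]
      exact isUnit_C.2 (isUnit_iff_ne_zero.2 (Nat.cast_ne_zero.2 ht.ne'))
    have h6 : q ∣ derivative (R.map (algebraMap ℚ (K l0))) := (h5.dvd_mul_left).1 h3
    have h7 : IsCoprime (R.map (algebraMap ℚ (K l0)))
      (derivative (R.map (algebraMap ℚ (K l0)))) := hRs.map
    exact hq.not_isUnit (h7.isUnit_of_dvd' hq2 h6)
  have hsol : ∀ p : ℚ[X], ∃ s : ℚ[X], R ∣ p * derivative R - s * D := by
    intro p
    obtain ⟨a', b', hab'⟩ := hcop
    exact ⟨p * derivative R * a', p * derivative R * b', by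
      linear_combination (-(p * derivative R)) * hab'⟩
  have hgu : ∀ l, ψ l ^ m * u l = u l * ψ l ^ m := fun l => (Commute.pow_left (h1 l) m)
  have hgφ : ∀ l, ψ l ^ m * φ l = φ l * ψ l ^ m := fun l => (Commute.pow_left (h2 l) m)
  have hfin : ∀ (p s : ℚ[X]), R ∣ p * derivative R - s * D → ∀ l,
      trOn (ψ l ^ m * aeval (φ l) (p.map (algebraMap ℚ (K l)))) (LinearMap.ker (u l)) =
        ((τ m s : ℚ) : K l) := by
    intro p s hps l
    rw [← hτ l m s]
    refine ((hnum l).2 (ψ l ^ m) (hgu l) (hgφ l) (s.map (algebraMap ℚ (K l)))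
      (p.map (algebraMap ℚ (K l))) ?_).symm
    rw [derivative_map, ← Polynomial.map_mul, ← Polynomial.map_mul, ← Polynomial.map_sub]
    exact Polynomial.map_dvd _ hps
  constructor
  · -- (5)
    obtain ⟨s1, hs1⟩ := hsol 1
    refine ⟨τ m s1, fun l => ?_⟩
    have h3 := hfin 1 s1 hs1 l
    rw [Polynomial.map_one, map_one, mul_one] at h3
    exact h3
  · -- (6)
    have hsep : (R1 * Cq).Separable := hCq ▸ hRs
    obtain ⟨a', b', hab'⟩ := hsep.isCoprime
    obtain ⟨s2, hs2⟩ := hsol (b' * Cq)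
    refine ⟨τ m s2, fun l => ?_⟩
    rw [← hfin _ s2 hs2 l]
    refine trOn_kr (φ l) (u l) (h l) (hgu l) (hgφ l) (C := Cq.map (algebraMap ℚ (K l))) ?_ ?_ ?_
    · rw [hρ l, hσ l, hCq, Polynomial.map_mul]
    · exact Polynomial.map_dvd _ (dvd_mul_left _ _)
    · rw [hσ l, ← Polynomial.map_one (algebraMap ℚ (K l)), ← Polynomial.map_sub]
      exact Polynomial.map_dvd _ ⟨-a', by linear_combination hab'⟩

end Pool.Agent.H79Q
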