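import Pool.Agent.W_MP_a3c811_h79.Q.AsmA
import Pool.Agent.W_MP_a3c811_h79.Q.NumC

/-! Traces on the kernel and on the image of the nilpotent operator. -/

noncomputable section

set_option linter.unusedSectionVars false

namespace Pool.Agent.H79Q

open Module Polynomial Pool.Agent.WeilH_h6 Pool.Agent.WeilH_h6.VarClass Pool.Agent.H62D
  Pool.Agent.H62A Pool.Agent.H79L Pool.Agent.H62X Pool.Agent.H79E Pool.Agent.H62S
  Pool.Agent.H62S.Strata

universe u v w

section lin

variable {F : Type v} [Field F] {V : Type w} [AddCommGroup V] [Module F V] [FiniteDimensional F V]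
  {V' : Type w} [AddCommGroup V'] [Module F V']

lemma charpoly_eq_of_equiv {U : Submodule F V} {U' : Submodule F V'} [FiniteDimensional F U']
    {φ : Module.End F U} {φ' : Module.End F U'} (e : U ≃ₗ[F] U')
    (he : ∀ x : U, e (φ x) = φ' (e x)) : φ.charpoly = φ'.charpoly := by
  rw [← LinearEquiv.charpoly_conj e φ]
  congr 1
  refine LinearMap.ext fun y => ?_
  have h := he (e.symm y)
  rw [e.apply_symm_apply] at h
  exact h

end lin

/-- traces on the kernel and on the image of a nilpotent endomorphism of stable subspaces -/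
theorem numC_sub {I : Type} {K : I → Type v} [∀ l, Field (K l)] [∀ l, CharZero (K l)]
    {E : I → Type w} [∀ l, AddCommGroup (E l)] [∀ l, Module (K l) (E l)]
    [∀ l, FiniteDimensional (K l) (E l)] (U : ∀ l, Submodule (K l) (E l))
    (φ u ψ : ∀ l, Module.End (K l) (E l)) (sφ : ∀ l, ∀ x ∈ U l, φ l x ∈ U l)
    (su : ∀ l, ∀ x ∈ U l, u l x ∈ U l) (sψ : ∀ l, ∀ x ∈ U l, ψ l x ∈ U l)
    (h : ∀ l x, φ l (u l x) = u l (φ l x)) (h1 : ∀ l x, ψ l (u l x) = u l (ψ l x))
    (h2 : ∀ l x, ψ l (φ l x) = φ l (ψ l x)) (hu : ∀ l, ∃ m : ℕ, ∀ x ∈ U l, (u l ^ m) x = 0)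
    (hτ : ∀ m (p : ℚ[X]), RatFam fun l =>
      trOn (ψ l ^ m * aeval (φ l) (p.map (algebraMap ℚ (K l)))) (U l))
    (hd : ∀ l l', finrank (K l) ((U l).map (u l)) = finrank (K l') ((U l').map (u l')))
    (l0 : I) (hs : ∀ (hk : ∀ x ∈ U l0 ⊓ LinearMap.ker (u l0),
      φ l0 x ∈ U l0 ⊓ LinearMap.ker (u l0)), Squarefree ((φ l0).restrict hk).charpoly) (m : ℕ) :
    RatFam (fun l => trOn (ψ l ^ m) ((U l).map (u l))) ∧
      RatFam fun l => trOn (ψ l ^ m) (U l ⊓ (LinearMap.ker (u l) ⊓ (U l).map (u l))) := by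
  classical
  have pr : ∀ l (x : U l), (((((ψ l).restrict (sψ l)) ^ m) x : U l) : E l) = (ψ l ^ m) x := by
    intro l x
    rw [Module.End.pow_restrict m (sψ l) (pow_mem_of (sψ l) m)]
    rfl
  have pu : ∀ l (j : ℕ) (x : U l),
      (((((u l).restrict (su l)) ^ j) x : U l) : E l) = (u l ^ j) x := by
    intro l j x
    rw [Module.End.pow_restrict j (su l) (pow_mem_of (su l) j)]
    rfl
  -- kernels and images
  have ek : ∀ l, (LinearMap.ker ((u l).restrict (su l))).map (U l).subtype =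
      U l ⊓ LinearMap.ker (u l) := by
    intro l
    ext x
    constructor
    · rintro ⟨y, hy, rfl⟩
      exact ⟨y.2, congrArg Subtype.val (show (u l).restrict (su l) y = 0 from hy)⟩
    · rintro ⟨hx, hx'⟩
      exact ⟨⟨x, hx⟩, Subtype.ext hx', rfl⟩
  have er : ∀ l, (LinearMap.range ((u l).restrict (su l))).map (U l).subtype =
      (U l).map (u l) := by
    intro l
    ext x
    constructor
    · rintro ⟨_, ⟨y, rfl⟩, rfl⟩
      exact ⟨y, y.2, rfl⟩
    · rintro ⟨y, hy, rfl⟩
      exact ⟨⟨u l y, su l y hy⟩, ⟨⟨y, hy⟩, rfl⟩, rfl⟩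
  have ekr : ∀ l, (LinearMap.ker ((u l).restrict (su l)) ⊓
      LinearMap.range ((u l).restrict (su l))).map (U l).subtype =
        U l ⊓ (LinearMap.ker (u l) ⊓ (U l).map (u l)) := by
    intro l
    ext x
    constructor
    · rintro ⟨_, ⟨hy, y, rfl⟩, rfl⟩
      exact ⟨su l y y.2, congrArg Subtype.val
        (show (u l).restrict (su l) ((u l).restrict (su l) y) = 0 from hy), y, y.2, rfl⟩
    · rintro ⟨hx, hx', y, hy, rfl⟩
      exact ⟨⟨u l y, hx⟩, ⟨Subtype.ext hx', ⟨y, hy⟩, rfl⟩, rfl⟩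
  have hfin : ∀ l l', finrank (K l) (U l) = finrank (K l') (U l') := by
    intro l l'
    obtain ⟨a, ha0⟩ := hτ 0 1
    have ha : ∀ l, trOn (ψ l ^ 0 * aeval (φ l) ((1 : ℚ[X]).map (algebraMap ℚ (K l)))) (U l) =
      ((a : ℚ) : K l) := ha0
    have one : ∀ l, ((finrank (K l) (U l) : ℚ) : K l) = ((a : ℚ) : K l) := by
      intro l
      rw [← ha l]
      have h3 : ∀ x ∈ U l, (ψ l ^ 0 * aeval (φ l)
          ((1 : ℚ[X]).map (algebraMap ℚ (K l)))) x ∈ U l := by
        intro x hx
        rw [pow_zero, Polynomial.map_one, map_one, mul_one]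
        exact hx
      rw [trOn_def h3]
      have h4 : (ψ l ^ 0 * aeval (φ l)
          ((1 : ℚ[X]).map (algebraMap ℚ (K l)))).restrict h3 = 1 := by
        refine LinearMap.ext fun x => Subtype.ext ?_
        rw [LinearMap.coe_restrict_apply, pow_zero, Polynomial.map_one, map_one, mul_one]
        rfl
      rw [h4, LinearMap.trace_one, Rat.cast_natCast]
    have h5 := Rat.cast_injective (one l)
    have h6 := Rat.cast_injective (one l')
    exact_mod_cast h5.trans h6.symm
  have hker : ∀ l l', finrank (K l) (LinearMap.ker ((u l).restrict (su l))) =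
      finrank (K l') (LinearMap.ker ((u l').restrict (su l'))) := by
    intro l l'
    have h3 := fun l => LinearMap.finrank_range_add_finrank_ker ((u l).restrict (su l))
    have h4 := fun l => Submodule.finrank_map_subtype_eq (U l)
      (LinearMap.range ((u l).restrict (su l)))
    have h5 := h3 l
    have h6 := h3 l'
    have h7 := h4 l
    have h8 := h4 l'
    rw [er] at h7 h8
    have h9 := hd l l'
    have h10 := hfin l l'
    omega
  choose τ hτ' using hτ
  have hsq : Squarefree (kerCP ((φ l0).restrict (sφ l0)) ((u l0).restrict (su l0))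
      (LinearMap.ext fun x => Subtype.ext (h l0 x))) := by
    have hk : ∀ x ∈ U l0 ⊓ LinearMap.ker (u l0), φ l0 x ∈ U l0 ⊓ LinearMap.ker (u l0) := by
      rintro x ⟨hx, hx'⟩
      refine ⟨sφ l0 x hx, ?_⟩
      have hx0 : u l0 x = 0 := hx'
      change u l0 (φ l0 x) = 0
      rw [← h, hx0, map_zero]
    let e : LinearMap.ker ((u l0).restrict (su l0)) ≃ₗ[K l0]
        (U l0 ⊓ LinearMap.ker (u l0) : Submodule (K l0) (E l0)) :=
      { toFun := fun x => ⟨x.1.1, x.1.2, congrArg Subtype.val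
          (show (u l0).restrict (su l0) x.1 = 0 from x.2)⟩
        invFun := fun y => ⟨⟨y.1, y.2.1⟩, Subtype.ext y.2.2⟩
        map_add' := fun _ _ => rfl
        map_smul' := fun _ _ => rfl
        left_inv := fun _ => rfl
        right_inv := fun _ => rfl }
    unfold kerCP
    rw [charpoly_eq_of_equiv e (φ' := (φ l0).restrict hk) (fun x => rfl)]
    exact hs hk
  obtain ⟨⟨a, ha⟩, ⟨b, hb⟩⟩ := numC (K := K) (V := fun l => U l)
    (fun l => (φ l).restrict (sφ l)) (fun l => (u l).restrict (su l))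
    (fun l => (ψ l).restrict (sψ l)) (fun l => LinearMap.ext fun x => Subtype.ext (h l x))
    (fun l => LinearMap.ext fun x => Subtype.ext (h1 l x))
    (fun l => LinearMap.ext fun x => Subtype.ext (h2 l x))
    (fun l => by
      obtain ⟨j, hj⟩ := hu l
      refine ⟨j, LinearMap.ext fun x => Subtype.ext ?_⟩
      rw [pu]
      exact hj x x.2) τ
    (fun l m p => by
      rw [trace_restrict_mulpoly (sψ l) (sφ l)]
      exact hτ' m p l) hker l0 hsq m
  have stk : ∀ l, ∀ x ∈ LinearMap.ker ((u l).restrict (su l)),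
      (((ψ l).restrict (sψ l)) ^ m) x ∈ LinearMap.ker ((u l).restrict (su l)) := by
    intro l
    refine pow_mem_of (fun x hx => ?_) m
    have hx0 : (u l).restrict (su l) x = 0 := hx
    refine Subtype.ext ?_
    have h3 : u l x = 0 := congrArg Subtype.val hx0
    change u l (ψ l x) = 0
    rw [← h1, h3, map_zero]
  have stkr : ∀ l, ∀ x ∈ LinearMap.ker ((u l).restrict (su l)) ⊓
      LinearMap.range ((u l).restrict (su l)), (((ψ l).restrict (sψ l)) ^ m) x ∈
        LinearMap.ker ((u l).restrict (su l)) ⊓ LinearMap.range ((u l).restrict (su l)) := by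
    intro l
    refine pow_mem_of (fun x hx => ?_) m
    obtain ⟨hx1, y, rfl⟩ := hx
    refine ⟨?_, (ψ l).restrict (sψ l) y, Subtype.ext (h1 l y).symm⟩
    have h3 : u l (u l y) = 0 := congrArg Subtype.val
      (show (u l).restrict (su l) ((u l).restrict (su l) y) = 0 from hx1)
    refine Subtype.ext ?_
    change u l (ψ l (u l y)) = 0
    rw [← h1, h3, map_zero]
  have A : RatFam fun l => trOn (ψ l ^ m) (U l ⊓ LinearMap.ker (u l)) := by
    refine ⟨a, fun l => ?_⟩
    change trOn (ψ l ^ m) (U l ⊓ LinearMap.ker (u l)) = _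
    rw [← ha l, ← ek, trOn_map_inj (U l).subtype (stk l) (fun x _ => pr l x)
      (fun x _ hx => Subtype.ext hx)]
  constructor
  · have A1 : RatFam fun l => trOn (ψ l ^ m * aeval (φ l)
        ((1 : ℚ[X]).map (algebraMap ℚ (K l)))) (U l) := ⟨τ m 1, hτ' m 1⟩
    refine (A1.sub A).of_eq fun l => ?_
    have h3 := trOn_map (u l) (U := U l) (T := ψ l ^ m) (T' := ψ l ^ m) (pow_mem_of (sψ l) m)
      (fun x _ => pow_comm_app (LinearMap.ext fun x => h1 l x) m x)
    rw [Polynomial.map_one, map_one, mul_one, h3, add_sub_cancel_left]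
  · refine ⟨b, fun l => ?_⟩
    change trOn (ψ l ^ m) (U l ⊓ (LinearMap.ker (u l) ⊓ (U l).map (u l))) = _
    rw [← hb l, ← ekr, trOn_map_inj (U l).subtype (stkr l) (fun x _ => pr l x)
      (fun x _ hx => Subtype.ext hx)]

end Pool.Agent.H79Q
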