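import Pool.Agent.W_MP_a3c811_h79.Q.RealD

/-! Independence from the traces on the image and on the kernel of the nilpotent operator. -/

noncomputable section

set_option linter.unusedSectionVars false

namespace Pool.Agent.H79Q

open Module Polynomial Pool.Agent.WeilH_h6 Pool.Agent.WeilH_h6.VarClass Pool.Agent.H62D
  Pool.Agent.H62A Pool.Agent.H79L Pool.Agent.H62X Pool.Agent.H79E Pool.Agent.H62S
  Pool.Agent.H62S.Strata

universe u v w

variable {k : Type u} [Field k] {𝒱 : VarClass k} {I : Type} {K : I → Type v} [∀ l, Field (K l)]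
  [∀ l, CharZero (K l)] {W : ∀ l, Weil.{u, v, w} 𝒱 (K l)} {X : Strata W}

/-- the image of `A` under `u` -/
abbrev XIm (X : Strata W) (l : I) (Z e : Module.End (K l) (Tot (W l) X.EY)) :
    Submodule (K l) (Tot (W l) X.EY) := (XAm X l Z e).map (xuop X l)

/-- the intersection of the kernel and the image of `u` on `A` -/
abbrev XKi (X : Strata W) (l : I) (Z e : Module.End (K l) (Tot (W l) X.EY)) :
    Submodule (K l) (Tot (W l) X.EY) :=
  XAm X l Z e ⊓ (LinearMap.ker (xuop X l) ⊓ (XAm X l Z e).map (xuop X l))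

section real

variable [DecidableEq X.J] (hW : Compatible W) (hK : ∀ c n, KunnethMotivic W (X.EY c) n)
  {M : X.Motive} {ε ψ : ∀ l, TEnd (W l) X.Y}
  {c : ℤ → ℚ} (hM : M.Via ε ψ c) {P Q : ℚ[X]} (F : FitX X hW P Q)
  {BY : ∀ l, Subring (Module.End (K l) (Tot (W l) X.Y))} (hY : ∀ l, X.YRing l (BY l))
  (hc : ∀ l, ∃ Z', XCore X l (BY l) (hY l) (ZE X hW P l) Z') (hL : ∀ l, X.HardLefschetz l)

include hW hK hM F hY hc hL

/-- the traces on the graded parts -/
theorem tr_gr_fam (p w : ℤ) (m : ℕ) : ∃ r : ∀ l, K l, RatFam r ∧ ∀ l,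
    trOn (M.φ l ^ m) (XGr M l (X.lift l 0 (ε l)) p w) = r l -
      ((c (w - p + X.n) : ℚ) : K l) ^ m *
        ((if (p + 1 = 0 ∧ w + 1 = 1) ∨ (p + 1 = 1 ∧ w + 1 = 0) then
          trOn (X.lift l 0 (ψ l) ^ m) (XIm X l (ZE X hW P l) (X.lift l 0 (ε l))) else 0) +
        (if (p = 0 ∧ w = 1) ∨ (p = 1 ∧ w = 0) then
          trOn (X.lift l 0 (ψ l) ^ m) (XIm X l (ZE X hW P l) (X.lift l 0 (ε l))) else 0)) := by
  obtain ⟨r1, hr1, h1⟩ := ratFam_bb hW hK hM F hY hc hL (p + 1) (w + 1) m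
  obtain ⟨r2, hr2, h2⟩ := ratFam_bb hW hK hM F hY hc hL p w m
  have h3 : RatFam fun l => trOn (X.lift l 0 (ψ l) ^ m) (XEe X l (X.lift l 0 (ε l)) p w) :=
    ratFam_ee hW hK hM.compat.1 hM.compat.2 (fun l => (rl_of hW hM l).ee)
      (fun l => (rl_of hW hM l).eψ) p w m
  refine ⟨fun l => ((c (w - p + X.n) : ℚ) : K l) ^ m *
    (trOn (X.lift l 0 (ψ l) ^ m) (XEe X l (X.lift l 0 (ε l)) p w) - r1 l - r2 l),
    ((RatFam.const _).pow m).mul ((h3.sub hr1).sub hr2), fun l => ?_⟩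
  obtain ⟨D, hP⟩ := (hY l).pol hW
  have h4 := (rl_of hW hM l).tr_gr hP.bi p w m
  rw [h4, show Bb (K := K l) (E := Tot (W l) X.EY) (X.ed l) X.n (sP X l) (tP X l)
    (X.lift l 0 (ε l)) (p + 1) (w + 1) = XBb X l (X.lift l 0 (ε l)) (p + 1) (w + 1) from rfl,
    show Bb (K := K l) (E := Tot (W l) X.EY) (X.ed l) X.n (sP X l) (tP X l)
    (X.lift l 0 (ε l)) p w = XBb X l (X.lift l 0 (ε l)) p w from rfl, h1 l, h2 l]
  ring

section gam

variable (hγ : ∀ m : ℕ, RatFam fun l =>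
    trOn (X.lift l 0 (ψ l) ^ m) (XIm X l (ZE X hW P l) (X.lift l 0 (ε l))))
include hγ

theorem ratFam_gr (p w : ℤ) (m : ℕ) :
    RatFam fun l => trOn (M.φ l ^ m) (XGr M l (X.lift l 0 (ε l)) p w) := by
  obtain ⟨r, hr, h1⟩ := tr_gr_fam hW hK hM F hY hc hL p w m
  refine (hr.sub (((RatFam.const (c (w - p + X.n))).pow m).mul
    (((hγ m).ite (p := (p + 1 = 0 ∧ w + 1 = 1) ∨ (p + 1 = 1 ∧ w + 1 = 0)) RatFam.zero).add
      ((hγ m).ite (p := (p = 0 ∧ w = 1) ∨ (p = 1 ∧ w = 0)) RatFam.zero)))).of_eq fun l => ?_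
  rw [h1 l]

theorem ratFam_ker (hδ : ∀ m : ℕ, RatFam fun l =>
    trOn (X.lift l 0 (ψ l) ^ m) (XKi X l (ZE X hW P l) (X.lift l 0 (ε l)))) (p w : ℤ) (m : ℕ) :
    RatFam fun l => trOn (M.φ l ^ m)
      (XGr M l (X.lift l 0 (ε l)) p w ⊓ LinearMap.ker (M.ν l)) := by
  rcases lt_or_ge p 0 with hp | hp
  · refine (RatFam.ite (p := p = -1 ∧ w = 0)
      (((RatFam.const (c (1 + X.n))).pow m).mul (hδ m)) RatFam.zero).of_eq fun l => ?_
    obtain ⟨D, hP⟩ := (hY l).pol hW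
    obtain ⟨Z', hcl⟩ := hc l
    exact (rl_of hW hM l).tr_ker_neg hP (har_strata (hY l) hW F) hcl
      (fun p m => ei_lef (hL l p m)) (lift_Z hW (motCompat_com hM.compat.1 l) F)
      (lift_Z hW (motCompat_com hM.compat.2 l) F) (sub_Z hW F) hp m
  · refine ((ratFam_gr hW hK hM F hY hc hL hγ p w m).sub
      (((RatFam.const M.q).pow m).mul (ratFam_gr hW hK hM F hY hc hL hγ (p + 2) w m))).of_eq
      fun l => ?_
    obtain ⟨D, hP⟩ := (hY l).pol hW
    obtain ⟨Z', hcl⟩ := hc l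
    have R := rl_of hW hM l
    exact R.tr_ker_sur hP.bi m (R.nu_sur hP (har_strata (hY l) hW F) hcl
      (lift_Z hW (motCompat_com hM.compat.1 l) F) (sub_Z hW F) hp)

omit hγ in
lemma charpoly_fam {U : ∀ l, Submodule (K l) (M.V l)} (hst : ∀ l, ∀ x ∈ U l, M.φ l x ∈ U l)
    (h : ∀ m : ℕ, RatFam fun l => trOn (M.φ l ^ m) (U l)) :
    ∃ A : ℚ[X], ∀ l, CharpolyOn (M.φ l) (U l) A := by
  choose τ hτ using h
  obtain ⟨A, hA⟩ := H62A.exists_charpoly (fun l => (M.φ l).restrict (hst l)) τ fun l m => by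
    rw [Module.End.pow_restrict m (hst l) (pow_mem_of (hst l) m)]
    rw [← trOn_def (pow_mem_of (hst l) m)]
    exact hτ m l
  exact ⟨A, fun l => ⟨hst l, hA l⟩⟩

/-- independence -/
theorem indep_of (hδ : ∀ m : ℕ, RatFam fun l =>
    trOn (X.lift l 0 (ψ l) ^ m) (XKi X l (ZE X hW P l) (X.lift l 0 (ε l)))) : M.Independence := by
  intro w'
  obtain ⟨w, rfl⟩ : ∃ w : ℤ, w' = w + X.n := ⟨w' - X.n, by ring⟩
  have key1 : ∀ m : ℕ, RatFam fun l => trOn (M.φ l ^ m) (M.deg l (w + X.n)) := by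
    intro m
    refine (RatFam.sum (insert (-1) (insert 1 (Finset.univ.image X.epos)))
      (f := fun p l => trOn (M.φ l ^ m) (XGr M l (X.lift l 0 (ε l)) p w))
      (fun p => ratFam_gr hW hK hM F hY hc hL hγ p w m)).of_eq fun l => ?_
    obtain ⟨D, hP⟩ := (hY l).pol hW
    obtain ⟨σ, hσ⟩ := sg_of hW M l
    rw [deg_eq]
    exact hσ.tr_deg hP.bi (rl_of hW hM l) w m
  have key2 : ∀ m : ℕ, RatFam fun l => trOn (M.φ l ^ m) (M.inv l (w + X.n)) := by
    intro m
    refine (RatFam.sum (insert (-1) (insert 1 (Finset.univ.image X.epos)))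
      (f := fun p l => trOn (M.φ l ^ m) (XGr M l (X.lift l 0 (ε l)) p w ⊓
        LinearMap.ker (M.ν l)))
      (fun p => ratFam_ker hW hK hM F hY hc hL hγ hδ p w m)).of_eq fun l => ?_
    obtain ⟨D, hP⟩ := (hY l).pol hW
    obtain ⟨σ, hσ⟩ := sg_of hW M l
    have e1 : M.inv l (w + X.n) = M.deg l (w + X.n) ⊓ LinearMap.ker (M.ν l) := rfl
    rw [e1, deg_eq]
    exact hσ.tr_inv hP.bi (rl_of hW hM l) w m
  obtain ⟨A, hA⟩ := charpoly_fam hW hK hM F hY hc hL (U := fun l => M.deg l (w + X.n))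
    (fun l x hx => by
      obtain ⟨D, hP⟩ := (hY l).pol hW
      obtain ⟨σ, hσ⟩ := sg_of hW M l
      rw [deg_eq] at hx ⊢
      have := hσ.deg_stab hP.bi (rl_of hW hM l) w (gr_le hP.bi (rl_of hW hM l)) 1 x hx
      rwa [pow_one] at this) key1
  obtain ⟨B, hB⟩ := charpoly_fam hW hK hM F hY hc hL (U := fun l => M.inv l (w + X.n))
    (fun l x hx => by
      obtain ⟨D, hP⟩ := (hY l).pol hW
      obtain ⟨σ, hσ⟩ := sg_of hW M l
      have e1 : M.inv l (w + X.n) = M.deg l (w + X.n) ⊓ LinearMap.ker (M.ν l) := rfl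
      rw [e1, deg_eq] at hx ⊢
      have := hσ.inv_stab hP.bi (rl_of hW hM l) w 1 x hx
      rwa [pow_one] at this) key2
  exact ⟨A, B, fun l => ⟨hA l, hB l⟩⟩

end gam

/-- the rank of the nilpotent operator -/
theorem rank_of (hd : ∀ l l', M.dimDeg l X.n = M.dimDeg l' X.n) (l l' : I) :
    finrank (K l) (XIm X l (ZE X hW P l) (X.lift l 0 (ε l))) =
      finrank (K l') (XIm X l' (ZE X hW P l') (X.lift l' 0 (ε l'))) := by
  classical
  set P' : Finset ℤ := insert (-1) (insert 1 (Finset.univ.image X.epos)) with hP'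
  choose r hr h1 using fun p => tr_gr_fam hW hK hM F hY hc hL p 0 0
  have h2 : ∀ l, (finrank (K l) (M.deg l X.n) : K l) = (∑ p ∈ P', r p l) -
      2 * (finrank (K l) (XIm X l (ZE X hW P l) (X.lift l 0 (ε l))) : K l) := by
    intro l
    obtain ⟨D, hP⟩ := (hY l).pol hW
    obtain ⟨σ, hσ⟩ := sg_of hW M l
    have one : ∀ {V : Type w} [AddCommGroup V] [Module (K l) V] [FiniteDimensional (K l) V]
        (T : Module.End (K l) V) (U : Submodule (K l) V),
        trOn (T ^ 0) U = (finrank (K l) U : K l) := by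
      intro V _ _ _ T U
      have h3 : ∀ x ∈ U, (T ^ 0) x ∈ U := fun x hx => by rw [pow_zero]; exact hx
      rw [trOn_def h3]
      have h4 : (T ^ 0).restrict h3 = 1 := LinearMap.ext fun x => Subtype.ext (by
        rw [LinearMap.coe_restrict_apply, pow_zero]; rfl)
      rw [h4, LinearMap.trace_one]
    have h3 := hσ.tr_deg hP.bi (rl_of hW hM l) 0 0
    have h4 : Dg (K := K l) (E := Tot (W l) X.EY) (X.ed l) X.n (tP X l) (M.u l) 0 =
        M.deg l X.n := by
      rw [← deg_eq, zero_add]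
    rw [h4, one] at h3
    rw [h3]
    have h5 : ∀ p ∈ P', trOn (M.φ l ^ 0) (XGr M l (X.lift l 0 (ε l)) p 0) = r p l -
        ((if p = -1 then (finrank (K l) (XIm X l (ZE X hW P l) (X.lift l 0 (ε l))) : K l)
          else 0) + (if p = 1 then
            (finrank (K l) (XIm X l (ZE X hW P l) (X.lift l 0 (ε l))) : K l) else 0)) := by
      intro p _
      rw [h1 p l, pow_zero (((c (0 - p + X.n) : ℚ) : K l)), one_mul, one]
      congr 2
      · by_cases hp : p = -1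
        · subst hp
          rw [if_pos (Or.inl ⟨by norm_num, by norm_num⟩), if_pos rfl]
        · rw [if_neg (by omega), if_neg hp]
      · by_cases hp : p = 1
        · subst hp
          rw [if_pos (Or.inr ⟨rfl, rfl⟩), if_pos rfl]
        · rw [if_neg (by omega), if_neg hp]
    refine (Finset.sum_congr rfl h5).trans ?_
    rw [Finset.sum_sub_distrib, Finset.sum_add_distrib, Finset.sum_ite_eq', Finset.sum_ite_eq',
      if_pos (Finset.mem_insert_self _ _),
      if_pos (Finset.mem_insert_of_mem (Finset.mem_insert_self _ _))]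
    ring
  choose a ha using hr
  have h3 : ∀ l, ((finrank (K l) (M.deg l X.n) : ℚ) : K l) = (((∑ p ∈ P', a p) -
      2 * (finrank (K l) (XIm X l (ZE X hW P l) (X.lift l 0 (ε l))) : ℚ) : ℚ) : K l) := by
    intro l
    push_cast
    rw [h2 l]
    congr 1
    exact Finset.sum_congr rfl fun p _ => ha p l
  have h4 := Rat.cast_injective (h3 l)
  have h5 := Rat.cast_injective (h3 l')
  have h6 : (finrank (K l) (M.deg l X.n) : ℚ) = finrank (K l') (M.deg l' X.n) := by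
    exact_mod_cast hd l l'
  have h7 : (finrank (K l) (XIm X l (ZE X hW P l) (X.lift l 0 (ε l))) : ℚ) =
      finrank (K l') (XIm X l' (ZE X hW P l') (X.lift l' 0 (ε l'))) := by
    linarith
  exact_mod_cast h7

end real

end Pool.Agent.H79Q
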