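import Pool.Agent.W_MP_a3c811_h79.MF.TrS
import Pool.Agent.W_MP_a3c811_h79.Q.AsmB
import Pool.Agent.W_MP_a3c811_h79.Q.AsmC
import Pool.Agent.W_MP_a3c811_h79.Q.RealE

/-! Independence without weight monodromy. -/

noncomputable section

set_option linter.unusedSectionVars false

namespace Pool.Agent.H79Q

open Module Polynomial Pool.Agent.WeilH_h6 Pool.Agent.WeilH_h6.VarClass Pool.Agent.H62D
  Pool.Agent.H62A Pool.Agent.H79L Pool.Agent.H62X Pool.Agent.H79E Pool.Agent.H62S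
  Pool.Agent.H62S.Strata

universe u v w

variable {k : Type u} [Field k] {𝒱 : VarClass k} {I : Type} {K : I → Type v} [∀ l, Field (K l)]
  [∀ l, CharZero (K l)] {W : ∀ l, Weil.{u, v, w} 𝒱 (K l)} {X : Strata W}

/-- the core exists -/
theorem core_of [DecidableEq X.J] (hW : Compatible W) {P Q : ℚ[X]} (F : FitX X hW P Q) (l : I)
    {G : Set (TEnd (W l) X.Y)} (hG : X.CompatibleWith l G) (hL : X.HardLefschetz l)
    (hN : ∀ i, 2 ≤ i → X.MonoAt l X.n i ∨ (i = 2 ∧ X.Good l G 2 0))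
    (hE : ∀ i j, 1 ≤ i → 1 ≤ j → i + j ≤ X.n → X.Good l G i j) :
    ∃ Z', XCore X l (X.sring l hW G) (yring_sring hW hG.com) (ZE X hW P l) Z' := by
  have hY := yring_sring hW hG.com
  obtain ⟨D, hP⟩ := hY.pol hW
  refine exists_core hP (fun r u hu => hY.rat_mem r hu) (fun p m => ei_lef (hL p m)) ?_ ?_
    (har_strata hY hW F)
  · intro m hm
    rcases hN m hm with h2 | ⟨h2, h3⟩
    · rw [show (X.n : ℤ) = 0 + X.n by ring] at h2
      exact Or.inl (ei_mono h2)
    · exact Or.inr ⟨h2, gd_goodS hW hG h3⟩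
  · intro i j hi hj
    by_cases hij : i + j ≤ X.n
    · exact gd_goodS hW hG (hE i j hi hj hij)
    · exact gd_gt hY hW (not_le.1 hij)

section fam

variable [DecidableEq X.J] (hW : Compatible W) (hK : ∀ c n, KunnethMotivic W (X.EY c) n)
  {M : X.Motive} {ε φ ψ : ∀ l, TEnd (W l) X.Y}
  {c : ℤ → ℚ} (hM : M.Via ε ψ c) (hφ : X.MotCompat φ) (hφε : X.ComFam φ ε)
  (hφψ : X.ComFam φ ψ) {P Q : ℚ[X]} (F : FitX X hW P Q)
  {BY : ∀ l, Subring (Module.End (K l) (Tot (W l) X.Y))} (hY : ∀ l, X.YRing l (BY l))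
  (hc : ∀ l, ∃ Z', XCore X l (BY l) (hY l) (ZE X hW P l) Z') (hL : ∀ l, X.HardLefschetz l)
  (hI : ∀ l, X.IndexAt l) (hd : ∀ l l', M.dimDeg l X.n = M.dimDeg l' X.n) (l0 : I)
  (hs : X.SimpleAt l0 (ε l0) (φ l0))

include hW hK hM hφ hφε hφψ F hY hc hL hI hd hs

theorem traces (m : ℕ) :
    (RatFam fun l => trOn (X.lift l 0 (ψ l) ^ m)
      (XIm X l (ZE X hW P l) (X.lift l 0 (ε l)))) ∧
    RatFam fun l => trOn (X.lift l 0 (ψ l) ^ m)
      (XKi X l (ZE X hW P l) (X.lift l 0 (ε l))) := by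
  have hψε : X.ComFam ψ ε := fun l x => (hM.comm.1 l x).symm
  have hεi : ∀ l x, X.lift l 0 (ε l) (X.lift l 0 (ε l) x) = X.lift l 0 (ε l) x :=
    fun l => (rl_of hW hM l).ee
  have hYl := fun l => yring_sring (l := l) hW (com_empty (X := X))
  choose D hP using fun l => (hY l).pol hW
  choose D0 C using fun l => vc_of hW F hM.compat.1 hεi l (hYl l) (hI l)
  choose Z' hc' using hc
  have eφ := fun l => ec_lift hW (motCompat_com hφ l)
  have eψ := fun l => ec_lift hW (motCompat_com hM.compat.2 l)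
  have im : ∀ l, XIm X l (ZE X hW P l) (X.lift l 0 (ε l)) =
      (XVt X l (ZE X hW P l) (X.lift l 0 (ε l))).map (xuop X l) :=
    fun l => (C l).map_u (hP l) (hc' l)
  have ki : ∀ l, XKi X l (ZE X hW P l) (X.lift l 0 (ε l)) =
      XVt X l (ZE X hW P l) (X.lift l 0 (ε l)) ⊓ (LinearMap.ker (xuop X l) ⊓
        (XVt X l (ZE X hW P l) (X.lift l 0 (ε l))).map (xuop X l)) :=
    fun l => (C l).ki_u (hP l) (hc' l)
  have key := numC_sub (K := K) (E := fun l => Tot (W l) X.EY)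
    (fun l => XVt X l (ZE X hW P l) (X.lift l 0 (ε l))) (fun l => X.lift l 0 (φ l))
    (fun l => xuop X l) (fun l => X.lift l 0 (ψ l))
    (fun l x hx => (rs_of hW F hM.compat.1 hφ hφε l (hYl l)).vt (C l) hx)
    (fun l x hx => (C l).vt_u (hP l) (hc' l) hx)
    (fun l x hx => (rs_of hW F hM.compat.1 hM.compat.2 hψε l (hYl l)).vt (C l) hx)
    (fun l x => (eφ l).uop x) (fun l x => (eψ l).uop x)
    (fun l x => (lift_comm hφ hM.compat.2 hφψ l x).symm)
    (fun l => by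
      obtain ⟨j, hj⟩ := (hc' l).nil (hP l) (e := X.lift l 0 (ε l))
      exact ⟨j, fun x hx => hj x hx.1⟩)
    (fun m p => ratFam_vt hW F hM.compat.1 hφ hM.compat.2 hφε hψε hεi hK hI m p)
    (fun l l' => by
      have h1 := rank_of hW hK hM F hY (fun l => ⟨Z' l, hc' l⟩) hL hd l l'
      rwa [im, im] at h1) l0
    (fun hk => by
      obtain ⟨U', hU', hst, hfd, hsq⟩ := hs
      have hmem : ∀ x ∈ XVt X l0 (ZE X hW P l0) (X.lift l0 0 (ε l0)) ⊓
          LinearMap.ker (xuop X l0), X.slice l0 0 x ∈ U' := by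
        rintro x ⟨hx, hx'⟩
        exact (hU' _).2 (trans_of hW F hM.compat.1 hx ((hc' l0).ker_u (hP l0)
          (fun p m => ei_lef (hL l0 p m)) hx.1 hx'))
      let e : (XVt X l0 (ZE X hW P l0) (X.lift l0 0 (ε l0)) ⊓
          LinearMap.ker (xuop X l0) : Submodule (K l0) (Tot (W l0) X.EY)) ≃ₗ[K l0] U' :=
        LinearEquiv.ofBijective (((X.slice l0 0) ∘ₗ Submodule.subtype _).codRestrict _
          fun x => hmem x x.2) ⟨by
            rw [← LinearMap.ker_eq_bot, LinearMap.ker_eq_bot']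
            intro x hx
            have h1 : X.slice l0 0 (x : Tot (W l0) X.EY) = 0 := congrArg Subtype.val hx
            refine Subtype.ext ?_
            have h2 := ins_slice_eprim hW x.2.1.1.1
            rw [← h2, h1, map_zero]
            rfl, by
            intro y
            obtain ⟨h1, h2, h3⟩ := of_trans hW F hM.compat.1 ((hU' _).1 y.2)
            refine ⟨⟨X.ins l0 0 y, h1, ?_⟩, Subtype.ext h3⟩
            change X.eNd l0 (X.ed l0 (X.eLam l0 (X.ed l0 (X.ins l0 0 y)))) = 0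
            rw [h2, map_zero, map_zero, map_zero]⟩
      have h5 := charpoly_eq_of_equiv e (φ := (X.lift l0 0 (φ l0)).restrict hk)
        (φ' := (φ l0).restrict hst) fun x => Subtype.ext
          (slice_com hW (motCompat_com hφ l0) 0 x.1)
      rw [h5]
      exact hsq) m
  constructor
  · refine key.1.of_eq fun l => ?_
    rw [im]
  · refine key.2.of_eq fun l => ?_
    rw [ki]

end fam

/-- Independence without weight monodromy. -/
theorem indepQ (hW : Compatible W) (X : Strata W) (M : X.Motive)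
    (ε φ ψ : ∀ l, TEnd (W l) X.Y) (c : ℤ → ℚ) (hM : M.Via ε ψ c) (hφ : X.MotCompat φ)
    (hc : X.ComFam φ ε ∧ X.ComFam φ ψ) (hL : ∀ l, X.HardLefschetz l)
    (G : ∀ l, Set (TEnd (W l) X.Y)) (hG : ∀ l, X.CompatibleWith l (G l))
    (hN : ∀ l i, 2 ≤ i → X.MonoAt l X.n i ∨ (i = 2 ∧ X.Good l (G l) 2 0))
    (hE : ∀ l i j, 1 ≤ i → 1 ≤ j → i + j ≤ X.n → X.Good l (G l) i j)
    (hI : ∀ l, X.IndexAt l) (hd : ∀ l l', M.dimDeg l X.n = M.dimDeg l' X.n) (l0 : I)
    (hs : X.SimpleAt l0 (ε l0) (φ l0)) : M.Independence := by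
  classical
  have hne : Nonempty I := ⟨l0⟩
  have hK := (X.toLefschetz hW).kunneth hW
  obtain ⟨χ, hχ⟩ := (X.toLefschetz hW).exists_char hW hK
  obtain ⟨P, Q, F⟩ := hχ.exists_fitting hW
  have hY : ∀ l, X.YRing l (X.sring l hW (G l)) := fun l => yring_sring hW (hG l).com
  have hcore : ∀ l, ∃ Z', XCore X l (X.sring l hW (G l)) (hY l) (ZE X hW P l) Z' :=
    fun l => core_of hW F l (hG l) (hL l) (hN l) (hE l)
  have h := traces hW hK hM hφ hc.1 hc.2 F hY hcore hL hI hd l0 hs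
  exact indep_of hW hK hM F hY hcore hL (fun m => (h m).1) (fun m => (h m).2)

end Pool.Agent.H79Q
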