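import Pool.Agent.W_a3c811_h62w.StCoh

/-! Definitions for the statement: motives cut out by an endomorphism of the cohomology of the strata,
simple eigenvalues on the transcendental cocycles. -/

noncomputable section

namespace Pool.Agent.H79S

open Pool.Agent.WeilH_h6 Pool.Agent.WeilH_h6.VarClass Pool.Agent.H62A Pool.Agent.H62S

universe u v w

section linear

variable {K : Type v} [Field K] {E : Type w} [AddCommGroup E] [Module K E] (B : E → E → K)
  (L D D' : E →ₗ[K] E)

/-- If `S` maps `P` to `P`, is self-adjoint there for the form `B (x, L^j y)`, has square zero and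
kills the common zeros of `D` and `D'` in `P`, then `S = 0` on `P`. -/
def SqOn (S : E →ₗ[K] E) (P : Submodule K E) (j : ℕ) : Prop :=
  MapsOn S P P → (∀ x ∈ P, ∀ y ∈ P, B (S x) ((L ^ j) y) = B x ((L ^ j) (S y))) →
    (∀ x ∈ P, S (S x) = 0) → (∀ x ∈ P, D x = 0 → D' x = 0 → S x = 0) → ∀ x ∈ P, S x = 0

/-- `B (x, x)` is not zero for the nonzero `x` in `P` with the property `A`. -/
def NoIso (A : E → Prop) (P : Submodule K E) : Prop := ∀ x ∈ P, A x → B x x = 0 → x = 0

/-- `F x = a T x` for all `x` in `U`. -/
def ScaledOn (F T : E →ₗ[K] E) (U : Submodule K E) (a : K) : Prop := ∀ x ∈ U, F x = a • T x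

/-- `S S = S`. -/
def Idem (S : E →ₗ[K] E) : Prop := ∀ x, S (S x) = S x

/-- The dimension of `U`. -/
def dimOf (U : Submodule K E) : ℕ := Module.finrank K U

/-- The vectors `x` of `P` with `ε x = x`, `D x = D' x = 0` and `B (x, z) = 0` for all `z` with the
property `A` form a subspace which is stable under `S`, and the characteristic polynomial of `S` on
it is squarefree. -/
def SqfreeOn (ε : E →ₗ[K] E) (A : E → Prop) (S : E →ₗ[K] E) (P : Submodule K E) : Prop :=
  ∃ U : Submodule K E,
    (∀ x, x ∈ U ↔ x ∈ P ∧ ε x = x ∧ D x = 0 ∧ D' x = 0 ∧ ∀ z, A z → B x z = 0) ∧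
      ∃ (h : MapsOn S U U) (_ : FiniteDimensional K U), Squarefree (S.restrict h).charpoly

end linear

section single

variable {k : Type u} [Field k] {𝒱 : VarClass k} {K : Type v} [Field K] (W : Weil.{u, v, w} 𝒱 K)
  {J : Type} (Y : J → 𝒱.Obj)

/-- `x` is the class of a cycle with rational coefficients. -/
def CycClass (x : Tot W Y) : Prop := ∃ z : ∀ a, TCyc (Y a), ∀ a, x a = clT W (z a)

variable [Fintype J]

/-- `φ` respects levels and degrees and commutes with `res`, `gys` and `L`. -/
def Compat (lev : J → ℕ) (res gys L φ : TEnd W Y) : Prop :=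
  LevBidegree W Y lev 0 0 φ ∧ ComT W Y φ res ∧ ComT W Y φ gys ∧ ComT W Y φ L

/-- `ε`, `φ`, `ψ` respect levels and degrees, commute with `res`, `gys` and `L` and with each other,
and `ε ε = ε`. -/
def CutAt (lev : J → ℕ) (res gys L ε φ ψ : TEnd W Y) : Prop :=
  (Compat W Y lev res gys L ε ∧ Compat W Y lev res gys L φ ∧ Compat W Y lev res gys L ψ) ∧
    Idem ε ∧ ComT W Y ε ψ ∧ ComT W Y φ ε ∧ ComT W Y φ ψ

/-- `S` commutes with all members of `G`. -/
def ComAll (G : Set (TEnd W Y)) (S : TEnd W Y) : Prop := ∀ φ ∈ G, ComT W Y φ S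

end single

variable {k : Type u} [Field k] {𝒱 : VarClass k} {I : Type} {K : I → Type v} [∀ l, Field (K l)]
  {W : ∀ l, Weil.{u, v, w} 𝒱 (K l)} (X : Strata W)

/-- `ε`, `φ`, `ψ` are motivic endomorphisms of the sum of the `H(Y a)` which respect the structure
and commute with each other, and `ε ε = ε`. -/
def Cut (ε φ ψ : ∀ l, TEnd (W l) X.Y) : Prop :=
  (Motivic W X.Y ε ∧ Motivic W X.Y φ ∧ Motivic W X.Y ψ) ∧
    ∀ l, CutAt (W l) X.Y X.lev (X.res l) (X.gys l) (X.L l) (ε l) (φ l) (ψ l)

/-- The motive is cut out by the endomorphism `ε` of the sum of the `H(Y a)`, and its Frobenius is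
`c j` times `ψ` on the parts of weight `j` of the `E_1`-term. -/
def CutBy {X : Strata W} (M : X.Motive) (ε ψ : ∀ l, TEnd (W l) X.Y) (c : ℤ → ℚ) : Prop :=
  ∀ l, M.e l = X.lift l 0 (ε l) ∧
    ∀ w p, ScaledOn (M.F l) (X.lift l 0 (ψ l)) (X.part l w p) (c (w - p))

/-- The dimension of `V^n`, the realisation in the middle degree, in the theory `l`. -/
def dimV {X : Strata W} (M : X.Motive) (l : I) : ℕ := dimOf (M.deg l X.n)

variable (l : I)

/-- All members of `G` respect levels and degrees and commute with `res`, `gys` and `L`, for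
instance the powers of the normalised Frobenius, which is `q ^ (- ⌈m / 2⌉)` times Frobenius on
`H^m`, automorphisms, or the monodromy of a family of such strata. -/
def CompatSet (G : Set (TEnd (W l) X.Y)) : Prop :=
  ∀ φ ∈ G, Compat (W l) X.Y X.lev (X.res l) (X.gys l) (X.L l) φ

/-- In the theory `l` there is no nonzero endomorphism of square zero of the primitive part
`(i, j)` which is self-adjoint for the form `Tr (x L^j y)`, vanishes where `res` and `gys` vanish
and is induced by a motivic endomorphism of the sum of the `H(Y a)` commuting with `G`. -/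
def NoSquareZero (G : Set (TEnd (W l) X.Y)) (i j : ℕ) : Prop :=
  ∀ S, Motivic W X.Y S → ComAll (W l) X.Y G (S l) →
    SqOn (pairing (W l) X.Y) (X.L l) (X.res l) (X.gys l) (S l) (X.prim l i j) j

/-- In the theory `l` the hard Lefschetz theorem holds for the `E_2`-term; for all `2 ≤ i` the map
`N ^ i` is bijective from position `-i` to position `i` of the `E_2`-term in degree `n`, or `i = 2`
and the primitive part `(2, 0)` has the property `NoSquareZero`; the primitive parts `(i, j)` with
`1 ≤ i` and `1 ≤ j` have this property; and the form `Tr (x x)` has no zeros among the nonzero classes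
of cycles in the primitive part `(1, 0)` (the Hodge index theorem and homological equals numerical
equivalence for these classes). -/
def Known (G : Set (TEnd (W l) X.Y)) : Prop :=
  X.HardLefschetz l ∧ (∀ i, 2 ≤ i → X.MonoAt l X.n i ∨ i = 2 ∧ NoSquareZero X l G 2 0) ∧
    (∀ i j, 1 ≤ i → 1 ≤ j → NoSquareZero X l G i j) ∧
      NoIso (pairing (W l) X.Y) (CycClass (W l) X.Y) (X.prim l 1 0)

/-- The characteristic polynomial of `φ` is squarefree on the transcendental cocycles of the
primitive part `(1, 0)` (the primitive cohomology in the middle degree of the double locus) cut out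
by `ε`. -/
def SimpleOn (ε φ : TEnd (W l) X.Y) : Prop :=
  SqfreeOn (pairing (W l) X.Y) (X.res l) (X.gys l) ε (CycClass (W l) X.Y) φ (X.prim l 1 0)

end Pool.Agent.H79S
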