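import Pool.Agent.W_MP_a3c811_h79.Q.AsmD
import Pool.Agent.W_MP_a3c811_h79.Q.StR

/-! Independence without weight monodromy, with the definitions of the statement. -/

noncomputable section

namespace Pool.Agent.H79Q

open Pool.Agent.WeilH_h6 Pool.Agent.WeilH_h6.VarClass Pool.Agent.H62A Pool.Agent.H62S

universe u v w

theorem indepR {k : Type u} [Field k] {𝒱 : VarClass k} {I : Type} {K : I → Type v}
    [∀ l, Field (K l)] [∀ l, CharZero (K l)] {W : ∀ l, Weil.{u, v, w} 𝒱 (K l)}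
    (hW : Compatible W) (X : Strata W) (ε φ ψ : ∀ l, TEnd (W l) X.Y) (hc : H79S.Cut X ε φ ψ)
    (G : ∀ l, Set (TEnd (W l) X.Y)) (hG : ∀ l, H79S.CompatSet X l (G l))
    (hK : ∀ l, H79S.Known X l (G l)) (M : X.Motive) (c : ℤ → ℚ) (hM : H79S.CutBy M ε ψ c)
    (hd : ∀ l l', H79S.dimV M l = H79S.dimV M l') (l0 : I)
    (hs : H79S.SimpleOn X l0 (ε l0) (φ l0)) : M.Independence := by
  obtain ⟨⟨c1, c2, c3⟩, c4⟩ := hc
  have hε : X.MotCompat ε := ⟨c1, fun l => (c4 l).1.1⟩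
  have hφ : X.MotCompat φ := ⟨c2, fun l => (c4 l).1.2.1⟩
  have hψ : X.MotCompat ψ := ⟨c3, fun l => (c4 l).1.2.2⟩
  have hV : M.Via ε ψ c :=
    { proj := fun l => (hM l).1
      frob := fun l w p x hx => (hM l).2 w p x hx
      compat := ⟨hε, hψ⟩
      comm := ⟨fun l => (c4 l).2.2.1, fun l x => (c4 l).2.1 x⟩ }
  have hS : ∀ l i j, H79S.NoSquareZero X l (G l) i j → X.NoSquareZeroAt l (G l) i j :=
    fun l i j h S hS => h S hS.1 hS.2
  refine indepQ hW X M ε φ ψ c hV hφ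
    ⟨fun l => (c4 l).2.2.2.1, fun l => (c4 l).2.2.2.2⟩ (fun l => (hK l).1) G hG
    (fun l i hi => ?_) (fun l i j hi hj _ => Or.inl (hS l i j ((hK l).2.2.1 i j hi hj)))
    (fun l => (hK l).2.2.2) hd l0 ?_
  · rcases (hK l).2.1 i hi with h | ⟨h, h'⟩
    · exact Or.inl h
    · exact Or.inr ⟨h, Or.inl (hS l 2 0 h')⟩
  · obtain ⟨U, hU, h⟩ := hs
    exact ⟨U, hU, h⟩

end Pool.Agent.H79Q
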