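import Pool.Agent.W_a3c811_h62w.Ab26

/-! The part of the kernel of the Laplacian on which the differential may be nonzero, if nothing is
assumed for the primitive part `(1, 0)`. -/

noncomputable section

set_option linter.unusedSectionVars false

namespace Pool.Agent.H79Q

open Module Polynomial Pool.Agent.H79L Pool.Agent.H62X

universe v w

variable {K : Type v} [Field K] [CharZero K] {E : Type w} [AddCommGroup E] [Module K E]
  [FiniteDimensional K E]
  {N f L g d : Module.End K E} {n : ℤ} {s t : ℤ → Module.End K E}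
  {P D : Finset ℤ} {S : E →ₗ[K] E →ₗ[K] K} {B : Subring (Module.End K E)}
  {Z : Module.End K E}

/-- `Z'` is a smaller projector with the same differential, supported in the isotypic parts `(1, 0)`
and `(0, 1)`, which contains the primitive part `(1, 0)`. -/
structure CoreP (N f L g d : Module.End K E) (n : ℤ) (s t : ℤ → Module.End K E)
    (S : E →ₗ[K] E →ₗ[K] K) (B : Subring (Module.End K E)) (Z Z' : Module.End K E) : Prop where
  har : Har N f L g d s t S B Z'
  dz : ∀ x, d (Z x) = d (Z' x)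
  le : ∀ x, Z (Z' x) = Z' x
  comm : ∀ x, Z' (Z x) = Z' x
  supp : ∀ p w, ∀ x ∈ Hs s t n Z' p w, x ≠ 0 →
    (w = 0 ∧ (p = 1 ∨ p = -1)) ∨ (p = 0 ∧ (w = 1 ∨ w = -1))
  fix : ∀ x ∈ prim f g n s t 1 0, Z x = x → Z' x = x

lemma CoreP.trans {e Z' : Module.End K E} {A : Finset (ℕ × ℕ)} (hZ : Har N f L g d s t S B Z)
    (he : IsoPr N f L g n s t S B A e)
    (hk : ∀ i j, (i, j) ∉ A → ∀ x ∈ prim f g n s t i j, e x = x) (hA : (1, 0) ∉ A)
    (h1 : d * Z = d * (e * Z)) (h : CoreP N f L g d n s t S B (e * Z) Z') :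
    CoreP N f L g d n s t S B Z Z' where
  har := h.har
  dz x := by
    have e1 : d (Z x) = d ((e * Z) x) := LinearMap.congr_fun h1 x
    rw [e1, h.dz]
  le x := by
    have e1 : (e * Z) (Z' x) = Z' x := h.le x
    have e2 : Z ((e * Z) (Z' x)) = (e * Z) (Z' x) := by
      change Z (e (Z (Z' x))) = e (Z (Z' x))
      have e3 : ∀ y, Z (e y) = e (Z y) := fun y => (app_comm (he.cZ hZ) y).symm
      rw [e3, hZ.zz]
    rwa [e1] at e2
  comm x := by
    have e3 : ∀ y, Z (e y) = e (Z y) := fun y => (app_comm (he.cZ hZ) y).symm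
    have e1 : Z' ((e * Z) (Z x)) = Z' (Z x) := h.comm (Z x)
    have e2 : (e * Z) (Z x) = (e * Z) x := by
      change e (Z (Z x)) = e (Z x)
      rw [hZ.zz]
    rw [e2, h.comm] at e1
    exact e1.symm
  supp := h.supp
  fix x hx hzx := h.fix x hx (by
    change e (Z x) = x
    rw [hzx, hk 1 0 hA x hx])

lemma CoreP.refl (hZ : Har N f L g d s t S B Z)
    (hs : ∀ p w, ∀ x ∈ Hs s t n Z p w, x ≠ 0 →
      (w = 0 ∧ (p = 1 ∨ p = -1)) ∨ (p = 0 ∧ (w = 1 ∨ w = -1))) :
    CoreP N f L g d n s t S B Z Z where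
  har := hZ
  dz x := rfl
  le x := hZ.zz x
  comm x := hZ.zz x
  supp := hs
  fix x _ hzx := hzx

/-- level one: the parts `(1, 0)` and `(0, j)` are left -/
lemma core_zero (h : Pol N f L g d n s t P D S B)
    (hB : ∀ (r : ℚ), ∀ u ∈ B, (r : K) • u ∈ B) (hZ : Har N f L g d s t S B Z)
    (htop : ∀ p : ℤ, p < -1 → ∀ w, ∀ x ∈ Hs s t n Z p w, x = 0)
    (hw : ∀ w, w ≠ 0 → ∀ x ∈ Hs s t n Z (-1) w, x = 0) :
    ∃ Z', CoreP N f L g d n s t S B Z Z' := by
  classical
  have hb := h.bi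
  have ln := lbN h hZ
  have lb := lbL h hZ
  obtain ⟨b0, hb0⟩ := lb.low
  set A : Finset (ℕ × ℕ) :=
    ((Finset.range ((-b0).toNat + 1)).filter fun j => j ≠ 1).image fun j => (0, j) with hA
  have hAm : ∀ i j, (i, j) ∈ A ↔ i = 0 ∧ j < (-b0).toNat + 1 ∧ j ≠ 1 := by
    intro i j
    rw [hA, Finset.mem_image]
    constructor
    · rintro ⟨j', hj', h1⟩
      rw [Finset.mem_filter, Finset.mem_range] at hj'
      have h2 := (congrArg Prod.fst h1).symm
      have h3 := (congrArg Prod.snd h1).symm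
      simp only at h2 h3
      subst h3
      exact ⟨h2, hj'⟩
    · rintro ⟨rfl, h1, h2⟩
      exact ⟨j, by rw [Finset.mem_filter, Finset.mem_range]; exact ⟨h1, h2⟩, rfl⟩
  obtain ⟨e, he, hk⟩ := exists_isoPr' h hB A
  obtain ⟨hZ', h1⟩ := remove h hZ he hk (fun i j hij x hx hzx => by
    obtain ⟨rfl, -, hj⟩ := (hAm i j).1 hij
    have hx' : x ∈ Hs s t n Z (-((0 : ℕ) : ℤ)) (-(j : ℤ)) := ⟨prim_at hb hx, hzx⟩
    have h1 := Hs.hd h hZ hx'
    have h2 : (-((0 : ℕ) : ℤ) + 1) = ((1 : ℕ) : ℤ) := by norm_num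
    rw [h2] at h1
    obtain ⟨y, hy, h3⟩ := ln.sur _ 1 _ h1
    have hy0 : y = 0 := hw (-(j : ℤ) + 1) (by omega) y (by simpa using hy)
    rw [← h3, hy0, map_zero])
  refine ⟨e * Z, CoreP.trans hZ he hk (fun hc => by simp [hAm] at hc) h1 (CoreP.refl hZ' ?_)⟩
  have heL : e * L = L * e := he.cg 2
  -- weight at most `-2` in level `0`
  have s2 : ∀ m : ℕ, 2 ≤ m → ∀ x ∈ Hs s t n Z 0 (-(m : ℤ)), e x = 0 := by
    refine lb.ind (p := 0) (j0 := 2) (fun x => e x = 0)
      (fun x y h1 h2 => by rw [map_add, h1, h2, add_zero]) (map_zero _)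
      (fun w x _ h1 => by rw [app_comm heL, h1, map_zero]) (fun m hm x hx hgx => ?_)
    have hp : x ∈ prim f g n s t 0 m :=
      prim_of hb (by simpa using hx.1) (htop _ (by norm_num) _ _ (Hs.hf h hZ hx)) hgx
    by_cases hj : m < (-b0).toNat + 1
    · exact he.kill 0 m ((hAm 0 m).2 ⟨rfl, hj, by omega⟩) x hp
    · rw [hb0 0 (-(m : ℤ)) (by omega) x hx, map_zero]
  have s0 : ∀ x ∈ Hs s t n Z 0 0, e x = 0 := by
    intro x hx
    obtain ⟨x0, hx0, x1, hx1, hg0, rfl⟩ := lb.dec 0 0 x (by simpa using hx)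
    have hx0' : x0 ∈ Hs s t n Z 0 0 := by simpa using hx0
    have hx1' : x1 ∈ Hs s t n Z 0 (-((2 : ℕ) : ℤ)) := by simpa using hx1
    have hp : x0 ∈ prim f g n s t 0 0 :=
      prim_of hb (by simpa using hx0'.1) (htop _ (by norm_num) _ _ (Hs.hf h hZ hx0')) hg0
    rw [map_add, app_comm heL, s2 2 le_rfl x1 hx1', map_zero, add_zero]
    exact he.kill 0 0 ((hAm 0 0).2 ⟨rfl, by omega, by omega⟩) x0 hp
  -- negative weights
  have sneg : ∀ m : ℕ, m ≠ 1 → ∀ x ∈ Hs s t n (e * Z) 0 (-(m : ℤ)), x = 0 := by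
    intro m hm x hx
    obtain ⟨hx1, hx2⟩ := Hs_e hZ he hx
    rw [← hx2]
    rcases Nat.eq_zero_or_pos m with rfl | hm0
    · exact s0 x (by simpa using hx1)
    · exact s2 m (by omega) x hx1
  have lv : ∀ w, w ≠ 0 → ∀ x ∈ Hs s t n (e * Z) (-1) w, x = 0 := fun w hw0 x hx =>
    hw w hw0 x (Hs_e hZ he hx).1
  have lt : ∀ p, p < -1 → ∀ w, ∀ x ∈ Hs s t n (e * Z) p w, x = 0 := fun p hp w x hx =>
    htop p hp w x (Hs_e hZ he hx).1
  intro p w x hx hx0
  rcases lt_trichotomy p 0 with hp | rfl | hp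
  · rcases lt_or_ge p (-1) with hp1 | hp1
    · exact absurd (lt p hp1 w x hx) hx0
    · obtain rfl : p = -1 := by omega
      by_cases hw0 : w = 0
      · exact Or.inl ⟨hw0, Or.inr rfl⟩
      · exact absurd (lv w hw0 x hx) hx0
  · right
    refine ⟨rfl, ?_⟩
    by_contra hc
    push Not at hc
    refine hx0 ?_
    rcases Int.le_total w 0 with hw' | hw'
    · obtain ⟨m, hm⟩ := Int.eq_ofNat_of_zero_le (neg_nonneg.2 hw')
      obtain rfl : w = -(m : ℤ) := by omega
      exact sneg m (by rintro rfl; exact hc.2 (by norm_num)) x hx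
    · obtain ⟨m, rfl⟩ := Int.eq_ofNat_of_zero_le hw'
      obtain ⟨y, hy, rfl⟩ := (lbL h hZ').sur _ m x hx
      rw [sneg m (by rintro rfl; exact hc.1 (by norm_num)) y hy, map_zero]
  · obtain ⟨k, rfl⟩ := Int.eq_ofNat_of_zero_le (le_of_lt hp)
    obtain ⟨y, hy, rfl⟩ := (lbN h hZ').sur w k x hx
    have hy' : y ∈ Hs s t n (e * Z) (-(k : ℤ)) w := hy
    have hy0 : y ≠ 0 := by rintro rfl; exact hx0 (map_zero _)
    rcases lt_or_ge 1 k with hk1 | hk1
    · exact absurd (lt _ (by omega) w y hy') hy0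
    · obtain rfl : k = 1 := by omega
      by_cases hw0 : w = 0
      · exact Or.inl ⟨hw0, Or.inl (by norm_num)⟩
      · exact absurd (lv w hw0 y (by simpa using hy')) hy0

/-- the positive primitive parts of the highest level are removed -/
lemma core_row (h : Pol N f L g d n s t P D S B)
    (hB : ∀ (r : ℚ), ∀ u ∈ B, (r : K) • u ∈ B)
    (hL : ∀ (p : ℤ) (m : ℕ), EI (L ^ m) d s t n p (-(m : ℤ)) p m)
    (hG : ∀ i j, 1 ≤ i → 1 ≤ j → Gd N f L g d n s t S B i j) (hZ : Har N f L g d s t S B Z)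
    {r : ℕ} (htop : ∀ p : ℤ, p < -((r + 1 : ℕ) : ℤ) → ∀ w, ∀ x ∈ Hs s t n Z p w, x = 0) :
    ∃ (A : Finset (ℕ × ℕ)) (e : Module.End K E), IsoPr N f L g n s t S B A e ∧
      (∀ i j, (i, j) ∉ A → ∀ x ∈ prim f g n s t i j, e x = x) ∧ (1, 0) ∉ A ∧
      Har N f L g d s t S B (e * Z) ∧ d * Z = d * (e * Z) ∧
      (∀ w, w ≠ 0 → ∀ x ∈ Hs s t n (e * Z) (-((r + 1 : ℕ) : ℤ)) w, x = 0) := by
  classical
  have hb := h.bi
  have hrow := row h hZ hB hL (r := r + 1) (j0 := 1) (by omega) htop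
    (fun j hj => hG _ _ (by omega) hj) (fun _ j hj => hG _ _ (by omega) (by omega))
    (fun _ j hj => hG _ _ (by omega) hj)
  obtain ⟨b0, hb0⟩ := (lbL h hZ).low
  set A : Finset (ℕ × ℕ) :=
    (Finset.range ((-b0).toNat + 1)).image fun j => (r + 1, j + 1) with hA
  obtain ⟨e, he, hk⟩ := exists_isoPr' h hB A
  have hAr : ∀ i j, (i, j) ∈ A → i = r + 1 ∧ 1 ≤ j := by
    intro i j hij
    rw [hA, Finset.mem_image] at hij
    obtain ⟨j', -, h1⟩ := hij
    have h2 := (congrArg Prod.fst h1).symm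
    have h3 := (congrArg Prod.snd h1).symm
    exact ⟨h2, by simp only at h3; omega⟩
  have hAm : ∀ j, 1 ≤ j → (∀ x ∈ prim f g n s t (r + 1) j, Z x = x → x = 0) ∨
      (r + 1, j) ∈ A := by
    intro j hj1
    by_cases hj : j < (-b0).toNat + 1
    · right
      rw [hA, Finset.mem_image]
      exact ⟨j - 1, Finset.mem_range.2 (by omega), by rw [Nat.sub_add_cancel hj1]⟩
    · left
      intro x hx hzx
      exact hb0 (-((r + 1 : ℕ) : ℤ)) (-(j : ℤ)) (by omega) x ⟨prim_at hb hx, hzx⟩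
  obtain ⟨hZ', h1⟩ := remove h hZ he hk (fun i j hij x hx hzx => by
    obtain ⟨rfl, hj⟩ := hAr i j hij
    exact hrow j hj x ⟨prim_at hb hx, hzx⟩)
  refine ⟨A, e, he, hk, fun hc => ?_, hZ', h1, ?_⟩
  · have := (hAr 1 0 hc).2
    omega
  · have ht := top_e h hZ he (j0 := 1) htop hAm
    intro w hw0 x hx
    rcases Int.le_total w 0 with hw | hw
    · obtain ⟨m, hm⟩ := Int.eq_ofNat_of_zero_le (neg_nonneg.2 hw)
      obtain rfl : w = -(m : ℤ) := by omega
      exact ht m (by omega) x hx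
    · obtain ⟨m, rfl⟩ := Int.eq_ofNat_of_zero_le hw
      obtain ⟨y, hy, rfl⟩ := (lbL h hZ').sur _ m x hx
      rw [ht m (by omega) y hy, map_zero]

/-- The core of the kernel of the Laplacian. -/
theorem exists_core (h : Pol N f L g d n s t P D S B)
    (hB : ∀ (r : ℚ), ∀ u ∈ B, (r : K) • u ∈ B)
    (hL : ∀ (p : ℤ) (m : ℕ), EI (L ^ m) d s t n p (-(m : ℤ)) p m)
    (hN : ∀ m : ℕ, 2 ≤ m → EI (N ^ m) d s t n (-(m : ℤ)) 0 m 0 ∨
      (m = 2 ∧ Gd N f L g d n s t S B 2 0))
    (hG : ∀ i j, 1 ≤ i → 1 ≤ j → Gd N f L g d n s t S B i j) (hZ : Har N f L g d s t S B Z) :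
    ∃ Z', CoreP N f L g d n s t S B Z Z' := by
  classical
  have hb := h.bi
  have key : ∀ r : ℕ, ∀ Z, Har N f L g d s t S B Z →
      (∀ p : ℤ, p < -(r : ℤ) → ∀ w, ∀ x ∈ Hs s t n Z p w, x = 0) →
      ∃ Z', CoreP N f L g d n s t S B Z Z' := by
    intro r
    induction r with
    | zero =>
      intro Z hZ htop
      have ln := lbN h hZ
      have hd : d * Z = 0 := by
        refine d_zero_of h hZ fun i j x hx hzx => ?_
        have hx' : x ∈ Hs s t n Z (-(i : ℤ)) (-(j : ℤ)) := ⟨prim_at hb hx, hzx⟩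
        rcases Nat.eq_zero_or_pos i with rfl | hi
        · have h1 := Hs.hd h hZ hx'
          have h2 : (-((0 : ℕ) : ℤ) + 1) = ((1 : ℕ) : ℤ) := by norm_num
          rw [h2] at h1
          obtain ⟨y, hy, h3⟩ := ln.sur _ 1 _ h1
          rw [← h3, htop _ (by norm_num) _ _ hy, map_zero]
        · rw [htop _ (by push_cast; omega) _ _ hx', map_zero]
      refine ⟨0, ⟨⟨Subring.zero_mem _, fun b => by simp, fun p => by simp, fun w => by simp,
        by simp, Adj.zero, by simp, 0, by simp⟩, fun x => ?_, fun x => by simp, fun x => by simp,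
        fun p w x hx hx0 => absurd hx.2.symm hx0, fun x hx hzx => ?_⟩⟩
      · exact (LinearMap.congr_fun hd x).trans (by simp)
      · have := htop (-1) (by norm_num) _ x ⟨by simpa using prim_at hb hx, hzx⟩
        rw [this, map_zero]
    | succ r ih =>
      intro Z hZ htop
      obtain ⟨A, e, he, hk, hA, hZ', h1, hw⟩ := core_row h hB hL hG hZ htop
      have htop' : ∀ p : ℤ, p < -((r + 1 : ℕ) : ℤ) → ∀ w, ∀ x ∈ Hs s t n (e * Z) p w, x = 0 :=
        fun p hp w x hx => htop p hp w x (Hs_e hZ he hx).1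
      rcases Nat.eq_zero_or_pos r with rfl | hr0
      · obtain ⟨Z', hc⟩ := core_zero h hB hZ' (by simpa using htop') (by simpa using hw)
        exact ⟨Z', CoreP.trans hZ he hk hA h1 hc⟩
      · have hrN : ∀ x ∈ Hs s t n (e * Z) (-((r + 1 : ℕ) : ℤ)) 0, d x = 0 := by
          rcases hN (r + 1) (by omega) with hN' | ⟨hr1, hg⟩
          · exact rowN h hZ' hL hN' htop' hw (fun hr => hG _ _ hr le_rfl)
          · obtain rfl : r = 1 := by omega
            intro x hx
            refine row h hZ' hB hL (r := 1 + 1) (j0 := 0) (by omega) htop' (fun j _ => ?_)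
              (fun _ j hj => hG _ _ (by omega) (by omega)) (fun h3 => by omega) 0 le_rfl x
              (by simpa using hx)
            rcases Nat.eq_zero_or_pos j with rfl | hj
            · exact hg
            · exact hG _ _ (by omega) hj
        obtain ⟨e2, he2, hk2⟩ := exists_isoPr' h hB {(r + 1, 0)}
        obtain ⟨hZ2, h2⟩ := remove h hZ' he2 hk2 (fun i j hij x hx hzx => by
          rw [Finset.mem_singleton, Prod.mk.injEq] at hij
          obtain ⟨rfl, rfl⟩ := hij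
          exact hrN x ⟨by simpa using prim_at hb hx, hzx⟩)
        obtain ⟨Z', hc⟩ := ih _ hZ2 fun p hp w x hx => by
          rcases lt_or_ge p (-((r + 1 : ℕ) : ℤ)) with hp' | hp'
          · exact htop' p hp' w x (Hs_e hZ' he2 hx).1
          · obtain rfl : p = -((r + 1 : ℕ) : ℤ) := by push_cast at hp' ⊢; omega
            by_cases hw0 : w = 0
            · subst hw0
              have ht := top_e h hZ' he2 (r := r + 1) (j0 := 0) htop' (fun j _ => ?_) 0 le_rfl x
                (by simpa using hx)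
              · exact ht
              · rcases Nat.eq_zero_or_pos j with rfl | hj
                · exact Or.inr (Finset.mem_singleton_self _)
                · refine Or.inl fun x hx hzx => hw (-(j : ℤ)) (by omega) x ⟨prim_at hb hx, hzx⟩
            · exact hw w hw0 x (Hs_e hZ' he2 hx).1
        refine ⟨Z', CoreP.trans hZ he hk hA h1 (CoreP.trans hZ' he2 hk2 ?_ h2 hc)⟩
        rw [Finset.mem_singleton, Prod.mk.injEq]
        omega
  obtain ⟨b, hb1⟩ := hb.sl.low
  exact key (-b).toNat Z hZ fun p hp w x hx => hb1 p (by omega) x hx.1.hs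

end Pool.Agent.H79Q
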