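import Pool.Agent.W_MP_a3c811_h79.Q.LinTr

/-! Characteristic polynomials on the kernel of a nilpotent endomorphism. -/

noncomputable section

namespace Pool.Agent.H79Q

open Module Polynomial

universe v w

variable {K : Type v} [Field K] {V : Type w} [AddCommGroup V] [Module K V]

theorem ker_stab {φ u : Module.End K V} (h : φ * u = u * φ) :
    ∀ x ∈ LinearMap.ker u, φ x ∈ LinearMap.ker u := by
  intro x hx
  rw [LinearMap.mem_ker] at hx ⊢
  have h1 : φ (u x) = u (φ x) := LinearMap.congr_fun h x
  rw [← h1, hx, map_zero]

theorem kr_stab {φ u : Module.End K V} (h : φ * u = u * φ) :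
    ∀ x ∈ LinearMap.ker u ⊓ LinearMap.range u, φ x ∈ LinearMap.ker u ⊓ LinearMap.range u := by
  rintro x ⟨h1, y, rfl⟩
  exact ⟨ker_stab h _ h1, φ y, (LinearMap.congr_fun h y).symm⟩

variable [FiniteDimensional K V]

/-- the characteristic polynomial of `φ` on the kernel of `u` -/
def kerCP (φ u : Module.End K V) (h : φ * u = u * φ) : K[X] :=
  (φ.restrict (ker_stab h)).charpoly

/-- the characteristic polynomial of `φ` on the intersection of the kernel and the range of `u` -/
def krCP (φ u : Module.End K V) (h : φ * u = u * φ) : K[X] :=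
  (φ.restrict (kr_stab h)).charpoly

end Pool.Agent.H79Q
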