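import Pool.Agent.W_a3c811_h62w.Ab23

/-! The projector onto a primitive part as one polynomial in the operators, uniformly. -/

noncomputable section

set_option linter.unusedSectionVars false

namespace Pool.Agent.H79Q

open Module Polynomial Pool.Agent.H79L Pool.Agent.H62X

universe v w

/-- The polynomial whose value at `N f` is the projector onto the lowest weight vectors of position
`-j`, if `f ^ (r + 1)` vanishes there. -/
def puni (j r : ℕ) : ℚ[X] :=
  ∏ i ∈ Finset.range r, (C (-ceig j (i + 1))⁻¹ * (X - C (ceig j (i + 1))))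

variable {K : Type v} [Field K] [CharZero K] {E : Type w} [AddCommGroup E] [Module K E]
  [FiniteDimensional K E]

theorem sl_puni {N f : Module.End K E} {s : ℤ → Module.End K E} {P : Finset ℤ}
    (h : Sl N f s P) (j r : ℕ)
    (hz : ∀ x : E, s (-(j : ℤ)) x = x → (f ^ (r + 1)) x = 0) :
    (∀ x, f (aeval (N * f) ((puni j r).map (algebraMap ℚ K)) (s (-(j : ℤ)) x)) = 0) ∧
      ∀ x, f x = 0 → aeval (N * f) ((puni j r).map (algebraMap ℚ K)) x = x := by
  set Q : ℚ[X] := puni j r with hQ
  have hc : ∀ i, -ceig j (i + 1) ≠ 0 := by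
    intro i
    unfold ceig
    rw [neg_ne_zero]
    positivity
  have e1 : X * Q = C (∏ i ∈ Finset.range r, (-ceig j (i + 1))⁻¹) * qeig j (r + 1) := by
    have e0 : qeig j (r + 1) = X * ∏ i ∈ Finset.range r, (X - C (ceig j (i + 1))) := by
      unfold qeig
      rw [Finset.prod_range_succ', mul_comm]
      congr 1
      unfold ceig
      simp
    rw [e0, hQ, puni, Finset.prod_mul_distrib, map_prod]
    ring
  refine ⟨fun x => ?_, fun x hx => ?_⟩
  · have hsx : s (-(j : ℤ)) (s (-(j : ℤ)) x) = s (-(j : ℤ)) x := LinearMap.congr_fun (h.idem _) x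
    apply h.ker_N
    have e2 : N (f (aeval (N * f) (Q.map (algebraMap ℚ K)) (s (-(j : ℤ)) x))) =
        aeval (N * f) ((X * Q).map (algebraMap ℚ K)) (s (-(j : ℤ)) x) := by
      rw [Polynomial.map_mul, map_X, map_mul, aeval_X]
      rfl
    rw [e2, e1, Polynomial.map_mul, map_mul, Module.End.mul_apply,
      sl_qeig_zero h (r + 1) j _ hsx (hz _ hsx), map_zero]
  · have h0 : (N * f) x = (0 : K) • x := by
      rw [Module.End.mul_apply, hx, map_zero, zero_smul]
    rw [aeval_eig h0]
    have e3 : (Q.map (algebraMap ℚ K)).eval 0 = 1 := by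
      have : Q.eval 0 = 1 := by
        rw [hQ, puni, eval_prod]
        refine Finset.prod_eq_one fun i _ => ?_
        rw [eval_mul, eval_C, eval_sub, eval_X, eval_C, zero_sub, inv_mul_cancel₀ (hc i)]
      have h3 : (Q.map (algebraMap ℚ K)).eval 0 = algebraMap ℚ K (Q.eval 0) := by
        rw [Polynomial.eval_map, ← map_zero (algebraMap ℚ K), Polynomial.eval₂_at_apply]
      rw [h3, this, map_one]
    rw [e3, one_smul]

variable {N f L g d : Module.End K E} {n : ℤ} {s t : ℤ → Module.End K E}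
  {P D : Finset ℤ}

/-- the projector onto the primitive part `(i, j)` -/
def qpr (N f L g : Module.End K E) (n : ℤ) (s t : ℤ → Module.End K E) (i j r : ℕ) :
    Module.End K E :=
  aeval (N * f) ((puni i r).map (algebraMap ℚ K)) * s (-(i : ℤ)) *
    (aeval (L * g) ((puni j r).map (algebraMap ℚ K)) * t (n - j))

theorem qpr_spec (hb : Bi N f L g d n s t P D) (i j r : ℕ)
    (hz1 : ∀ x : E, s (-(i : ℤ)) x = x → (f ^ (r + 1)) x = 0)
    (hz2 : ∀ x : E, t (n - j) x = x → (g ^ (r + 1)) x = 0) :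
    (∀ x, qpr N f L g n s t i j r x ∈ prim f g n s t i j) ∧
      ∀ x ∈ prim f g n s t i j, qpr N f L g n s t i j r x = x := by
  obtain ⟨h1, h1'⟩ := sl_puni hb.sl i r hz1
  have hz2' : ∀ x : E, (fun p => t (p + n)) (-(j : ℤ)) x = x → (g ^ (r + 1)) x = 0 := by
    intro x hx
    refine hz2 x ?_
    rw [show n - (j : ℤ) = -(j : ℤ) + n by ring]
    exact hx
  obtain ⟨h2, h2'⟩ := sl_puni hb.sl2 j r hz2'
  set q1 := aeval (N * f) ((puni i r).map (algebraMap ℚ K)) with hq1
  set q2 := aeval (L * g) ((puni j r).map (algebraMap ℚ K)) with hq2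
  have c1 : ∀ {T : Module.End K E}, T * N = N * T → T * f = f * T → q1 * T = T * q1 := by
    intro T hN hf
    exact aeval_semi (by rw [mul_assoc, ← hf, ← mul_assoc, ← hN, mul_assoc]) _
  have c2 : ∀ {T : Module.End K E}, T * L = L * T → T * g = g * T → q2 * T = T * q2 := by
    intro T hN hf
    exact aeval_semi (by rw [mul_assoc, ← hf, ← mul_assoc, ← hN, mul_assoc]) _
  have c1g : q1 * g = g * q1 := c1 hb.Ng.symm hb.fg.symm
  have c1s : ∀ p, q1 * s p = s p * q1 := by
    intro p
    refine aeval_semi ?_ _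
    rw [mul_assoc, hb.sl.fs, ← mul_assoc, hb.sl.Ns, sub_add_cancel, mul_assoc]
  have c2t : ∀ w, q2 * t w = t w * q2 := by
    intro w
    refine aeval_semi ?_ _
    rw [mul_assoc, hb.gt, ← mul_assoc, hb.Lt, sub_add_cancel, mul_assoc]
  have c1t : ∀ w, q1 * t w = t w * q1 := fun w => c1 (hb.Nt w).symm (hb.ft w).symm
  have hF : ∀ x, f (q1 (s (-(i : ℤ)) x)) = 0 := h1
  have hG : ∀ x, g (q2 (t (n - j) x)) = 0 := by
    intro x
    have := h2 x
    change g (q2 (t (-(j : ℤ) + n) x)) = 0 at this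
    rwa [show -(j : ℤ) + n = n - j by ring] at this
  have h2i : ∀ x, g x = 0 → q2 x = x := h2'
  have h1i : ∀ x, f x = 0 → q1 x = x := h1'
  have ap : ∀ x, qpr N f L g n s t i j r x =
      q1 (s (-(i : ℤ)) (q2 (t (n - j) x))) := fun x => rfl
  refine ⟨?_, ?_⟩
  · intro x
    rw [mem_prim_iff hb, ap]
    refine ⟨?_, ?_, hF _, ?_⟩
    · have e1 : s (-(i : ℤ)) (s (-(i : ℤ)) (q2 (t (n - j) x))) =
          s (-(i : ℤ)) (q2 (t (n - j) x)) := LinearMap.congr_fun (hb.sl.idem _) _
      rw [← app_comm (c1s _), e1]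
    · have e1 : t (n - j) (s (-(i : ℤ)) (q2 (t (n - j) x))) =
          s (-(i : ℤ)) (t (n - j) (q2 (t (n - j) x))) :=
        (LinearMap.congr_fun (hb.st _ _) _).symm
      have e2 : t (n - j) (q2 (t (n - j) x)) = q2 (t (n - j) (t (n - j) x)) :=
        (app_comm (c2t _) _).symm
      have e3 : t (n - j) (t (n - j) x) = t (n - j) x := LinearMap.congr_fun (hb.idemt _) _
      rw [← app_comm (c1t _), e1, e2, e3]
    · have e1 : g (s (-(i : ℤ)) (q2 (t (n - j) x))) = s (-(i : ℤ)) (g (q2 (t (n - j) x))) :=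
        LinearMap.congr_fun (hb.gs _) _
      rw [← app_comm c1g, e1, hG, map_zero, map_zero]
  · intro x hx
    obtain ⟨k1, k2, k3, k4⟩ := (mem_prim_iff hb).1 hx
    rw [ap, k2, h2i x k4, k1, h1i x k3]

/-- `f ^ m` lowers the position -/
lemma f_pow_at (hb : Bi N f L g d n s t P D) {p : ℤ} {x : E} (hx : s p x = x) (m : ℕ) :
    s (p - 2 * m) ((f ^ m) x) = (f ^ m) x := by
  induction m with
  | zero => simpa using hx
  | succ m ih =>
    rw [pow_succ', Module.End.mul_apply]
    have := hb.sl.mem_f ih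
    rw [show p - 2 * ((m + 1 : ℕ) : ℤ) = p - 2 * m - 2 by push_cast; ring]
    exact this

/-- `g ^ m` lowers the degree -/
lemma g_pow_at (hb : Bi N f L g d n s t P D) {w : ℤ} {x : E} (hx : t w x = x) (m : ℕ) :
    t (w - 2 * m) ((g ^ m) x) = (g ^ m) x := by
  induction m with
  | zero => simpa using hx
  | succ m ih =>
    rw [pow_succ', Module.End.mul_apply]
    have := LinearMap.congr_fun (hb.gt (w - 2 * m)) ((g ^ m) x)
    rw [Module.End.mul_apply, Module.End.mul_apply, ih] at this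
    rw [show w - 2 * ((m + 1 : ℕ) : ℤ) = w - 2 * m - 2 by push_cast; ring]
    exact this.symm

end Pool.Agent.H79Q
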