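import Pool.Agent.W_MP_a3c811_h79.Q.CoreB
import Pool.Agent.W_MP_a3c811_h79.Q.LinTr
import Pool.Agent.W_MP_a3c811_h79.Lap.Fam

/-! The traces of Frobenius on the graded parts of the realisation and on the kernel of the monodromy
operator, in one theory. -/

noncomputable section

set_option linter.unusedSectionVars false

namespace Pool.Agent.H79Q

open Module Polynomial Pool.Agent.H79L Pool.Agent.H62X

universe v w w'

section lin

variable {K : Type v} [Field K] {E : Type w} [AddCommGroup E] [Module K E]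
  {V : Type w'} [AddCommGroup V] [Module K V]

/-- the trace on a sum of ranges of idempotents -/
theorem trOn_sum {ι : Type*} [FiniteDimensional K E] {T : Module.End K E} {U : Submodule K E}
    (P : Finset ι) (π : ι → Module.End K E) (hi : ∀ i, ∀ x, π i (π i x) = π i x)
    (hs : ∀ x, ∑ i ∈ P, π i x = x) (hU : ∀ i, ∀ x ∈ U, π i x ∈ U) (hT : ∀ x ∈ U, T x ∈ U)
    (hc : ∀ i, ∀ x, T (π i x) = π i (T x)) : trOn T U = ∑ i ∈ P, trOn T (U.map (π i)) := by
  have e1 : T.restrict hT = ∑ i ∈ P, T.restrict hT * (π i).restrict (hU i) := by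
    refine LinearMap.ext fun x => Subtype.ext ?_
    rw [LinearMap.sum_apply, Submodule.coe_sum]
    change T x = ∑ i ∈ P, T (π i x)
    rw [← map_sum, hs]
  rw [trOn_def hT, e1, map_sum]
  refine Finset.sum_congr rfl fun i _ => ?_
  have hp : (π i).restrict (hU i) * (π i).restrict (hU i) = (π i).restrict (hU i) :=
    LinearMap.ext fun x => Subtype.ext (hi i x)
  have hst : ∀ x ∈ LinearMap.range ((π i).restrict (hU i)),
      T.restrict hT x ∈ LinearMap.range ((π i).restrict (hU i)) := by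
    rintro _ ⟨x, rfl⟩
    exact ⟨T.restrict hT x, Subtype.ext (hc i x).symm⟩
  rw [← trOn_range hp hst]
  refine (trOn_eq_of_iso U.subtype hst (fun x _ => rfl) (fun x _ hx => Subtype.ext hx)
    ?_ ?_).symm
  · rintro _ ⟨x, rfl⟩
    exact ⟨x, x.2, rfl⟩
  · rintro _ ⟨x, hx, rfl⟩
    exact ⟨(π i).restrict (hU i) ⟨x, hx⟩, ⟨_, rfl⟩, rfl⟩

lemma pow_mem_of {T : Module.End K E} {U : Submodule K E} (h : ∀ x ∈ U, T x ∈ U) (m : ℕ) :
    ∀ x ∈ U, (T ^ m) x ∈ U := by
  induction m with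
  | zero => exact fun x hx => hx
  | succ m ih =>
    intro x hx
    rw [pow_succ', Module.End.mul_apply]
    exact h _ (ih x hx)

end lin

variable {K : Type v} [Field K] [CharZero K] {E : Type w} [AddCommGroup E] [Module K E]
  [FiniteDimensional K E]
  {N f L g d : Module.End K E} {n : ℤ} {s t : ℤ → Module.End K E}
  {P D : Finset ℤ} {S : E →ₗ[K] E →ₗ[K] K} {B : Subring (Module.End K E)}
  {Z Z' G e ψ : Module.End K E} {V : Type w'} [AddCommGroup V] [Module K V]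
  [FiniteDimensional K V]

/-- A realisation in one theory. -/
structure Rl (N f L g d : Module.End K E) (n : ℤ) (s t : ℤ → Module.End K E)
    (e ψ : Module.End K E) (u : E →ₗ[K] V) (φ ν : Module.End K V) (c : ℤ → K) (q : K) : Prop where
  ee : ∀ x, e (e x) = e x
  he : EC N f L g d s t e
  hψ : EC N f L g d s t ψ
  eψ : ∀ x, e (ψ x) = ψ (e x)
  ker : ∀ x, d x = 0 → (u x = 0 ↔ e x ∈ LinearMap.range d)
  frob : ∀ p w x, At s t n p w x → d x = 0 → φ (u x) = c (w - p) • u (ψ x)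
  mono : ∀ x, d x = 0 → u (N x) = ν (u x)
  comm : ∀ y, ν (φ y) = q • φ (ν y)

/-- the homogeneous vectors fixed by `e` -/
def Ee (n : ℤ) (s t : ℤ → Module.End K E) (e : Module.End K E) (p w : ℤ) : Submodule K E where
  carrier := {x | At s t n p w x ∧ e x = x}
  zero_mem' := ⟨⟨map_zero _, map_zero _⟩, map_zero _⟩
  add_mem' := by
    rintro x y ⟨hx, hx'⟩ ⟨hy, hy'⟩
    exact ⟨⟨by rw [map_add, hx.hs, hy.hs], by rw [map_add, hx.ht, hy.ht]⟩,
      by rw [map_add, hx', hy']⟩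
  smul_mem' := by
    rintro c x ⟨hx, hx'⟩
    exact ⟨⟨by rw [map_smul, hx.hs], by rw [map_smul, hx.ht]⟩, by rw [map_smul, hx']⟩

/-- the cocycles -/
def Cc (d : Module.End K E) (n : ℤ) (s t : ℤ → Module.End K E) (e : Module.End K E) (p w : ℤ) :
    Submodule K E := Ee n s t e p w ⊓ LinearMap.ker d

/-- the coboundaries -/
def Bb (d : Module.End K E) (n : ℤ) (s t : ℤ → Module.End K E) (e : Module.End K E) (p w : ℤ) :
    Submodule K E := Ee n s t e p w ⊓ LinearMap.range d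

/-- the coboundaries in the image of `Z` -/
def Bz (d : Module.End K E) (n : ℤ) (s t : ℤ → Module.End K E) (e Z : Module.End K E) (p w : ℤ) :
    Submodule K E := (Bb d n s t e p w).map Z

/-- the graded parts of the realisation -/
def Gr (d : Module.End K E) (n : ℤ) (s t : ℤ → Module.End K E) (e : Module.End K E)
    (u : E →ₗ[K] V) (p w : ℤ) : Submodule K V := (Cc d n s t e p w).map u

lemma mem_Ee {p w : ℤ} {x : E} : x ∈ Ee n s t e p w ↔ At s t n p w x ∧ e x = x := Iff.rfl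

lemma mem_Cc {p w : ℤ} {x : E} :
    x ∈ Cc d n s t e p w ↔ (At s t n p w x ∧ e x = x) ∧ d x = 0 := Iff.rfl

lemma mem_Bb {p w : ℤ} {x : E} :
    x ∈ Bb d n s t e p w ↔ (At s t n p w x ∧ e x = x) ∧ ∃ y, d y = x := Iff.rfl

section one

variable {u : E →ₗ[K] V} {φ ν : Module.End K V} {c : ℤ → K} {q : K}
  (hb : Bi N f L g d n s t P D) (R : Rl N f L g d n s t e ψ u φ ν c q)
include hb R

lemma Rl.ee_stab {p w : ℤ} : ∀ x ∈ Ee n s t e p w, ψ x ∈ Ee n s t e p w := by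
  rintro x ⟨h1, h2⟩
  exact ⟨R.hψ.aat h1, by rw [R.eψ, h2]⟩

lemma Rl.cc_stab {p w : ℤ} : ∀ x ∈ Cc d n s t e p w, ψ x ∈ Cc d n s t e p w := by
  rintro x ⟨h1, h2⟩
  have h3 : d x = 0 := h2
  refine ⟨R.ee_stab hb x h1, ?_⟩
  change d (ψ x) = 0
  rw [← R.hψ.ad, h3, map_zero]

lemma Rl.bb_stab {p w : ℤ} : ∀ x ∈ Bb d n s t e p w, ψ x ∈ Bb d n s t e p w := by
  rintro x ⟨h1, y, rfl⟩
  exact ⟨R.ee_stab hb _ h1, ψ y, (R.hψ.ad y).symm⟩

lemma Rl.map_d {p w : ℤ} : (Ee n s t e p w).map d = Bb d n s t e (p + 1) (w + 1) := by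
  ext x
  constructor
  · rintro ⟨y, ⟨h1, h2⟩, rfl⟩
    exact ⟨⟨h1.ad hb, by rw [R.he.ad, h2]⟩, y, rfl⟩
  · rintro ⟨⟨h1, h2⟩, y, hy⟩
    obtain ⟨y', h3, h4⟩ := at_hom hb h1 hy.symm
    rw [show p + 1 - 1 = p by ring, show w + 1 - 1 = w by ring] at h3
    refine ⟨e y', ⟨R.he.aat h3, R.ee y'⟩, ?_⟩
    rw [← R.he.ad, ← h4, h2]

lemma Rl.u_range {x : E} (hx : x ∈ LinearMap.range d) : u x = 0 := by
  obtain ⟨y, rfl⟩ := hx
  rw [R.ker _ (LinearMap.congr_fun hb.dd y), R.he.ad]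
  exact ⟨_, rfl⟩

lemma Rl.u_e {x : E} (hx : d x = 0) : u (e x) = u x := by
  have h1 : d (x - e x) = 0 := by rw [map_sub, hx, ← R.he.ad, hx, map_zero, sub_zero]
  have h2 : u (x - e x) = 0 := by
    rw [R.ker _ h1, map_sub, R.ee, sub_self]
    exact Submodule.zero_mem _
  rw [map_sub, sub_eq_zero] at h2
  exact h2.symm

lemma Rl.frob_pow {p w : ℤ} (m : ℕ) : ∀ x ∈ Cc d n s t e p w,
    (φ ^ m) (u x) = c (w - p) ^ m • u ((ψ ^ m) x) := by
  induction m with
  | zero => intro x _; simp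
  | succ m ih =>
    intro x hx
    have h1 := pow_mem_of (R.cc_stab hb) m x hx
    rw [pow_succ', Module.End.mul_apply, ih x hx, map_smul, R.frob p w _ h1.1.1 h1.2, smul_smul,
      pow_succ, pow_succ' ψ, Module.End.mul_apply]

lemma Rl.gr_stab {p w : ℤ} (m : ℕ) : ∀ y ∈ Gr d n s t e u p w, (φ ^ m) y ∈ Gr d n s t e u p w := by
  rintro _ ⟨x, hx, rfl⟩
  rw [R.frob_pow hb m x hx]
  exact Submodule.smul_mem _ _ ⟨_, pow_mem_of (R.cc_stab hb) m x hx, rfl⟩

/-- the trace of Frobenius on a graded part -/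
theorem Rl.tr_gr (p w : ℤ) (m : ℕ) : trOn (φ ^ m) (Gr d n s t e u p w) =
    c (w - p) ^ m * (trOn (ψ ^ m) (Ee n s t e p w) - trOn (ψ ^ m) (Bb d n s t e (p + 1) (w + 1)) -
      trOn (ψ ^ m) (Bb d n s t e p w)) := by
  have h1 := trOn_map d (U := Ee n s t e p w) (T := ψ ^ m) (T' := ψ ^ m)
    (pow_mem_of (R.ee_stab hb) m) (fun x _ => by
      have : ∀ m : ℕ, d ((ψ ^ m) x) = (ψ ^ m) (d x) := by
        intro m
        exact (LinearMap.congr_fun ((show Commute ψ d from R.hψ.d).pow_left m).eq x).symm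
      exact this m)
  rw [R.map_d hb] at h1
  have h2 := trOn_map u (U := Cc d n s t e p w) (T := c (w - p) ^ m • ψ ^ m) (T' := φ ^ m)
    (fun x hx => Submodule.smul_mem _ _ (pow_mem_of (R.cc_stab hb) m x hx)) (fun x hx => by
      rw [LinearMap.smul_apply, map_smul, R.frob_pow hb m x hx])
  have h3 : Cc d n s t e p w ⊓ LinearMap.ker u = Bb d n s t e p w := by
    ext x
    constructor
    · rintro ⟨⟨h4, h5⟩, h6⟩
      refine ⟨h4, ?_⟩
      have h7 := (R.ker x h5).1 h6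
      rwa [h4.2] at h7
    · rintro ⟨h4, h5⟩
      obtain ⟨y, rfl⟩ := h5
      exact ⟨⟨h4, LinearMap.congr_fun hb.dd y⟩, R.u_range hb ⟨y, rfl⟩⟩
  rw [h3, trOn_smul (pow_mem_of (R.cc_stab hb) m), trOn_smul (pow_mem_of (R.bb_stab hb) m)] at h2
  have h4 : Ee n s t e p w ⊓ LinearMap.ker d = Cc d n s t e p w := rfl
  rw [h4] at h1
  have h5 : trOn (φ ^ m) (Gr d n s t e u p w) = trOn (φ ^ m) ((Cc d n s t e p w).map u) := rfl
  rw [h5, h1]
  linear_combination -h2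

lemma Rl.nu_phi (m : ℕ) (y : V) : ν ((φ ^ m) y) = q ^ m • (φ ^ m) (ν y) := by
  induction m with
  | zero => simp
  | succ m ih =>
    rw [pow_succ', Module.End.mul_apply, R.comm, ih, map_smul, smul_smul, pow_succ',
      Module.End.mul_apply]

lemma Rl.gr_nu {p w : ℤ} : ∀ y ∈ Gr d n s t e u p w, ν y ∈ Gr d n s t e u (p + 2) w := by
  rintro _ ⟨x, ⟨⟨h1, h2⟩, h3⟩, rfl⟩
  have h4 : d x = 0 := h3
  rw [← R.mono x h4]
  refine ⟨N x, ⟨⟨h1.aN hb, by rw [R.he.aN, h2]⟩, ?_⟩, rfl⟩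
  change d (N x) = 0
  have : d (N x) = N (d x) := (LinearMap.congr_fun hb.Nd x).symm
  rw [this, h4, map_zero]

/-- the trace of Frobenius on the kernel of a surjective monodromy operator -/
theorem Rl.tr_ker_sur {p w : ℤ} (m : ℕ)
    (hs : ∀ z ∈ Gr d n s t e u (p + 2) w, ∃ y ∈ Gr d n s t e u p w, ν y = z) :
    trOn (φ ^ m) (Gr d n s t e u p w ⊓ LinearMap.ker ν) =
      trOn (φ ^ m) (Gr d n s t e u p w) - q ^ m * trOn (φ ^ m) (Gr d n s t e u (p + 2) w) := by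
  have h1 := trOn_map ν (U := Gr d n s t e u p w) (T := φ ^ m) (T' := q ^ m • φ ^ m)
    (R.gr_stab hb m) (fun y _ => by rw [R.nu_phi hb, LinearMap.smul_apply])
  have h2 : (Gr d n s t e u p w).map ν = Gr d n s t e u (p + 2) w := by
    ext z
    exact ⟨by rintro ⟨y, hy, rfl⟩; exact R.gr_nu hb y hy, fun hz => hs z hz⟩
  rw [h2, trOn_smul (R.gr_stab hb m)] at h1
  rw [h1]
  ring

end one

section core

variable {u : E →ₗ[K] V} {φ ν : Module.End K V} {c : ℤ → K} {q : K}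
  (h : Pol N f L g d n s t P D S B) (R : Rl N f L g d n s t e ψ u φ ν c q)
  (hZ : Har N f L g d s t S B Z)
  (hc : CoreP N f L g d n s t S B Z Z')
  (hL : ∀ (p : ℤ) (m : ℕ), EI (L ^ m) d s t n p (-(m : ℤ)) p m)
  (eZ : ∀ x, e (Z x) = Z (e x)) (ψZ : ∀ x, ψ (Z x) = Z (ψ x))
  (hF : ∀ x, d x = 0 → x - Z x ∈ LinearMap.range d)

/-- the projector onto the coboundaries outside of the image of `Z` -/
def P2 (f g d : Module.End K E) (n : ℤ) (s t : ℤ → Module.End K E) (e G : Module.End K E)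
    (p w : ℤ) : Module.End K E := e * (s p * (t (w + n) * (d * (br f (br g d) * G))))

include h R hZ in
/-- the kernel of `Z` on the coboundaries -/
theorem Rl.bb_ker (F : Fitting (lap f g d) Z G) (eZ : ∀ x, e (Z x) = Z (e x))
    (Gd : G * d = d * G) (p w : ℤ) :
    Bb d n s t e p w ⊓ LinearMap.ker Z = LinearMap.range (P2 f g d n s t e G p w) ∧
    P2 f g d n s t e G p w * P2 f g d n s t e G p w = P2 f g d n s t e G p w := by
  have hb := h.bi
  have app : ∀ y, P2 f g d n s t e G p w y = e (s p (t (w + n) (d (br f (br g d) (G y))))) :=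
    fun y => rfl
  have k1 : ∀ y, P2 f g d n s t e G p w y ∈ Bb d n s t e p w ⊓ LinearMap.ker Z := by
    intro y
    rw [app]
    set z := br f (br g d) (G y) with hz
    have e1 : ∀ z, s p (t (w + n) z) = t (w + n) (s p z) := fun z =>
      LinearMap.congr_fun (hb.st (w + n) p) z
    refine ⟨⟨⟨?_, R.ee _⟩, ?_⟩, ?_⟩
    · rw [e1]
      exact R.he.aat (at_comp hb p w (d z))
    · have h2 : s p (t (w + n) (d z)) = d (s (p - 1) (t (w + n - 1) z)) := by
        have h3 := LinearMap.congr_fun (hb.dt (w + n - 1)) z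
        have h4 := LinearMap.congr_fun (hb.ds (p - 1)) (t (w + n - 1) z)
        rw [Module.End.mul_apply, Module.End.mul_apply, sub_add_cancel] at h3 h4
        rw [h4, h3]
      rw [h2, R.he.ad]
      exact ⟨_, rfl⟩
    · change Z (e (s p (t (w + n) (d z)))) = 0
      have h3 : Z z = 0 := by
        have h4 : Z * br f (br g d) = br f (br g d) * Z := hZ.c_cmp h 3
        have h5 := LinearMap.congr_fun h4 (G y)
        rw [Module.End.mul_apply, Module.End.mul_apply] at h5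
        have h6 : Z (G y) = 0 := LinearMap.congr_fun F.piG y
        rw [hz, h5, h6, map_zero]
      rw [← eZ, app_comm (hZ.cs p), app_comm (hZ.ct _), hZ.zd, h3]
      simp only [map_zero]
  have k2 : ∀ x ∈ Bb d n s t e p w ⊓ LinearMap.ker Z, P2 f g d n s t e G p w x = x := by
    rintro x ⟨⟨⟨h1, h2⟩, y, rfl⟩, h3⟩
    have h3' : Z (d y) = 0 := h3
    have dd : d * d = 0 := hb.dd
    have h4 := LinearMap.congr_fun (F.dhd d (br f (br g d)) rfl dd Gd hZ.cd) y
    change d (br f (br g d) (G (d y))) = d (y - Z y) at h4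
    rw [app, h4, map_sub, ← hZ.zd, h3', sub_zero, h1.ht, h1.hs, h2]
  refine ⟨?_, LinearMap.ext fun y => k2 _ (k1 y)⟩
  ext x
  exact ⟨fun hx => ⟨x, k2 x hx⟩, by rintro ⟨y, rfl⟩; exact k1 y⟩

include h R hZ eZ in
/-- the coboundaries in the image of `Z` -/
lemma Rl.mem_bz {p w : ℤ} {z : E} : z ∈ Bz d n s t e Z p w ↔
    ∃ y ∈ Hs s t n Z (p - 1) (w - 1), e y = y ∧ z = d y := by
  have hb := h.bi
  constructor
  · rintro ⟨x, ⟨⟨h1, h2⟩, y, hy⟩, rfl⟩
    obtain ⟨y', h3, h4⟩ := at_hom hb h1 hy.symm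
    have h5 := Hs.z_at h hZ (R.he.aat h3)
    refine ⟨Z (e y'), h5, by rw [eZ, R.ee], ?_⟩
    rw [← hZ.zd, ← R.he.ad, ← h4, h2]
  · rintro ⟨y, h1, h2, rfl⟩
    have h3 := h1.1.ad hb
    rw [sub_add_cancel, sub_add_cancel] at h3
    exact ⟨d y, ⟨⟨h3, by rw [R.he.ad, h2]⟩, y, rfl⟩, by rw [hZ.zd, h1.2]⟩

include h R ψZ in
lemma Rl.am_stab (m : ℕ) : ∀ x ∈ Am f g n s t Z e, (ψ ^ m) x ∈ Am f g n s t Z e := by
  refine pow_mem_of ?_ m
  rintro x ⟨h1, h2, h3⟩
  exact ⟨R.hψ.prim h.bi h1, by rw [← ψZ, h2], by rw [R.eψ, h3]⟩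

omit [CharZero K] [FiniteDimensional K E] in
lemma pow_comm_app {T O : Module.End K E} (hT : T * O = O * T) (m : ℕ) (x : E) :
    O ((T ^ m) x) = (T ^ m) (O x) :=
  (LinearMap.congr_fun ((show Commute T O from hT).pow_left m).eq x).symm

include h R ψZ in
lemma Rl.amu_stab (m : ℕ) : ∀ x ∈ (Am f g n s t Z e).map (uop f g d),
    (ψ ^ m) x ∈ (Am f g n s t Z e).map (uop f g d) := by
  rintro _ ⟨x, hx, rfl⟩
  refine ⟨(ψ ^ m) x, R.am_stab h ψZ m x hx, ?_⟩
  exact pow_comm_app (LinearMap.ext fun x => R.hψ.uop x) m x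

/-- from `e = 1` to `e` -/
lemma Rl.am_e (hb : Bi N f L g d n s t P D) (R : Rl N f L g d n s t e ψ u φ ν c q)
    (eZ : ∀ x, e (Z x) = Z (e x)) {a : E} (ha : a ∈ Am f g n s t Z 1) :
    e a ∈ Am f g n s t Z e :=
  ⟨prim_comm hb R.he.f R.he.g R.he.s R.he.t ha.1, by rw [← eZ, ha.2.1], R.ee a⟩

include h R hZ hc hL eZ ψZ in
/-- the traces on the coboundaries in the image of `Z` -/
theorem Rl.tr_bz (p w : ℤ) (m : ℕ) : trOn (ψ ^ m) (Bz d n s t e Z p w) =
    if (p = 0 ∧ w = 1) ∨ (p = 1 ∧ w = 0) then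
      trOn (ψ ^ m) ((Am f g n s t Z e).map (uop f g d)) else 0 := by
  have hb := h.bi
  by_cases h1 : p = 0 ∧ w = 1
  · rw [if_pos (Or.inl h1)]
    obtain ⟨rfl, rfl⟩ := h1
    have e1 : Bz d n s t e Z 0 1 = (Am f g n s t Z e).map d := by
      ext z
      rw [R.mem_bz h hZ eZ]
      constructor
      · rintro ⟨y, h1, h2, rfl⟩
        have h3 : y ∈ Hs s t n Z (-1) 0 := by simpa using h1
        obtain ⟨h4, h5⟩ := hc.am1 h h3
        refine ⟨e (Z' y), R.am_e hb eZ h4, ?_⟩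
        rw [← R.he.ad, ← h5, R.he.ad, h2]
      · rintro ⟨a, ha, rfl⟩
        exact ⟨a, by simpa using (hc.am_at h ha).2, ha.2.2, rfl⟩
    have e2 : (Am f g n s t Z e).map (uop f g d) =
        ((Am f g n s t Z e).map d).map (f * (d * g)) := by
      rw [← Submodule.map_comp]
      rfl
    rw [e1, e2, trOn_map_inj (f * (d * g)) (U := (Am f g n s t Z e).map d) (T := ψ ^ m)
      (T' := ψ ^ m)]
    · rintro _ ⟨x, hx, rfl⟩
      exact ⟨(ψ ^ m) x, R.am_stab h ψZ m x hx, pow_comm_app R.hψ.d m x⟩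
    · intro x _
      refine pow_comm_app (O := f * (d * g)) (LinearMap.ext fun x => ?_) m x
      change ψ (f (d (g x))) = f (d (g (ψ x)))
      rw [R.hψ.af, R.hψ.ad, R.hψ.ag]
    · rintro _ ⟨x, hx, rfl⟩ h2
      exact hc.ker_u h hL hx h2
  by_cases h2 : p = 1 ∧ w = 0
  · rw [if_pos (Or.inr h2)]
    obtain ⟨rfl, rfl⟩ := h2
    have e1 : Bz d n s t e Z 1 0 = ((Am f g n s t Z e).map (uop f g d)).map N := by
      ext z
      rw [R.mem_bz h hZ eZ]
      constructor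
      · rintro ⟨y, h1, h2, rfl⟩
        have h3 : y ∈ Hs s t n Z 0 (-1) := by simpa using h1
        obtain ⟨a, h4, h5⟩ := hc.im2 h hZ hL h3
        refine ⟨uop f g d (e a), ⟨e a, R.am_e hb eZ h4, rfl⟩, ?_⟩
        rw [← R.he.uop, ← R.he.aN, ← h5, R.he.ad, h2]
      · rintro ⟨_, ⟨a, ha, rfl⟩, rfl⟩
        rw [hc.nu h ha]
        refine ⟨g (d a), ?_, ?_, rfl⟩
        · have := hc.hs_le (hc.gd_at h (hc.am_at h ha).1)
          simpa using this
        · rw [R.he.ag, R.he.ad, ha.2.2]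
    rw [e1, trOn_map_inj N (U := (Am f g n s t Z e).map (uop f g d)) (T := ψ ^ m)
      (T' := ψ ^ m) (R.amu_stab h ψZ m)]
    · intro x _
      exact pow_comm_app R.hψ.N m x
    · rintro _ ⟨x, hx, rfl⟩ h2
      have h3 := hc.uop_mem h R.he hx
      have h4 := ((hc.am_at h h3).1.1).brN hb
      have h5 : f (uop f g d x) = 0 := ((mem_prim_iff hb).1 h3.1).2.2.1
      rw [h2, h5, map_zero, map_zero, zero_add] at h4
      have h6 : (((-1 : ℤ) : K)) • uop f g d x = -(uop f g d x) := by simp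
      rw [h6] at h4
      exact neg_eq_zero.1 h4.symm
  · rw [if_neg (by tauto)]
    have e1 : Bz d n s t e Z p w = ⊥ := by
      rw [Submodule.eq_bot_iff]
      intro z hz
      rw [R.mem_bz h hZ eZ] at hz
      obtain ⟨y, h3, -, rfl⟩ := hz
      exact hc.d_zero h hZ h3 (by omega) (by omega)
    rw [e1, trOn_bot]

include h R hZ hc eZ hF in
/-- surjectivity of the monodromy operator in nonnegative position -/
theorem Rl.nu_sur {p w : ℤ} (hp : 0 ≤ p) :
    ∀ z ∈ Gr d n s t e u (p + 2) w, ∃ y ∈ Gr d n s t e u p w, ν y = z := by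
  rintro _ ⟨x, ⟨⟨h1, h2⟩, h3⟩, rfl⟩
  have h3' : d x = 0 := h3
  obtain ⟨y, h4, h5, h6⟩ := hc.sur h hZ (Hs.z_at h hZ h1) hp
  have h7 : d (e y) = 0 := by rw [← R.he.ad, h5, map_zero]
  refine ⟨u (e y), ⟨e y, ⟨⟨R.he.aat h4.1, R.ee y⟩, h7⟩, rfl⟩, ?_⟩
  rw [← R.mono _ h7, ← R.he.aN, h6, eZ, h2]
  have h8 := R.u_range h.bi (hF x h3')
  rw [map_sub, sub_eq_zero] at h8
  exact h8.symm

include h R hZ hc hL eZ ψZ hF in
/-- the kernel of the monodromy operator in negative position -/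
theorem Rl.tr_ker_neg {p w : ℤ} (hp : p < 0) (m : ℕ) :
    trOn (φ ^ m) (Gr d n s t e u p w ⊓ LinearMap.ker ν) =
      if p = -1 ∧ w = 0 then c 1 ^ m * trOn (ψ ^ m) (Am f g n s t Z e ⊓
        (LinearMap.ker (uop f g d) ⊓ (Am f g n s t Z e).map (uop f g d))) else 0 := by
  have hb := h.bi
  -- cocycles with image zero under the monodromy operator
  have key : ∀ x ∈ Cc d n s t e p w, ν (u x) = 0 → Z x ∈ Hs s t n Z p w ∧ d (Z x) = 0 ∧
      (∃ y, N (Z x) = d y) ∧ u (Z x) = u x := by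
    rintro x ⟨⟨h1, h2⟩, h3⟩ h4
    have h3' : d x = 0 := h3
    rw [← R.mono x h3'] at h4
    have h5 : d (N x) = 0 := by
      have : d (N x) = N (d x) := (LinearMap.congr_fun hb.Nd x).symm
      rw [this, h3', map_zero]
    rw [R.ker _ h5, R.he.aN, h2] at h4
    obtain ⟨y, hy⟩ := h4
    refine ⟨Hs.z_at h hZ h1, by rw [← hZ.zd, h3', map_zero], ⟨Z y, ?_⟩, ?_⟩
    · rw [← hZ.zN, ← hy, hZ.zd]
    · have h8 := R.u_range hb (hF x h3')
      rw [map_sub, sub_eq_zero] at h8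
      exact h8.symm
  by_cases h1 : p = -1 ∧ w = 0
  · rw [if_pos h1]
    obtain ⟨rfl, rfl⟩ := h1
    set U0 := Am f g n s t Z e ⊓
      (LinearMap.ker (uop f g d) ⊓ (Am f g n s t Z e).map (uop f g d)) with hU0
    have hst : ∀ x ∈ U0, (ψ ^ m) x ∈ U0 := by
      rintro x ⟨h1, h2, h3⟩
      refine ⟨R.am_stab h ψZ m x h1, ?_, R.amu_stab h ψZ m x h3⟩
      change uop f g d ((ψ ^ m) x) = 0
      have h2' : uop f g d x = 0 := h2
      rw [pow_comm_app (LinearMap.ext fun x => R.hψ.uop x) m x, h2', map_zero]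
    have hcc : ∀ x ∈ U0, x ∈ Cc d n s t e (-1) 0 := by
      rintro x ⟨h1, h2, h3⟩
      exact ⟨⟨(hc.am_at h h1).2.1, h1.2.2⟩, hc.ker_u h hL h1 h2⟩
    rw [← trOn_smul hst]
    refine trOn_eq_of_iso u (T := c 1 ^ m • ψ ^ m) (fun x hx => U0.smul_mem _ (hst x hx)) ?_ ?_
      ?_ ?_
    · intro x hx
      have h2 := R.frob_pow hb m x (hcc x hx)
      rw [show (0 : ℤ) - -1 = 1 by norm_num] at h2
      rw [LinearMap.smul_apply, map_smul, h2]
    · intro x hx h2
      have h3 := hcc x hx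
      have h4 : x ∈ Bz d n s t e Z (-1) 0 := by
        have h5 := (R.ker x h3.2).1 h2
        rw [h3.1.2] at h5
        exact ⟨x, ⟨h3.1, h5⟩, hx.1.2.1⟩
      rw [R.mem_bz h hZ eZ] at h4
      obtain ⟨y, h5, -, h6⟩ := h4
      rw [h6]
      exact hc.d_zero h hZ h5 (by omega) (by omega)
    · intro x hx
      refine ⟨⟨x, hcc x hx, rfl⟩, ?_⟩
      change ν (u x) = 0
      rw [← R.mono x (hcc x hx).2]
      refine R.u_range hb ?_
      obtain ⟨a, ha, hax⟩ := hx.2.2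
      rw [← hax, hc.nu h ha]
      exact ⟨_, rfl⟩
    · rintro _ ⟨⟨x, hx, rfl⟩, h2⟩
      obtain ⟨h3, h4, h5, h6⟩ := key x hx h2
      obtain ⟨a, ha, h7, h8⟩ := hc.ker1 h hZ hL h3 h4 h5
      have h9 : Z x = uop f g d (e a) := by
        rw [← R.he.uop, ← h7, eZ, hx.1.2]
      have h10 := R.am_e hb eZ ha
      refine ⟨Z x, ⟨by rw [h9]; exact hc.uop_mem h R.he h10, ?_, e a, h10, h9.symm⟩, h6⟩
      change uop f g d (Z x) = 0
      rw [h7, h8]
  · rw [if_neg h1]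
    have e1 : Gr d n s t e u p w ⊓ LinearMap.ker ν = ⊥ := by
      rw [Submodule.eq_bot_iff]
      rintro _ ⟨⟨x, hx, rfl⟩, h2⟩
      obtain ⟨h3, h4, h5, h6⟩ := key x hx h2
      rw [← h6, hc.inj h hZ h3 hp h1 h5, map_zero]
    rw [e1, trOn_bot]

end core

end Pool.Agent.H79Q
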