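import Pool.Agent.W_MP_a3c811_h79.Q.RealA

/-! The traces of Frobenius on the realisation, sums over the positions; families of rational
numbers. -/

noncomputable section

set_option linter.unusedSectionVars false

namespace Pool.Agent.H79Q

open Module Polynomial Pool.Agent.H79L Pool.Agent.H62X

universe v w w'

section rat

variable {I : Type} {K : I → Type v} [∀ l, Field (K l)] [∀ l, CharZero (K l)]

/-- The numbers are rational and do not depend on `l`. -/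
def RatFam (f : ∀ l, K l) : Prop := ∃ a : ℚ, ∀ l, f l = ((a : ℚ) : K l)

lemma RatFam.add {f f' : ∀ l, K l} (h : RatFam f) (h' : RatFam f') :
    RatFam fun l => f l + f' l := by
  obtain ⟨a, ha⟩ := h
  obtain ⟨b, hb⟩ := h'
  exact ⟨a + b, fun l => by simp only [ha, hb]; push_cast; rfl⟩

lemma RatFam.sub {f f' : ∀ l, K l} (h : RatFam f) (h' : RatFam f') :
    RatFam fun l => f l - f' l := by
  obtain ⟨a, ha⟩ := h
  obtain ⟨b, hb⟩ := h'
  exact ⟨a - b, fun l => by simp only [ha, hb]; push_cast; rfl⟩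

lemma RatFam.mul {f f' : ∀ l, K l} (h : RatFam f) (h' : RatFam f') :
    RatFam fun l => f l * f' l := by
  obtain ⟨a, ha⟩ := h
  obtain ⟨b, hb⟩ := h'
  exact ⟨a * b, fun l => by simp only [ha, hb]; push_cast; rfl⟩

lemma RatFam.const (a : ℚ) : RatFam fun l => ((a : ℚ) : K l) := ⟨a, fun _ => rfl⟩

lemma RatFam.zero : RatFam fun l => (0 : K l) := ⟨0, fun l => by simp⟩

lemma RatFam.pow {f : ∀ l, K l} (h : RatFam f) (m : ℕ) : RatFam fun l => f l ^ m := by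
  obtain ⟨a, ha⟩ := h
  exact ⟨a ^ m, fun l => by simp only [ha]; push_cast; rfl⟩

lemma RatFam.sum {ι : Type*} (P : Finset ι) {f : ι → ∀ l, K l} (h : ∀ i, RatFam (f i)) :
    RatFam fun l => ∑ i ∈ P, f i l := by
  choose a ha using h
  refine ⟨∑ i ∈ P, a i, fun l => ?_⟩
  push_cast
  exact Finset.sum_congr rfl fun i _ => ha i l

lemma RatFam.ite {p : Prop} [Decidable p] {f f' : ∀ l, K l} (h : RatFam f) (h' : RatFam f') :
    RatFam fun l => if p then f l else f' l := by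
  by_cases hp : p
  · simpa [hp] using h
  · simpa [hp] using h'

lemma RatFam.of_eq {f f' : ∀ l, K l} (h : RatFam f) (he : ∀ l, f' l = f l) : RatFam f' := by
  obtain ⟨a, ha⟩ := h
  exact ⟨a, fun l => by rw [he, ha]⟩

end rat

variable {K : Type v} [Field K] [CharZero K] {E : Type w} [AddCommGroup E] [Module K E]
  [FiniteDimensional K E]
  {N f L g d : Module.End K E} {n : ℤ} {s t : ℤ → Module.End K E}
  {P D : Finset ℤ} {S : E →ₗ[K] E →ₗ[K] K} {B : Subring (Module.End K E)}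
  {Z Z' G e ψ : Module.End K E} {V : Type w'} [AddCommGroup V] [Module K V]
  [FiniteDimensional K V]

/-- the position projectors on the realisation -/
structure Sg (d : Module.End K E) (s : ℤ → Module.End K E) (u : E →ₗ[K] V)
    (φ ν : Module.End K V) (σ : ℤ → Module.End K V) (P : Finset ℤ) : Prop where
  u : ∀ p x, d x = 0 → σ p (u x) = u (s p x)
  idem : ∀ p y, σ p (σ p y) = σ p y
  sum : ∀ y, ∑ p ∈ P, σ p y = y
  φ : ∀ p y, φ (σ p y) = σ p (φ y)
  ν : ∀ p y, ν (σ p y) = σ (p + 2) (ν y)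

/-- the part of degree `w + n` of the realisation -/
def Dg (d : Module.End K E) (n : ℤ) (t : ℤ → Module.End K E) (u : E →ₗ[K] V) (w : ℤ) :
    Submodule K V := (LinearMap.ker d ⊓ LinearMap.ker (t (w + n) - 1)).map u

lemma mem_Dg {u : E →ₗ[K] V} {w : ℤ} {y : V} : y ∈ Dg d n t u w ↔
    ∃ x, d x = 0 ∧ t (w + n) x = x ∧ u x = y := by
  constructor
  · rintro ⟨x, ⟨h1, h2⟩, rfl⟩
    refine ⟨x, h1, ?_, rfl⟩
    have h3 : t (w + n) x - x = 0 := h2
    exact sub_eq_zero.1 h3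
  · rintro ⟨x, h1, h2, rfl⟩
    refine ⟨x, ⟨h1, ?_⟩, rfl⟩
    change t (w + n) x - x = 0
    rw [h2, sub_self]

section one

variable {u : E →ₗ[K] V} {φ ν : Module.End K V} {c : ℤ → K} {q : K} {σ : ℤ → Module.End K V}
  {P' : Finset ℤ}
  (hb : Bi N f L g d n s t P D) (R : Rl N f L g d n s t e ψ u φ ν c q)
  (hs : Sg d s u φ ν σ P')
include hb R hs

lemma Sg.map_deg (p w : ℤ) : (Dg d n t u w).map (σ p) = Gr d n s t e u p w := by
  ext y
  constructor
  · rintro ⟨y, hy, rfl⟩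
    obtain ⟨x, h1, h2, rfl⟩ := mem_Dg.1 hy
    have h3 : d (s p x) = 0 := by
      have := LinearMap.congr_fun (hb.ds p) x
      rw [Module.End.mul_apply, Module.End.mul_apply, h1, map_zero] at this
      exact this
    rw [hs.u p x h1, ← R.u_e hb h3]
    refine ⟨e (s p x), ⟨⟨R.he.aat ⟨?_, ?_⟩, R.ee _⟩, ?_⟩, rfl⟩
    · exact LinearMap.congr_fun (hb.sl.idem p) x
    · have := LinearMap.congr_fun (hb.st (w + n) p) x
      rw [Module.End.mul_apply, Module.End.mul_apply, h2] at this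
      exact this.symm
    · change d (e (s p x)) = 0
      rw [← R.he.ad, h3, map_zero]
  · rintro ⟨x, ⟨⟨h1, h2⟩, h3⟩, rfl⟩
    refine ⟨u x, mem_Dg.2 ⟨x, h3, h1.ht, rfl⟩, ?_⟩
    rw [hs.u p x h3, h1.hs]

lemma Sg.map_inv (p w : ℤ) : (Dg d n t u w ⊓ LinearMap.ker ν).map (σ p) =
    Gr d n s t e u p w ⊓ LinearMap.ker ν := by
  ext y
  constructor
  · rintro ⟨y, ⟨hy, hy'⟩, rfl⟩
    have hy0 : ν y = 0 := hy'
    refine ⟨?_, ?_⟩
    · rw [SetLike.mem_coe, ← hs.map_deg hb R]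
      exact ⟨y, hy, rfl⟩
    · change ν (σ p y) = 0
      rw [hs.ν, hy0, map_zero]
  · rintro ⟨⟨x, ⟨⟨h1, h2⟩, h3⟩, rfl⟩, h4⟩
    refine ⟨u x, ⟨mem_Dg.2 ⟨x, h3, h1.ht, rfl⟩, h4⟩, ?_⟩
    rw [hs.u p x h3, h1.hs]

lemma Sg.deg_stab (w : ℤ) (surj : ∀ p w, ∀ y ∈ Gr d n s t e u p w, y ∈ Dg d n t u w) (m : ℕ) :
    ∀ y ∈ Dg d n t u w, (φ ^ m) y ∈ Dg d n t u w := by
  intro y hy
  rw [← hs.sum y, map_sum]
  refine Submodule.sum_mem _ fun p _ => surj p w _ ?_
  refine R.gr_stab hb m _ ?_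
  rw [← hs.map_deg hb R]
  exact ⟨y, hy, rfl⟩

omit hs in
lemma gr_le (p w : ℤ) : ∀ y ∈ Gr d n s t e u p w, y ∈ Dg d n t u w := by
  rintro _ ⟨x, ⟨⟨h1, h2⟩, h3⟩, rfl⟩
  exact mem_Dg.2 ⟨x, h3, h1.ht, rfl⟩

lemma Sg.φ_pow (m : ℕ) (p : ℤ) (y : V) : (φ ^ m) (σ p y) = σ p ((φ ^ m) y) := by
  induction m with
  | zero => rfl
  | succ m ih => rw [pow_succ', Module.End.mul_apply, Module.End.mul_apply, ih, hs.φ]

/-- the trace of Frobenius on the part of degree `w + n` -/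
theorem Sg.tr_deg (w : ℤ) (m : ℕ) : trOn (φ ^ m) (Dg d n t u w) =
    ∑ p ∈ P', trOn (φ ^ m) (Gr d n s t e u p w) := by
  rw [trOn_sum P' σ hs.idem hs.sum (fun p y hy => ?_)
    (hs.deg_stab hb R w (gr_le hb R) m) (fun p y => hs.φ_pow hb R m p y)]
  · exact Finset.sum_congr rfl fun p _ => by rw [hs.map_deg hb R]
  · refine gr_le hb R p w _ ?_
    rw [← hs.map_deg hb R]
    exact ⟨y, hy, rfl⟩

lemma Sg.inv_stab (w : ℤ) (m : ℕ) :
    ∀ y ∈ Dg d n t u w ⊓ LinearMap.ker ν, (φ ^ m) y ∈ Dg d n t u w ⊓ LinearMap.ker ν := by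
  rintro y ⟨hy, hy'⟩
  have hy0 : ν y = 0 := hy'
  refine ⟨hs.deg_stab hb R w (gr_le hb R) m y hy, ?_⟩
  change ν ((φ ^ m) y) = 0
  rw [R.nu_phi hb, hy0, map_zero, smul_zero]

/-- the trace of Frobenius on the inertia invariants of degree `w + n` -/
theorem Sg.tr_inv (w : ℤ) (m : ℕ) : trOn (φ ^ m) (Dg d n t u w ⊓ LinearMap.ker ν) =
    ∑ p ∈ P', trOn (φ ^ m) (Gr d n s t e u p w ⊓ LinearMap.ker ν) := by
  rw [trOn_sum P' σ hs.idem hs.sum (fun p y hy => ?_)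
    (hs.inv_stab hb R w m) (fun p y => hs.φ_pow hb R m p y)]
  · exact Finset.sum_congr rfl fun p _ => by rw [hs.map_inv hb R]
  · have h1 : σ p y ∈ Gr d n s t e u p w ⊓ LinearMap.ker ν := by
      rw [← hs.map_inv hb R]
      exact ⟨y, hy, rfl⟩
    exact ⟨gr_le hb R p w _ h1.1, h1.2⟩

end one

end Pool.Agent.H79Q
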