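import Pool.Agent.W_MP_a3c811_h79.MF.StS

/-! Definitions for the statement: motives cut out by an endomorphism of the cohomology of the strata,
simple eigenvalues on the transcendental cocycles. -/

noncomputable section

namespace Pool.Agent.H62S

open Pool.Agent.WeilH_h6 Pool.Agent.WeilH_h6.VarClass Pool.Agent.H62A

universe u v w

/-- The vectors with the property `A` form a subspace which is stable under `S`, and the
characteristic polynomial of `S` on it is squarefree. -/
def SqfreeOn {K : Type v} [Field K] {E : Type w} [AddCommGroup E] [Module K E]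
    (A : E → Prop) (S : E →ₗ[K] E) : Prop :=
  ∃ U : Submodule K E, (∀ x, x ∈ U ↔ A x) ∧ ∃ (h : MapsOn S U U) (_ : FiniteDimensional K U),
    Squarefree (S.restrict h).charpoly

variable {k : Type u} [Field k] {𝒱 : VarClass k} {I : Type} {K : I → Type v} [∀ l, Field (K l)]
  {W : ∀ l, Weil.{u, v, w} 𝒱 (K l)}

namespace Strata

variable (X : Strata W)

/-- `φ` is a motivic endomorphism of the sum of the `H(Y a)` which respects levels and degrees and
commutes with `res`, `gys` and `L`. -/
def MotCompat (φ : ∀ l, TEnd (W l) X.Y) : Prop :=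
  Motivic W X.Y φ ∧ ∀ l, Compat (W l) X.Y X.lev (X.res l) (X.gys l) (X.L l) (φ l)

/-- `S T = T S` in all theories. -/
def ComFam (S T : ∀ l, TEnd (W l) X.Y) : Prop := ∀ l, ComT (W l) X.Y (S l) (T l)

/-- `S S = S` in all theories. -/
def IdemFam (S : ∀ l, TEnd (W l) X.Y) : Prop :=
  ∀ l x, app (W l) X.Y (S l) (app (W l) X.Y (S l) x) = app (W l) X.Y (S l) x

/-- The form `Tr (x x)` has no zeros among the nonzero classes of cycles in the primitive part
`(1, 0)` (the Hodge index theorem and homological equals numerical equivalence for these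
classes). -/
def IndexAt (l : I) : Prop :=
  NoIso (pairing (W l) X.Y) (X.L l) (CycClass (W l) X.Y) (X.prim l 1 0) 0

/-- `x` is in the primitive part `(1, 0)` (the primitive cohomology in the middle degree of the
double locus), fixed by `ε`, killed by `res` and `gys` and orthogonal to all classes of cycles. -/
def TransKer (l : I) (ε : TEnd (W l) X.Y) (x : Tot (W l) X.Y) : Prop :=
  x ∈ X.prim l 1 0 ∧ app (W l) X.Y ε x = x ∧ app (W l) X.Y (X.res l) x = 0 ∧
    app (W l) X.Y (X.gys l) x = 0 ∧ ∀ z, CycClass (W l) X.Y z → X.pair l x z = 0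

/-- The characteristic polynomial of `φ` on the subspace `TransKer` is squarefree. -/
def SimpleAt (l : I) (ε φ : TEnd (W l) X.Y) : Prop := SqfreeOn (X.TransKer l ε) φ

namespace Motive

variable {X} (M : X.Motive)

/-- The dimension of `V^w` in the theory `l`. -/
def dimDeg (l : I) (w : ℤ) : ℕ := Module.finrank (K l) (M.deg l w)

/-- The motive is cut out by the endomorphism `ε` of the sum of the `H(Y a)`, and its Frobenius is
`c j` times `ψ` on the parts of weight `j` of the `E_1`-term; `ε` and `ψ` are motivic, respect levels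
and degrees and commute with `res`, `gys`, `L` and with each other, `ε ε = ε`. -/
structure Via (ε ψ : ∀ l, TEnd (W l) X.Y) (c : ℤ → ℚ) : Prop where
  proj : ∀ l, M.e l = X.lift l 0 (ε l)
  frob : ∀ l w p, ∀ x ∈ X.part l w p, M.F l x = (c (w - p) : K l) • X.lift l 0 (ψ l) x
  compat : X.MotCompat ε ∧ X.MotCompat ψ
  comm : X.ComFam ε ψ ∧ X.IdemFam ε

end Motive

end Strata

end Pool.Agent.H62S
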