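import Pool.Agent.W_MP_a3c811_h79.MF.SigR
import Pool.Agent.W_MP_a3c811_h79.Q.RealB
import Pool.Agent.W_MP_a3c811_h79.Q.StQ
import Pool.Agent.W_a3c811_h62w.TrI

/-! The traces of Frobenius on the realisations: from the nilpotent operator on the primitive part
`(1, 0)` to independence. -/

noncomputable section

set_option linter.unusedSectionVars false

namespace Pool.Agent.H79Q

open Module Polynomial Pool.Agent.WeilH_h6 Pool.Agent.WeilH_h6.VarClass Pool.Agent.H62D
  Pool.Agent.H62A Pool.Agent.H79L Pool.Agent.H62X Pool.Agent.H79E Pool.Agent.H62S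
  Pool.Agent.H62S.Strata

universe u v w

variable {k : Type u} [Field k] {𝒱 : VarClass k} {I : Type} {K : I → Type v} [∀ l, Field (K l)]
  [∀ l, CharZero (K l)] {W : ∀ l, Weil.{u, v, w} 𝒱 (K l)} {X : Strata W}

variable (X) in
/-- the position projectors of the `E_1`-term -/
abbrev sP (l : I) : ℤ → Module.End (K l) (Tot (W l) X.EY) := posProj (W l) X.EY X.epos

variable (X) in
/-- the degree projectors of the `E_1`-term -/
abbrev tP (l : I) : ℤ → Module.End (K l) (Tot (W l) X.EY) := degProj (W l) X.EY X.epos X.etw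

/-- an endomorphism of the `E_1`-term which commutes with all operators -/
abbrev XEC (X : Strata W) (l : I) (e : Module.End (K l) (Tot (W l) X.EY)) : Prop :=
  EC (K := K l) (E := Tot (W l) X.EY) (X.eN l) (X.eNd l) (X.eL l) (X.eLam l) (X.ed l) (sP X l)
    (tP X l) e

/-- the primitive part `(1, 0)` of the kernel part of the Laplacian -/
abbrev XAm (X : Strata W) (l : I) (Z e : Module.End (K l) (Tot (W l) X.EY)) :
    Submodule (K l) (Tot (W l) X.EY) :=
  Am (K := K l) (E := Tot (W l) X.EY) (X.eNd l) (X.eLam l) X.n (sP X l) (tP X l) Z e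

/-- the operator `f d g d` -/
abbrev xuop (X : Strata W) (l : I) : Module.End (K l) (Tot (W l) X.EY) :=
  uop (K := K l) (E := Tot (W l) X.EY) (X.eNd l) (X.eLam l) (X.ed l)

/-- the core of the kernel part of the Laplacian -/
abbrev XCore (X : Strata W) (l : I) (BY : Subring (Module.End (K l) (Tot (W l) X.Y)))
    (hY : X.YRing l BY) (Z Z' : Module.End (K l) (Tot (W l) X.EY)) : Prop :=
  CoreP (K := K l) (E := Tot (W l) X.EY) (X.eN l) (X.eNd l) (X.eL l) (X.eLam l) (X.ed l) X.n
    (sP X l) (tP X l) (X.eS l) (X.bring l BY hY.pos) Z Z'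

/-- the projector onto the kernel part of the Laplacian -/
abbrev ZE (X : Strata W) (hW : Compatible W) (p : ℚ[X]) (l : I) :
    Module.End (K l) (Tot (W l) X.EY) := MA.val (aeval ((X.toLefschetz hW).lapA hW) p) l

/-- the Fitting decomposition of the Laplacian -/
abbrev FitX (X : Strata W) (hW : Compatible W) (p q : ℚ[X]) : Prop :=
  Fitting ((X.toLefschetz hW).lapA hW) (aeval ((X.toLefschetz hW).lapA hW) p)
    (aeval ((X.toLefschetz hW).lapA hW) q)

section single

variable {l : I}

/-- the endomorphisms of the strata which respect the structure commute with all operators -/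
theorem ec_lift [DecidableEq X.J] (hW : Compatible W) {φ : Module.End (K l) (Tot (W l) X.Y)}
    (h : Com X l φ) : XEC X l (X.lift l 0 φ) := by
  have hG : ∀ φ' ∈ ({φ} : Set (Module.End (K l) (Tot (W l) X.Y))), Com X l φ' := by
    intro φ' hφ'
    rw [Set.mem_singleton_iff.1 hφ']
    exact h
  have hY := yring_sring hW hG
  obtain ⟨D, hP⟩ := hY.pol hW
  have hc := com_bring hY (φ := φ) (fun U hU => ((mem_sring hW).1 hU).2.1 φ rfl)
  exact ⟨hc _ hP.mN, hc _ hP.mf, hc _ hP.mL, hc _ hP.mg, hc _ hP.md, fun p => hc _ (hP.ms p),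
    fun w => hc _ (hP.mt w)⟩

theorem lift_Z [DecidableEq X.J] (hW : Compatible W) {φ : Module.End (K l) (Tot (W l) X.Y)}
    (h : Com X l φ) {p q : ℚ[X]} (F : FitX X hW p q)
    (x : Tot (W l) X.EY) :
    X.lift l 0 φ (ZE X hW p l x) = ZE X hW p l (X.lift l 0 φ x) := by
  have hG : ∀ φ' ∈ ({φ} : Set (Module.End (K l) (Tot (W l) X.Y))), Com X l φ' := by
    intro φ' hφ'
    rw [Set.mem_singleton_iff.1 hφ']
    exact h
  have hY := yring_sring hW hG
  have hc := com_bring hY (φ := φ) (fun U hU => ((mem_sring hW).1 hU).2.1 φ rfl)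
  exact LinearMap.congr_fun (hc _ (har_strata hY hW F).mem) x

lemma motCompat_com {φ : ∀ l, TEnd (W l) X.Y} (h : X.MotCompat φ) (l : I) : Com X l (φ l) := by
  obtain ⟨h1, h2, h3, h4⟩ := h.2 l
  exact com_of h1 h2 h3 h4

/-- cocycles and the projector -/
theorem sub_Z (hW : Compatible W) {p q : ℚ[X]} (F : FitX X hW p q)
    (x : Tot (W l) X.EY) (hx : X.ed l x = 0) :
    x - ZE X hW p l x ∈ LinearMap.range (X.ed l) :=
  sub_piv_mem F l hx

end single

section real

variable [DecidableEq X.J] (hW : Compatible W) {M : X.Motive} {ε ψ : ∀ l, TEnd (W l) X.Y}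
  {c : ℤ → ℚ} (hM : M.Via ε ψ c)
include hW hM

/-- the realisation in one theory -/
theorem rl_of (l : I) : Rl (K := K l) (E := Tot (W l) X.EY) (V := M.V l) (X.eN l) (X.eNd l)
    (X.eL l) (X.eLam l) (X.ed l) X.n (sP X l) (tP X l) (X.lift l 0 (ε l)) (X.lift l 0 (ψ l))
    (M.u l) (M.φ l) (M.ν l) (fun j => ((c (j + X.n) : ℚ) : K l)) (M.q : K l) where
  ee x := by
    have hsh : X.Shift l 0 (ε l) := shift_of X l (hM.compat.1.2 l).1
    have h1 := LinearMap.congr_fun (lift_lift X l hsh 0 0 (ε l) le_rfl) x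
    have h2 : ε l ∘ₗ ε l = ε l := LinearMap.ext fun x => hM.comm.2 l x
    rw [h2] at h1
    exact h1
  he := ec_lift hW (motCompat_com hM.compat.1 l)
  hψ := ec_lift hW (motCompat_com hM.compat.2 l)
  eψ x := by
    have hsh : X.Shift l 0 (ε l) := shift_of X l (hM.compat.1.2 l).1
    have hsh' : X.Shift l 0 (ψ l) := shift_of X l (hM.compat.2.2 l).1
    have h1 := LinearMap.congr_fun (lift_lift X l hsh 0 0 (ψ l) le_rfl) x
    have h2 := LinearMap.congr_fun (lift_lift X l hsh' 0 0 (ε l) le_rfl) x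
    have h3 : ε l ∘ₗ ψ l = ψ l ∘ₗ ε l := LinearMap.ext fun x => hM.comm.1 l x
    rw [h3] at h1
    exact h1.trans h2.symm
  ker x hx := by
    have h1 := (M.computes l).ker x hx
    rw [hM.proj l] at h1
    exact h1
  frob p w x hx hdx := by
    have h1 := (M.computes l).frob x hdx
    have h2 := hM.frob l (w + X.n) p x (at_iff.1 hx)
    rw [← h1, h2, map_smul, show w + (X.n : ℤ) - p = w - p + X.n by ring]
  mono x hx := (M.computes l).mono x hx
  comm y := (M.computes l).comm y

omit hM in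
/-- the position projectors -/
theorem sg_of (M : X.Motive) (l : I) : ∃ σ, Sg (K := K l) (E := Tot (W l) X.EY) (V := M.V l)
    (X.ed l) (sP X l) (M.u l) (M.φ l) (M.ν l) σ
      (insert (-1) (insert 1 (Finset.univ.image X.epos))) := by
  classical
  have hN : H62A.IsChain X.complex 2 X.eN := ⟨X.motivic_eN hW, X.eN_bidegree,
    fun l x => LinearMap.congr_fun (X.eN_ed l) x⟩
  set R := M.toReal hN with hR
  have hsum : ∀ y, ∑ p ∈ Finset.univ.image X.epos, R.ppos l p y = y := by
    intro y
    have h1 := LinearMap.congr_fun (ppos_sum R l) y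
    rw [LinearMap.sum_apply] at h1
    exact h1
  have key : ∀ p, p ∉ Finset.univ.image X.epos → ∀ y : R.V l, R.ppos l p y = 0 := by
    intro p hp y
    have h1 := congrArg (R.ppos l p) (hsum y)
    rw [map_sum] at h1
    rw [← h1]
    refine Finset.sum_eq_zero fun p' hp' => ?_
    exact LinearMap.congr_fun (ppos_orth R l p p' (by rintro rfl; exact hp hp')) y
  refine ⟨R.ppos l, ⟨fun p x hx => ((R.desc_ppos l p).2 x hx).symm,
    fun p y => LinearMap.congr_fun (ppos_idem R l p) y, fun y => ?_, fun p y => ?_,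
    fun p y => ?_⟩⟩
  · rw [← Finset.sum_subset (s₁ := Finset.univ.image X.epos)]
    · exact hsum y
    · exact (Finset.subset_insert _ _).trans (Finset.subset_insert _ _)
    · intro p _ hp
      exact key p hp y
  · refine LinearMap.congr_fun (comm_of_comp R (Desc.phi R l) (R.desc_ppos l p)
      (R.desc_ppos l p) (Desc.phi R l) ?_) y
    have := comp_posProj (W l) X.complex.Y X.complex.pos X.complex.tw (R.F_chain.bidegree l) p
    rwa [add_zero] at this
  · exact LinearMap.congr_fun (comm_of_comp R (Desc.nu R l) (R.desc_ppos l p)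
      (R.desc_ppos l (p + 2)) (Desc.nu R l)
      (comp_posProj (W l) X.complex.Y X.complex.pos X.complex.tw (R.N_chain.bidegree l) p)) y

omit hM hW in
lemma deg_eq (M : X.Motive) (l : I) (w : ℤ) : M.deg l (w + X.n) =
    Dg (K := K l) (E := Tot (W l) X.EY) (X.ed l) X.n (tP X l) (M.u l) w := by
  ext y
  rw [mem_Dg]
  constructor
  · rintro ⟨x, ⟨h1, h2⟩, rfl⟩
    exact ⟨x, h1, degProj_of_mem _ _ _ _ h2, rfl⟩
  · rintro ⟨x, h1, h2, rfl⟩
    refine ⟨x, ⟨h1, ?_⟩, rfl⟩
    rw [← h2]
    exact H62A.degProj_mem _ _ _ _ _ _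

end real

section fam

/-- rational traces of motivic endomorphisms -/
theorem ratFam_MA (hW : Compatible W) (hK : ∀ c n, KunnethMotivic W (X.EY c) n)
    (x : MA hW X.EY) : RatFam fun l => LinearMap.trace (K l) (Tot (W l) X.EY) (MA.val x l) :=
  ⟨MA.trace hW hK x, fun l => MA.trace_spec hW hK x l⟩

lemma val_pow (hW : Compatible W) (x : MA hW X.EY) (m : ℕ) (l : I) :
    MA.val (x ^ m) l = MA.val x l ^ m := map_pow (ev (C := X.complex) hW X.EY l) x m

lemma val_mul (hW : Compatible W) (x y : MA hW X.EY) (l : I) :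
    MA.val (x * y) l = MA.val x l * MA.val y l := rfl

/-- rational traces on the ranges of motivic projectors -/
theorem ratFam_range (hW : Compatible W) (hK : ∀ c n, KunnethMotivic W (X.EY c) n)
    (T Q : MA hW X.EY) (hQ : ∀ l, MA.val Q l * MA.val Q l = MA.val Q l)
    (hT : ∀ l, ∀ x ∈ LinearMap.range (MA.val Q l), MA.val T l x ∈ LinearMap.range (MA.val Q l))
    (m : ℕ) : RatFam fun l => trOn (MA.val T l ^ m) (LinearMap.range (MA.val Q l)) := by
  refine (ratFam_MA hW hK (T ^ m * Q)).of_eq fun l => ?_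
  rw [trOn_range (hQ l) (pow_mem_of (hT l) m), val_mul, val_pow]

end fam

end Pool.Agent.H79Q
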